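import Pool.Agent.X320.FS.Rank
import Pool.Agent.X320.DS.Main

/-! Compatible systems: the Frobenius elements are semisimple for all `ℓ` at the places of a set of density one. -/

set_option autoImplicit false
set_option linter.all false

namespace Pool.Agent.X320.FS

open Module Polynomial Filter Topology MeasureTheory NumberField IsDedekindDomain
open Pool.Agent.W401.Cheb Pool.Agent.X320.KR Pool.Agent.X320.DS Pool.Agent.X320.RU
open Pool.Agent.W528.Ord (dens_mono dens_nonneg dens_or)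

section lin

variable {F : Type*} [Field F] {n : ℕ}

theorem ss_conj {M A A' : Matrix (Fin n) (Fin n) F} [PerfectField F] (h1 : A * A' = 1) (h2 : A' * A = 1)
    (h : Module.End.IsSemisimple (Matrix.toLin' M)) : Module.End.IsSemisimple (Matrix.toLin' (A * M * A')) := by
  have h3 := h.minpoly_squarefree
  refine Module.End.isSemisimple_of_squarefree_aeval_eq_zero h3 ?_
  have h4 : ∀ g : F[X], aeval (A * M * A') g = A * aeval M g * A' := by
    intro g
    induction g using Polynomial.induction_on' with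
    | add p q hp hq => rw [map_add, map_add, hp, hq, mul_add, add_mul]
    | monomial k c =>
      have h5 : ∀ k : ℕ, (A * M * A') ^ k = A * M ^ k * A' := by
        intro k
        induction k with
        | zero => rw [pow_zero, pow_zero, mul_one, h1]
        | succ k ih =>
          rw [pow_succ, ih, pow_succ]
          calc A * M ^ k * A' * (A * M * A') = A * M ^ k * (A' * A) * M * A' := by simp only [mul_assoc]
            _ = _ := by rw [h2, mul_one]; simp only [mul_assoc]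
      rw [aeval_monomial, aeval_monomial, h5, ← Algebra.smul_def, ← Algebra.smul_def, mul_smul_comm, smul_mul_assoc]
  rw [aeval_toLin2, h4]
  have h6 : aeval M (minpoly F (Matrix.toLin' M)) = 0 := by
    apply Matrix.toLin'.injective
    rw [← aeval_toLin2, minpoly.aeval, map_zero]
  rw [h6, mul_zero, zero_mul, map_zero]

theorem ss_inv {M M' : Matrix (Fin n) (Fin n) F} [PerfectField F] (h1 : M * M' = 1)
    (h : Module.End.IsSemisimple (Matrix.toLin' M)) : Module.End.IsSemisimple (Matrix.toLin' M') := by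
  set c := M.charpoly.coeff 0 with hc
  set q := M.charpoly.divX with hq
  have hc0 : c ≠ 0 := by
    intro h0
    have h2 := Matrix.det_eq_sign_charpoly_coeff M
    rw [← hc, h0, mul_zero] at h2
    have h3 : IsUnit M.det := by
      rw [isUnit_iff_exists_inv]
      exact ⟨M'.det, by rw [← Matrix.det_mul, h1, Matrix.det_one]⟩
    rw [h2] at h3
    exact not_isUnit_zero h3
  have h2 : M' = aeval M (C (-c⁻¹) * q) := by
    have h3 : aeval M (q * X + C c) = 0 := by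
      rw [hq, hc, Polynomial.divX_mul_X_add, Matrix.aeval_self_charpoly]
    rw [map_add, map_mul, aeval_X, aeval_C, add_comm] at h3
    have h4 : (algebraMap F (Matrix (Fin n) (Fin n) F) c) * M' + aeval M q = 0 := by
      have h5 := congrArg (fun z => z * M') h3
      simp only [add_mul, mul_assoc, h1, mul_one, zero_mul] at h5
      exact h5
    rw [map_mul, aeval_C, map_neg, neg_mul, ← Algebra.smul_def]
    have h6 : c • M' = -aeval M q := by
      rw [Algebra.smul_def]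
      exact eq_neg_of_add_eq_zero_left h4
    rw [← smul_neg, ← h6, smul_smul, inv_mul_cancel₀ hc0, one_smul]
  have h7 : Matrix.toLin' M' = aeval (Matrix.toLin' M) (C (-c⁻¹) * q) := by
    rw [aeval_toLin2, ← h2]
  rw [h7]
  exact h.aeval _

end lin

section dens

variable {K : Type} [Field K] [NumberField K]

/-- density one from density zero of the complement -/
theorem dens_one {P : HeightOneSpectrum (𝓞 K) → Prop} (h : ∀ ε : ℝ, 0 < ε → ¬ ∃ᶠ N in atTop, ε ≤ dens (fun v => ¬ P v) N) :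
    Tendsto (dens P) atTop (𝓝 1) := by
  have h0 : Tendsto (dens fun v => ¬ P v) atTop (𝓝 0) := by
    rw [tendsto_order]
    refine ⟨fun a ha => Eventually.of_forall fun N => ha.trans_le (dens_nonneg _ _), fun a ha => ?_⟩
    have := h a ha
    rw [Filter.not_frequently] at this
    exact this.mono fun N hN => not_le.1 hN
  have h1 : Tendsto (fun N => dens (fun _ : HeightOneSpectrum (𝓞 K) => True) N - dens (fun v => ¬ P v) N) atTop (𝓝 1) := by
    have := (dens_all (K := K)).sub h0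
    rwa [sub_zero] at this
  refine tendsto_of_tendsto_of_tendsto_of_le_of_le h1 (dens_all (K := K)) (fun N => ?_) (fun N => dens_mono (fun v _ => trivial) N)
  have h2 : dens (fun _ : HeightOneSpectrum (𝓞 K) => True) N ≤ dens (fun v => P v ∨ ¬ P v) N :=
    dens_mono (fun v _ => em (P v)) N
  have h3 := dens_or P (fun v => ¬ P v) N
  show dens (fun _ : HeightOneSpectrum (𝓞 K) => True) N - dens (fun v => ¬ P v) N ≤ dens P N
  linarith

theorem dens_one_remove {P Q : HeightOneSpectrum (𝓞 K) → Prop} (T : Set (HeightOneSpectrum (𝓞 K))) (hT : T.Finite)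
    (h : ∀ v, P v → v ∉ T → Q v) (hP : Tendsto (dens P) atTop (𝓝 1)) : Tendsto (dens Q) atTop (𝓝 1) := by
  have h1 : Tendsto (fun N => dens P N - dens (fun v => v ∈ T) N) atTop (𝓝 1) := by
    have := hP.sub (dens_finite T hT)
    rwa [sub_zero] at this
  refine tendsto_of_tendsto_of_tendsto_of_le_of_le h1 (dens_all (K := K)) (fun N => ?_) (fun N => dens_mono (fun v _ => trivial) N)
  have h4 : dens P N ≤ dens (fun v => Q v ∨ v ∈ T) N := by
    refine dens_mono (fun v hv => ?_) N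
    by_cases hvT : v ∈ T
    · exact Or.inr hvT
    · exact Or.inl (h v hv hvT)
  have h5 := dens_or Q (fun v => v ∈ T) N
  show dens P N - dens (fun v => v ∈ T) N ≤ dens Q N
  linarith

theorem dens_good [MeasurableSpace (GK K)] [BorelSpace (GK K)] (μ : Measure (GK K))
    [IsProbabilityMeasure μ] [μ.IsMulLeftInvariant] [μ.Regular] {B : Set (GK K)} (hB : IsClosed B) (hμ : μ B = 0) :
    Tendsto (dens fun v : HeightOneSpectrum (𝓞 K) => ∃ σ, IsFrob v σ ∧ σ⁻¹ ∉ B) atTop (𝓝 1) := by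
  refine dens_one fun ε hε hfr => ?_
  have h1 := measure_ge_freq μ (fun v : HeightOneSpectrum (𝓞 K) => ¬ ∃ σ, IsFrob v σ ∧ σ⁻¹ ∉ B) hfr B hB
    (fun v hv σ hσ => by
      by_contra hcon
      exact hv ⟨σ, hσ, hcon⟩)
  rw [hμ] at h1
  have := ENNReal.ofReal_eq_zero.1 (le_antisymm h1 bot_le)
  linarith

end dens

section main

variable {K : Type} [Field K] [NumberField K] {n : ℕ}

/-- **The theorem for compatible systems.** -/
theorem compat_ss {S : Set (HeightOneSpectrum (𝓞 K))} (hS : S.Finite)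
    (P : HeightOneSpectrum (𝓞 K) → ℤ[X]) (ρ : ∀ ℓ : ℕ, [Fact ℓ.Prime] → GK K →* GL (Fin n) ℚ_[ℓ])
    (hρ : ∀ (ℓ : ℕ) [Fact ℓ.Prime], Continuous (ρ ℓ))
    (hI : ∀ (ℓ : ℕ) [Fact ℓ.Prime], ∀ v ∉ S, (ℓ : 𝓞 K) ∉ v.asIdeal → ∀ σ, IsInert v σ → ρ ℓ σ = 1)
    (hP : ∀ (ℓ : ℕ) [Fact ℓ.Prime], ∀ v ∉ S, (ℓ : 𝓞 K) ∉ v.asIdeal → ∀ σ, IsFrob v σ →
      (ρ ℓ σ⁻¹ : Matrix (Fin n) (Fin n) ℚ_[ℓ]).charpoly = (P v).map (algebraMap ℤ ℚ_[ℓ])) :
    Tendsto (dens fun v => v ∉ S ∧ ∀ (ℓ : ℕ) [Fact ℓ.Prime], (ℓ : 𝓞 K) ∉ v.asIdeal → Semisimple (ρ ℓ) →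
      ∀ σ, IsFrob v σ → Module.End.IsSemisimple (Matrix.toLin' (ρ ℓ σ : Matrix (Fin n) (Fin n) ℚ_[ℓ]))) atTop (𝓝 1) := by
  classical
  letI : MeasurableSpace (GK K) := borel _
  haveI : BorelSpace (GK K) := ⟨rfl⟩
  set μ : Measure (GK K) := Measure.haarMeasure (⊤ : TopologicalSpace.PositiveCompacts (GK K)) with hμ
  haveI : IsProbabilityMeasure μ := ⟨by
    have := Measure.haarMeasure_self (K₀ := (⊤ : TopologicalSpace.PositiveCompacts (GK K)))
    rw [hμ]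
    rwa [TopologicalSpace.PositiveCompacts.coe_top] at this⟩
  haveI h2p : Fact (Nat.Prime 2) := ⟨Nat.prime_two⟩
  obtain ⟨V, R, B, hVn, hVo, hBc, hB0, hRV, hup, hout⟩ := exists_rank (ρ 2) μ (hρ 2)
  have h2fin : {v : HeightOneSpectrum (𝓞 K) | ((2 : ℕ) : 𝓞 K) ∈ v.asIdeal}.Finite := finite_above two_ne_zero
  refine dens_one_remove (S ∪ {v : HeightOneSpectrum (𝓞 K) | ((2 : ℕ) : 𝓞 K) ∈ v.asIdeal}) (hS.union h2fin) ?_
    (dens_good μ hBc hB0)
  rintro v ⟨σ₀, hσ₀, hσB⟩ hvT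
  have hvS : v ∉ S := fun h => hvT (Or.inl h)
  have hv2 : ((2 : ℕ) : 𝓞 K) ∉ v.asIdeal := fun h => hvT (Or.inr h)
  refine ⟨hvS, fun ℓ hℓ hvℓ hss σ hσ => ?_⟩
  have hnd : ∀ w ∉ S, ∀ (q : ℕ) [Fact q.Prime], (q : 𝓞 K) ∉ w.asIdeal → ∀ τ, IsFrob w τ →
      ndeg (Matrix.toLin' (ρ q τ⁻¹ : Matrix (Fin n) (Fin n) ℚ_[q])) =
      ((P w).map (algebraMap ℤ (AlgebraicClosure ℚ))).roots.toFinset.card := fun w hw q hq hqw τ hτ =>
    ndeg_int _ _ (hP q w hw hqw τ hτ)
  -- the element is semisimple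
  have hs0 : Module.End.IsSemisimple (Matrix.toLin' (ρ ℓ σ₀⁻¹ : Matrix (Fin n) (Fin n) ℚ_[ℓ])) := by
    refine ss_of_max (p := ℓ) (ρ ℓ) (hρ ℓ) hss hVn hVo σ₀⁻¹ fun y hy => ?_
    rw [hnd v hvS ℓ hvℓ σ₀ hσ₀, ← hnd v hvS 2 hv2 σ₀ hσ₀, hout _ hσB, hRV _ _ hy]
    by_contra hcon
    push Not at hcon
    set r := ndeg (Matrix.toLin' (ρ ℓ y : Matrix (Fin n) (Fin n) ℚ_[ℓ])) with hr
    have hO : IsOpen ((fun z => y * z) ⁻¹' {x : GK K | phi r (ρ ℓ x : Matrix (Fin n) (Fin n) ℚ_[ℓ]) ≠ 0}) :=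
      (open_ndeg (ρ ℓ) (hρ ℓ) r).preimage (continuous_const_mul y)
    obtain ⟨U, hU⟩ := ProfiniteGrp.exist_openNormalSubgroup_sub_open_nhds_of_one (hO.inter hVo) ⟨by
      show phi r (ρ ℓ (y * 1) : Matrix (Fin n) (Fin n) ℚ_[ℓ]) ≠ 0
      rw [mul_one, hr, ← phi_eq]
      exact ndeg_det _, V.one_mem⟩
    haveI : U.toSubgroup.Normal := U.isNormal'
    obtain ⟨v', hv', σ', hσ', hmk⟩ := exists_frob_coset U.toSubgroup U.isOpen' y
      (S ∪ {v : HeightOneSpectrum (𝓞 K) | ((2 : ℕ) : 𝓞 K) ∈ v.asIdeal} ∪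
        {v : HeightOneSpectrum (𝓞 K) | ((ℓ : ℕ) : 𝓞 K) ∈ v.asIdeal})
      ((hS.union h2fin).union (finite_above hℓ.out.ne_zero))
    have hv'S : v' ∉ S := fun h => hv' (Or.inl (Or.inl h))
    have hv'2 : ((2 : ℕ) : 𝓞 K) ∉ v'.asIdeal := fun h => hv' (Or.inl (Or.inr h))
    have hv'ℓ : ((ℓ : ℕ) : 𝓞 K) ∉ v'.asIdeal := fun h => hv' (Or.inr h)
    have hmem : y⁻¹ * σ'⁻¹ ∈ U.toSubgroup := QuotientGroup.eq.1 hmk.symm
    obtain ⟨h1, h2⟩ := hU hmem
    have h3 : phi r (ρ ℓ σ'⁻¹ : Matrix (Fin n) (Fin n) ℚ_[ℓ]) ≠ 0 := by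
      have h4 : phi r (ρ ℓ (y * (y⁻¹ * σ'⁻¹)) : Matrix (Fin n) (Fin n) ℚ_[ℓ]) ≠ 0 := h1
      rwa [mul_inv_cancel_left] at h4
    have h4 : r ≤ ndeg (Matrix.toLin' (ρ ℓ σ'⁻¹ : Matrix (Fin n) (Fin n) ℚ_[ℓ])) := by
      refine le_ndeg _ ?_
      rw [phi_eq]
      exact h3
    rw [hnd v' hv'S ℓ hv'ℓ σ' hσ', ← hnd v' hv'S 2 hv'2 σ' hσ'] at h4
    have h5 := hup σ'⁻¹
    rw [← hRV y σ'⁻¹ h2] at h5
    omega
  -- all Frobenius elements are conjugate
  obtain ⟨τ, ι, hι, rfl⟩ := Pool.Agent.W401.Frob.conj_frob v σ₀ σ hσ₀ hσ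
  have h1 : ρ ℓ (τ * σ₀ * τ⁻¹ * ι) = ρ ℓ (τ * σ₀ * τ⁻¹) := by
    rw [map_mul, hI ℓ v hvS hvℓ ι hι, mul_one]
  rw [h1, KR.val_mul, KR.val_mul]
  refine ss_conj (KR.val_mul_inv τ) (KR.val_inv_mul τ) ?_
  exact ss_inv (KR.val_inv_mul σ₀) hs0

end main

end Pool.Agent.X320.FS
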