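import Pool.Agent.X320.FS.Final
import Pool.Agent.Y142.MainA

/-! Polarized pure systems. -/

set_option autoImplicit false
set_option linter.all false

namespace Pool.Agent.X320.FS

open Module Polynomial Filter Topology NumberField IsDedekindDomain Matrix
open Pool.Agent.W401.Cheb Pool.Agent.X320.DS

section

variable {K : Type} [Field K] [NumberField K] {n ℓ : ℕ} [hℓ : Fact ℓ.Prime]

theorem semisimple_pol (ρ : GK K →* GL (Fin n) ℚ_[ℓ]) (hρ : Continuous ρ) (J : Matrix (Fin n) (Fin n) ℚ_[ℓ])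
    (hJ : J.det ≠ 0) (hsym : Jᵀ = J ∨ Jᵀ = -J) (χ : GK K → ℚ_[ℓ])
    (hχ : ∀ g, (ρ g : Matrix (Fin n) (Fin n) ℚ_[ℓ])ᵀ * J * (ρ g : Matrix (Fin n) (Fin n) ℚ_[ℓ]) = χ g • J)
    {w : ℕ} (hw : 0 < w) {S : Set (HeightOneSpectrum (𝓞 K))} (hS : S.Finite)
    (P : HeightOneSpectrum (𝓞 K) → ℤ[X])
    (hP : ∀ v ∉ S, (P v).Monic ∧
      (∀ z : ℂ, aeval z (P v) = 0 → ‖z‖ ^ 2 = (Ideal.absNorm v.asIdeal : ℝ) ^ w) ∧
      ∀ σ : GK K, IsFrob v σ → (ρ σ⁻¹ : Matrix (Fin n) (Fin n) ℚ_[ℓ]).charpoly = (P v).map (algebraMap ℤ ℚ_[ℓ]) ∧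
        χ σ⁻¹ = (Ideal.absNorm v.asIdeal : ℚ_[ℓ]) ^ w)
    (hno : ∀ d : ℕ, 0 < d → 2 * d ≤ n → Even (w * d * finrank ℚ K) → ∃ (p : ℕ)
      (v : Fin (finrank ℚ K) → HeightOneSpectrum (𝓞 K)), p.Prime ∧ Function.Injective v ∧
      (∀ i, (p : 𝓞 K) ∈ (v i).asIdeal ∧ v i ∉ S) ∧
      ¬ (Pool.Agent.Y142.IsoRel ℂ ℂ (fun i => P (v i)) (p ^ w) d ∧
        Pool.Agent.Y142.IsoRel ℚ_[ℓ] (AlgebraicClosure ℚ_[ℓ]) (fun i => P (v i)) (p ^ w) d)) :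
    Semisimple ρ := by
  intro U hU
  have hB : ∀ x y : Fin n → ℚ_[ℓ], Matrix.toBilin' J x y = x ⬝ᵥ J *ᵥ y := fun x y => Matrix.toBilin'_apply' J x y
  have h := Pool.Agent.Y142.semisimple_A (MonoidHom.id (GK K)) (toEnd ρ) (fun φ x => by
      have h1 : Continuous fun g : GK K => (ρ g : Matrix (Fin n) (Fin n) ℚ_[ℓ]) *ᵥ x :=
        (Units.continuous_val.comp hρ).matrix_mulVec continuous_const
      have h2 : Continuous (φ : (Fin n → ℚ_[ℓ]) → ℚ_[ℓ]) := LinearMap.continuous_of_finiteDimensional φ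
      exact h2.comp h1) (Matrix.toBilin' J) (Matrix.Nondegenerate.toBilin' (Matrix.nondegenerate_of_det_ne_zero hJ))
    (fun x y hxy => by
      rw [hB] at hxy ⊢
      have e : y ⬝ᵥ J *ᵥ x = x ⬝ᵥ Jᵀ *ᵥ y := by
        rw [Matrix.dotProduct_mulVec, Matrix.mulVec_transpose, dotProduct_comm]
      rw [e]
      rcases hsym with h | h
      · rw [h, hxy]
      · rw [h, Matrix.neg_mulVec, dotProduct_neg, hxy, neg_zero]) χ (fun g x y => by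
      rw [hB, hB]
      show (ρ g : Matrix (Fin n) (Fin n) ℚ_[ℓ]) *ᵥ x ⬝ᵥ J *ᵥ ((ρ g : Matrix (Fin n) (Fin n) ℚ_[ℓ]) *ᵥ y) = _
      have e : x ⬝ᵥ ((ρ g : Matrix (Fin n) (Fin n) ℚ_[ℓ])ᵀ * J * (ρ g : Matrix (Fin n) (Fin n) ℚ_[ℓ])) *ᵥ y =
          ((ρ g : Matrix (Fin n) (Fin n) ℚ_[ℓ]) *ᵥ x) ⬝ᵥ (J *ᵥ ((ρ g : Matrix (Fin n) (Fin n) ℚ_[ℓ]) *ᵥ y)) := by
        rw [← Matrix.mulVec_mulVec, ← Matrix.mulVec_mulVec, Matrix.dotProduct_mulVec, Matrix.vecMul_transpose]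
      rw [← e, hχ, Matrix.smul_mulVec, dotProduct_smul, smul_eq_mul]) hw hS P (fun v hv => ?_) (fun d h1 h2 h3 => ?_) U (fun g x hx => hU g x hx)
  · exact ⟨_, fun g x hx => h.2 g hx, h.1⟩
  · obtain ⟨h1, h2, h3⟩ := hP v hv
    refine ⟨h1, h2, fun σ hσ => ⟨?_, (h3 σ hσ).2⟩⟩
    rw [← (h3 σ hσ).1]
    exact Matrix.charpoly_toLin' _
  · exact hno d h1 (by rwa [finrank_fin_fun] at h2) h3

end

end Pool.Agent.X320.FS
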