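import Pool.Agent.X320.FS.Final
import Pool.Agent.X320.DS.Dual
import Mathlib.NumberTheory.Padics.Complex

/-! Base change from the algebraic closure of `ℚ_ℓ` to its completion. -/

set_option autoImplicit false
set_option linter.all false

namespace Pool.Agent.X320.FS

open Module Polynomial Filter Topology MeasureTheory NumberField IsDedekindDomain
open Pool.Agent.W401.Cheb Pool.Agent.X320.KR Pool.Agent.X320.DS Pool.Agent.X320.RU
open Pool.Agent.W528.Ord (dens_mono dens_nonneg dens_or)

section rigid

variable {Γ : Type*} [Group Γ] {k : Type*} [Field k] {n : ℕ}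

/-- the representation is a linear combination of its traces -/
def Rigid (ρ : Γ →* GL (Fin n) k) : Prop :=
  ∃ (r : ℕ) (g : Fin r → Γ) (B : Fin r → Matrix (Fin n) (Fin n) k), ∀ x : Γ,
    (ρ x : Matrix (Fin n) (Fin n) k) = ∑ i, (ρ (g i * x) : Matrix (Fin n) (Fin n) k).trace • B i

theorem rigid_of_ss [CharZero k] {ρ : Γ →* GL (Fin n) k} (h : Semisimple ρ) : Rigid ρ := by
  obtain ⟨r, g, B, -, hB⟩ := exists_dual h (by exact_mod_cast n.factorial_ne_zero)
  exact ⟨r, g, B, hB⟩

theorem nondeg_of_rigid {ρ : Γ →* GL (Fin n) k} (h : Rigid ρ) :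
    ∀ z ∈ alg ρ, (∀ a ∈ alg ρ, LinearMap.trace k (Fin n → k) (a * z) = 0) → z = 0 := by
  obtain ⟨r, g, B, hB⟩ := h
  intro z hz hz'
  have key : ∀ z ∈ Submodule.span k (Set.range (toEnd ρ)),
      LinearMap.toMatrix' z = ∑ i, LinearMap.trace k (Fin n → k) (toEnd ρ (g i) * z) • B i := by
    intro z hz
    refine Submodule.span_induction (p := fun z _ => LinearMap.toMatrix' z =
      ∑ i, LinearMap.trace k (Fin n → k) (toEnd ρ (g i) * z) • B i) ?_ ?_ ?_ ?_ hz
    · rintro _ ⟨x, rfl⟩
      have h1 : LinearMap.toMatrix' (toEnd ρ x) = (ρ x : Matrix (Fin n) (Fin n) k) := LinearMap.toMatrix'_toLin' _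
      rw [h1, hB x]
      refine Finset.sum_congr rfl fun i _ => ?_
      congr 1
      rw [← map_mul]
      exact (Matrix.trace_toLin'_eq _).symm
    · rw [map_zero]
      refine (Finset.sum_eq_zero fun i _ => ?_).symm
      rw [mul_zero, map_zero, zero_smul]
    · intro a b _ _ ha hb
      rw [map_add, ha, hb, ← Finset.sum_add_distrib]
      refine Finset.sum_congr rfl fun i _ => ?_
      rw [mul_add, map_add, add_smul]
    · intro c a _ ha
      rw [map_smul, ha, Finset.smul_sum]
      refine Finset.sum_congr rfl fun i _ => ?_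
      rw [mul_smul_comm, map_smul, smul_smul, smul_eq_mul]
  have hz2 : z ∈ Submodule.span k (Set.range (toEnd ρ)) := by
    rw [← alg_eq_span]
    exact hz
  have h1 := key z hz2
  have h2 : LinearMap.toMatrix' z = 0 := by
    rw [h1]
    refine Finset.sum_eq_zero fun i _ => ?_
    rw [hz' _ (Algebra.subset_adjoin ⟨g i, rfl⟩), zero_smul]
  exact (LinearEquiv.map_eq_zero_iff _).1 h2

theorem Rigid.map {K : Type*} [Field K] (f : k →+* K) {ρ : Γ →* GL (Fin n) k} (h : Rigid ρ) :
    Rigid ((Matrix.GeneralLinearGroup.map f).comp ρ) := by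
  obtain ⟨r, g, B, hB⟩ := h
  refine ⟨r, g, fun i => (B i).map f, fun x => ?_⟩
  have e : ∀ y, (((Matrix.GeneralLinearGroup.map f).comp ρ) y : Matrix (Fin n) (Fin n) K) =
      (ρ y : Matrix (Fin n) (Fin n) k).map f := fun y => rfl
  rw [e, hB x]
  ext a b
  rw [Matrix.map_apply, Matrix.sum_apply, map_sum, Matrix.sum_apply]
  refine Finset.sum_congr rfl fun i _ => ?_
  rw [Matrix.smul_apply, Matrix.smul_apply, smul_eq_mul, smul_eq_mul, map_mul, e]
  have e3 : ((ρ (g i * x) : Matrix (Fin n) (Fin n) k).map f).trace = f (ρ (g i * x) : Matrix (Fin n) (Fin n) k).trace := by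
    rw [Matrix.trace, Matrix.trace, map_sum]
    rfl
  rw [e3]
  rfl

/-- descent of semisimplicity -/
theorem ss_descend [CharZero k] {K : Type*} [Field K] [CharZero K] (f : k →+* K) {M : Matrix (Fin n) (Fin n) k}
    (h : Module.End.IsSemisimple (Matrix.toLin' (M.map f))) : Module.End.IsSemisimple (Matrix.toLin' M) := by
  obtain ⟨Q, hQ⟩ := exists_rad (Matrix.toLin' M)
  refine Module.End.isSemisimple_of_squarefree_aeval_eq_zero hQ.sep.squarefree ?_
  obtain ⟨m, hm⟩ := hQ.nil
  have h1 : ∀ g : k[X], aeval (M.map f) (g.map f) = (aeval M g).map f := by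
    intro g
    have h4 := Polynomial.map_aeval_eq_aeval_map (φ := f) (ψ := f.mapMatrix (m := Fin n)) (by
      ext r i j
      show (algebraMap K (Matrix (Fin n) (Fin n) K) (f r)) i j =
        f ((algebraMap k (Matrix (Fin n) (Fin n) k) r) i j)
      by_cases hij : i = j
      · subst hij
        simp [Matrix.algebraMap_matrix_apply]
      · simp [Matrix.algebraMap_matrix_apply, hij]) g M
    exact h4.symm
  have h2 : aeval M (Q ^ m) = 0 := by
    apply Matrix.toLin'.injective
    rw [← aeval_toLin2, map_pow, hm, map_zero]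
  have h3 : IsNilpotent (aeval (Matrix.toLin' (M.map f)) (Q.map f)) := by
    refine ⟨m, ?_⟩
    rw [← map_pow, ← Polynomial.map_pow, aeval_toLin2, h1, h2]
    ext i j
    simp
  have h4 := Module.End.eq_zero_of_isNilpotent_isSemisimple h3 (h.aeval _)
  rw [aeval_toLin2, h1] at h4
  have h5 : (aeval M Q).map f = 0 := by
    apply Matrix.toLin'.injective
    rw [h4, map_zero]
  rw [aeval_toLin2]
  have h6 : aeval M Q = 0 := by
    ext i j
    have := congrFun (congrFun h5 i) j
    rw [Matrix.map_apply, Matrix.zero_apply] at this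
    rw [Matrix.zero_apply]
    exact (map_eq_zero f).1 this
  rw [h6, map_zero]

theorem ndeg_num {E : Type*} [Field E] [CharZero k] (M : Matrix (Fin n) (Fin n) k) (P : E[X]) (i : E →+* k)
    (h : M.charpoly = P.map i) : ∀ [DecidableEq (AlgebraicClosure E)], ndeg (Matrix.toLin' M) =
      (P.map (algebraMap E (AlgebraicClosure E))).roots.toFinset.card := by
  intro _
  classical
  let Ω := AlgebraicClosure k
  letI : Algebra E Ω := ((algebraMap k Ω).comp i).toAlgebra
  let j : AlgebraicClosure E →+* Ω := (IsAlgClosed.lift (R := E) (M := Ω) (S := AlgebraicClosure E)).toRingHom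
  rw [ndeg_eq M Ω, h, Polynomial.map_map]
  have e : (algebraMap k Ω).comp i = j.comp (algebraMap E (AlgebraicClosure E)) := by
    ext x
    have := (IsAlgClosed.lift (R := E) (M := Ω) (S := AlgebraicClosure E)).commutes x
    exact this.symm
  rw [e, ← Polynomial.map_map, (IsAlgClosed.splits _).roots_map]
  have e2 : (Multiset.map j (P.map (algebraMap E (AlgebraicClosure E))).roots).toFinset =
      ((P.map (algebraMap E (AlgebraicClosure E))).roots.toFinset).image j := by
    ext z
    simp
  rw [e2, Finset.card_image_of_injective _ j.injective]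

end rigid

end Pool.Agent.X320.FS
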