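import Mathlib

/-! Semisimplicity over a normal subgroup and a complementary subgroup. -/

set_option autoImplicit false
set_option linter.all false

namespace Pool.Agent.X320.FS

open Module

section

variable {Γ : Type*} [Group Γ] {k : Type*} [Field k] {V : Type*} [AddCommGroup V] [Module k V]
  (r : Γ →* Module.End k V)

/-- the subspace `U` is stable under the subgroup `H` -/
def StableFor (H : Subgroup Γ) (U : Submodule k V) : Prop := ∀ g ∈ H, ∀ x ∈ U, r g x ∈ U

/-- every `H`-stable subspace has an `H`-stable complement -/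
def SSFor (H : Subgroup Γ) : Prop := ∀ U, StableFor r H U → ∃ U', StableFor r H U' ∧ IsCompl U U'

/-- the endomorphism `e` commutes with `H` -/
def ComFor (H : Subgroup Γ) (e : Module.End k V) : Prop := ∀ g ∈ H, e * r g = r g * e

variable {r}

theorem r_inv_mul (g : Γ) : r g⁻¹ * r g = 1 := by rw [← map_mul, inv_mul_cancel, map_one]

theorem r_mul_inv (g : Γ) : r g * r g⁻¹ = 1 := by rw [← map_mul, mul_inv_cancel, map_one]

theorem exists_proj {H : Subgroup Γ} (hss : SSFor r H) {U : Submodule k V} (hU : StableFor r H U) :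
    ∃ e : Module.End k V, ComFor r H e ∧ (∀ x, e x ∈ U) ∧ ∀ x ∈ U, e x = x := by
  obtain ⟨U', hU', hc⟩ := hss U hU
  refine ⟨U.subtype ∘ₗ U.projectionOnto U' hc, ?_, fun x => Submodule.coe_mem _, fun x hx => ?_⟩
  · intro g hg
    ext x
    obtain ⟨a, b, rfl⟩ : ∃ (a : U) (b : U'), (a : V) + b = x := by
      have : x ∈ U ⊔ U' := by rw [hc.sup_eq_top]; trivial
      obtain ⟨a, ha, b, hb, rfl⟩ := Submodule.mem_sup.1 this
      exact ⟨⟨a, ha⟩, ⟨b, hb⟩, rfl⟩
    have h1 : ∀ (a : U) (b : U'), (U.subtype ∘ₗ U.projectionOnto U' hc) ((a : V) + b) = a := by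
      intro a b
      rw [LinearMap.comp_apply, map_add, Submodule.projectionOnto_apply_left,
        Submodule.projectionOnto_apply_right, add_zero]
      rfl
    rw [Module.End.mul_apply, Module.End.mul_apply, h1, map_add]
    exact h1 ⟨r g a, hU g hg _ a.2⟩ ⟨r g b, hU' g hg _ b.2⟩
  · rw [LinearMap.comp_apply]
    have := Submodule.projectionOnto_apply_left hc ⟨x, hx⟩
    show ((U.projectionOnto U' hc x : U) : V) = x
    rw [show x = ((⟨x, hx⟩ : U) : V) from rfl, this]

theorem ss_of_proj {H : Subgroup Γ} (h : ∀ U, StableFor r H U → ∃ e : Module.End k V, ComFor r H e ∧ (∀ x, e x ∈ U) ∧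
    ∀ x ∈ U, e x = x) : SSFor r H := by
  intro U hU
  obtain ⟨e, he, h1, h2⟩ := h U hU
  refine ⟨LinearMap.ker e, fun g hg x hx => ?_, ?_⟩
  · rw [LinearMap.mem_ker] at hx ⊢
    have := LinearMap.congr_fun (he g hg) x
    rw [Module.End.mul_apply, Module.End.mul_apply, hx, map_zero] at this
    exact this
  · exact LinearMap.IsProj.isCompl ⟨h1, h2⟩

variable [FiniteDimensional k V] [CharZero k]

/-- the trace form is nondegenerate on the commutant of a semisimple action -/
theorem com_nondeg {H : Subgroup Γ} (hss : SSFor r H) {f : Module.End k V} (hf : ComFor r H f)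
    (h : ∀ g, ComFor r H g → LinearMap.trace k V (f * g) = 0) : f = 0 := by
  have hker : StableFor r H (LinearMap.ker f) := by
    intro g hg x hx
    rw [LinearMap.mem_ker] at hx ⊢
    have := LinearMap.congr_fun (hf g hg) x
    rw [Module.End.mul_apply, Module.End.mul_apply, hx, map_zero] at this
    exact this
  have hran : StableFor r H (LinearMap.range f) := by
    rintro g hg _ ⟨y, rfl⟩
    refine ⟨r g y, ?_⟩
    exact LinearMap.congr_fun (hf g hg) y
  obtain ⟨C, hC, hc⟩ := hss _ hker
  obtain ⟨C', hC', hc'⟩ := hss _ hran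
  have hinj : ∀ x ∈ C, f x = 0 → x = 0 := fun x hx hx0 => (Submodule.disjoint_def.1 hc.disjoint) x hx0 hx
  -- the partial inverse
  let φ : C →ₗ[k] LinearMap.range f := (f.rangeRestrict).comp C.subtype
  have hφ : Function.Bijective φ := by
    constructor
    · rw [← LinearMap.ker_eq_bot, LinearMap.ker_eq_bot']
      intro x hx
      apply Subtype.ext
      exact hinj x x.2 (congrArg Subtype.val hx)
    · rintro ⟨_, y, rfl⟩
      have : y ∈ LinearMap.ker f ⊔ C := by rw [hc.sup_eq_top]; trivial
      obtain ⟨a, ha, b, hb, rfl⟩ := Submodule.mem_sup.1 this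
      refine ⟨⟨b, hb⟩, Subtype.ext ?_⟩
      show f b = f (a + b)
      rw [map_add, LinearMap.mem_ker.1 ha, zero_add]
  let e := LinearEquiv.ofBijective φ hφ
  let g : Module.End k V := C.subtype ∘ₗ e.symm.toLinearMap ∘ₗ (LinearMap.range f).projectionOnto C' hc'
  have hg1 : ∀ (c : C) (c' : C'), g (f c + c') = c := by
    intro c c'
    show ((e.symm ((LinearMap.range f).projectionOnto C' hc' (f c + c')) : C) : V) = c
    have e1 : (LinearMap.range f).projectionOnto C' hc' (f c + c') = e c := by
      rw [map_add, Submodule.projectionOnto_apply_right, add_zero]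
      exact Submodule.projectionOnto_apply_left hc' (e c)
    rw [e1, LinearEquiv.symm_apply_apply]
  have hdec : ∀ x : V, ∃ (c : C) (c' : C'), x = f c + c' := by
    intro x
    have : x ∈ LinearMap.range f ⊔ C' := by rw [hc'.sup_eq_top]; trivial
    obtain ⟨_, ⟨y, rfl⟩, b, hb, rfl⟩ := Submodule.mem_sup.1 this
    have : y ∈ LinearMap.ker f ⊔ C := by rw [hc.sup_eq_top]; trivial
    obtain ⟨a, ha, c, hc2, rfl⟩ := Submodule.mem_sup.1 this
    refine ⟨⟨c, hc2⟩, ⟨b, hb⟩, ?_⟩
    rw [map_add, LinearMap.mem_ker.1 ha, zero_add]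
  have hg : ComFor r H g := by
    intro γ hγ
    ext x
    obtain ⟨c, c', rfl⟩ := hdec x
    rw [Module.End.mul_apply, Module.End.mul_apply, hg1, map_add]
    have e1 : r γ (f c) = f (r γ c) := (LinearMap.congr_fun (hf γ hγ) (c : V)).symm
    rw [e1]
    exact hg1 ⟨r γ c, hC γ hγ _ c.2⟩ ⟨r γ c', hC' γ hγ _ c'.2⟩
  have hproj : LinearMap.IsProj C (g * f) := by
    constructor
    · intro x
      exact Submodule.coe_mem _
    · intro x hx
      have := hg1 ⟨x, hx⟩ 0
      rw [Module.End.mul_apply]
      simpa using this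
  have htr := h g hg
  rw [LinearMap.trace_mul_comm, hproj.trace] at htr
  have hC0 : C = ⊥ := by
    have : finrank k C = 0 := by exact_mod_cast htr
    exact Submodule.finrank_eq_zero.1 this
  have hk : LinearMap.ker f = ⊤ := by
    have := hc.sup_eq_top
    rwa [hC0, sup_bot_eq] at this
  exact LinearMap.ker_eq_top.1 hk

/-- **Semisimplicity over the join.** -/
theorem ss_join {Δ D : Subgroup Γ} (hn : Δ.Normal) (hΔ : SSFor r Δ) (hD : SSFor r D) : SSFor r (Δ ⊔ D) := by
  refine ss_of_proj fun U hU => ?_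
  obtain ⟨e, he, he1, he2⟩ := exists_proj hΔ (U := U) fun g hg => hU g (Subgroup.mem_sup_left hg)
  obtain ⟨π, hπ, hπ1, hπ2⟩ := exists_proj hD (U := U) fun g hg => hU g (Subgroup.mem_sup_right hg)
  -- the commutant
  let M : Submodule k (Module.End k V) :=
    { carrier := {f | ComFor r Δ f}
      add_mem' := fun {a b} ha hb g hg => by rw [add_mul, mul_add, ha g hg, hb g hg]
      zero_mem' := fun g _ => by rw [zero_mul, mul_zero]
      smul_mem' := fun c a ha g hg => by rw [smul_mul_assoc, mul_smul_comm, ha g hg] }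
  let T : M →ₗ[k] Module.Dual k M := LinearMap.mk₂ k (fun f g : M => LinearMap.trace k V (f.1 * g.1))
    (fun a b c => by simp [add_mul]) (fun c a b => by simp) (fun a b c => by simp [mul_add]) (fun c a b => by simp)
  have hTinj : Function.Injective T := by
    rw [← LinearMap.ker_eq_bot, LinearMap.ker_eq_bot']
    intro f hf
    apply Subtype.ext
    exact com_nondeg hΔ f.2 fun g hg => LinearMap.congr_fun hf (⟨g, hg⟩ : M)
  have hTsurj : Function.Surjective T :=
    (LinearMap.injective_iff_surjective_of_finrank_eq_finrank (Subspace.dual_finrank_eq (K := k) (V := M)).symm).1 hTinj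
  obtain ⟨P, hP⟩ := hTsurj
    { toFun := fun g : M => LinearMap.trace k V (π * g.1)
      map_add' := fun a b => by simp [mul_add]
      map_smul' := fun c a => by simp }
  have hPg : ∀ g, ComFor r Δ g → LinearMap.trace k V (P.1 * g) = LinearMap.trace k V (π * g) := fun g hg =>
    LinearMap.congr_fun hP (⟨g, hg⟩ : M)
  have hmul : ∀ f g, ComFor r Δ f → ComFor r Δ g → ComFor r Δ (f * g) := by
    intro f g hf hg γ hγ
    rw [mul_assoc, hg γ hγ, ← mul_assoc, hf γ hγ, mul_assoc]
  have hcj : ∀ d f, ComFor r Δ f → ComFor r Δ (r d * f * r d⁻¹) := by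
    intro d f hf γ hγ
    have h1 := hf (d⁻¹ * γ * d) (by
      have := hn.conj_mem γ hγ d⁻¹
      rwa [inv_inv] at this)
    have e1 : r γ = r d * r (d⁻¹ * γ * d) * r d⁻¹ := by
      rw [← map_mul, ← map_mul]
      congr 1
      group
    rw [e1]
    calc r d * f * r d⁻¹ * (r d * r (d⁻¹ * γ * d) * r d⁻¹) = r d * f * (r d⁻¹ * r d) * r (d⁻¹ * γ * d) * r d⁻¹ := by
          simp only [mul_assoc]
      _ = r d * (f * r (d⁻¹ * γ * d)) * r d⁻¹ := by rw [r_inv_mul, mul_one]; simp only [mul_assoc]
      _ = r d * (r (d⁻¹ * γ * d) * f) * r d⁻¹ := by rw [h1]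
      _ = r d * r (d⁻¹ * γ * d) * (r d⁻¹ * r d) * f * r d⁻¹ := by rw [r_inv_mul, mul_one]; simp only [mul_assoc]
      _ = _ := by simp only [mul_assoc]
  -- the image
  have himg : (1 - e) * P.1 = 0 := by
    have hc1 : ComFor r Δ (1 - e) := fun γ hγ => by rw [sub_mul, mul_sub, one_mul, mul_one, he γ hγ]
    refine com_nondeg hΔ (hmul _ _ hc1 P.2) fun g hg => ?_
    have h1 : (1 - e) * π = 0 := by
      ext x
      show π x - e (π x) = 0
      rw [he2 _ (hπ1 x), sub_self]
    calc LinearMap.trace k V ((1 - e) * P.1 * g) = LinearMap.trace k V (P.1 * (g * (1 - e))) := by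
          rw [mul_assoc, LinearMap.trace_mul_comm, mul_assoc]
      _ = LinearMap.trace k V (π * (g * (1 - e))) := hPg _ (hmul _ _ hg hc1)
      _ = LinearMap.trace k V ((1 - e) * π * g) := by
          rw [mul_assoc (1 - e), LinearMap.trace_mul_comm k (1 - e), mul_assoc]
      _ = 0 := by rw [h1, zero_mul, map_zero]
  have hid : P.1 * e = e := by
    have h0 : P.1 * e - e = 0 := by
      refine com_nondeg hΔ (fun γ hγ => ?_) fun g hg => ?_
      · rw [sub_mul, mul_sub, hmul _ _ P.2 he γ hγ, he γ hγ]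
      · have h1 : π * e = e := by
          ext x
          exact hπ2 _ (he1 x)
        rw [sub_mul, map_sub, mul_assoc, hPg _ (hmul _ _ he hg), ← mul_assoc, h1, sub_self]
    exact sub_eq_zero.1 h0
  have hinv : ∀ d ∈ D, r d * P.1 * r d⁻¹ = P.1 := by
    intro d hd
    have h0 : r d * P.1 * r d⁻¹ - P.1 = 0 := by
      refine com_nondeg hΔ (fun γ hγ => ?_) fun g hg => ?_
      · rw [sub_mul, mul_sub, hcj d _ P.2 γ hγ, P.2 γ hγ]
      · have h1 : LinearMap.trace k V (r d * P.1 * r d⁻¹ * g) = LinearMap.trace k V (P.1 * (r d⁻¹ * g * r d)) := by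
          rw [mul_assoc, mul_assoc, LinearMap.trace_mul_comm]
          simp only [mul_assoc]
        have h2 : ComFor r Δ (r d⁻¹ * g * r d) := by
          have := hcj d⁻¹ g hg
          rwa [inv_inv] at this
        have h3 : LinearMap.trace k V (π * (r d⁻¹ * g * r d)) = LinearMap.trace k V (π * g) := by
          have h4 : π * (r d⁻¹ * g * r d) = r d⁻¹ * (π * g) * r d := by
            have := hπ d⁻¹ (D.inv_mem hd)
            rw [mul_assoc, ← mul_assoc, this]
            simp only [mul_assoc]
          rw [h4, LinearMap.trace_mul_comm, ← mul_assoc, ← mul_assoc, r_mul_inv, one_mul]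
        rw [sub_mul, map_sub, h1, hPg _ h2, h3, hPg _ hg, sub_self]
    exact sub_eq_zero.1 h0
  refine ⟨P.1, ?_, fun x => ?_, fun x hx => ?_⟩
  · let Z : Subgroup Γ :=
      { carrier := {γ | P.1 * r γ = r γ * P.1}
        mul_mem' := fun {a b} ha hb => by
          show P.1 * r (a * b) = r (a * b) * P.1
          rw [map_mul, ← mul_assoc, show P.1 * r a = r a * P.1 from ha, mul_assoc,
            show P.1 * r b = r b * P.1 from hb, mul_assoc]
        one_mem' := by
          show P.1 * r 1 = r 1 * P.1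
          rw [map_one, mul_one, one_mul]
        inv_mem' := fun {a} ha => by
          show P.1 * r a⁻¹ = r a⁻¹ * P.1
          have h1 : P.1 * r a = r a * P.1 := ha
          calc P.1 * r a⁻¹ = r a⁻¹ * r a * P.1 * r a⁻¹ := by rw [r_inv_mul, one_mul]
            _ = r a⁻¹ * (r a * P.1) * r a⁻¹ := by simp only [mul_assoc]
            _ = r a⁻¹ * (P.1 * r a) * r a⁻¹ := by rw [h1]
            _ = r a⁻¹ * P.1 * (r a * r a⁻¹) := by simp only [mul_assoc]
            _ = _ := by rw [r_mul_inv, mul_one] }
    have hle : Δ ⊔ D ≤ Z := by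
      refine sup_le (fun γ hγ => P.2 γ hγ) fun d hd => ?_
      show P.1 * r d = r d * P.1
      have h1 := hinv d hd
      calc P.1 * r d = r d * P.1 * r d⁻¹ * r d := by rw [h1]
        _ = r d * P.1 * (r d⁻¹ * r d) := by simp only [mul_assoc]
        _ = _ := by rw [r_inv_mul, mul_one]
    exact fun γ hγ => hle hγ
  · have h1 := LinearMap.congr_fun himg x
    have h2 : P.1 x - e (P.1 x) = 0 := h1
    rw [sub_eq_zero.1 h2]
    exact he1 _
  · have h1 := LinearMap.congr_fun hid x
    rw [Module.End.mul_apply, he2 x hx] at h1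
    exact h1

end

end Pool.Agent.X320.FS
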