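import Pool.Agent.X320.FS.Null

/-! A semisimple representation of a compact group: almost all elements are semisimple. -/

set_option autoImplicit false
set_option linter.all false

namespace Pool.Agent.X320.FS

open Module Polynomial Filter Topology MeasureTheory Pool.Agent.X320.KR Pool.Agent.X320.DS Pool.Agent.X320.RU

section bound

variable {K V : Type*} [Field K] [CharZero K] [AddCommGroup V] [Module K V] [FiniteDimensional K V]

theorem ndeg_le (f : End K V) : ndeg f ≤ finrank K V := by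
  have h1 : (exists_rad f).choose ∣ f.charpoly := (exists_rad f).choose_spec.dvd _ (by
    rw [LinearMap.aeval_self_charpoly]
    exact IsNilpotent.zero)
  have h2 := Polynomial.natDegree_le_of_dvd h1 (LinearMap.charpoly_monic f).ne_zero
  rwa [LinearMap.charpoly_natDegree] at h2

end bound

section phi

variable {Γ : Type*} [Group Γ] {k : Type*} [Field k] {n : ℕ}

/-- the determinant of the traces of powers of a matrix -/
noncomputable def phi (r : ℕ) (M : Matrix (Fin n) (Fin n) k) : k :=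
  (Matrix.of fun i j : Fin r => (M ^ (i.1 + j.1)).trace).det

theorem phi_eq (r : ℕ) (M : Matrix (Fin n) (Fin n) k) : (hank r (Matrix.toLin' M)).det = phi r M := by
  unfold hank phi
  congr 1
  ext i j
  show LinearMap.trace k _ (Matrix.toLin' M ^ (i.1 + j.1)) = (M ^ (i.1 + j.1)).trace
  rw [← Matrix.toLin'_pow]
  exact Matrix.trace_toLin'_eq _

theorem phi_mem [TopologicalSpace Γ] (ρ : Γ →* GL (Fin n) k) (W : Subgroup Γ) (r : ℕ) :
    (fun x : Γ => phi r (ρ x : Matrix (Fin n) (Fin n) k)) ∈ fn ρ W := by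
  have e : (fun x : Γ => phi r (ρ x : Matrix (Fin n) (Fin n) k)) =
      ∑ σ : Equiv.Perm (Fin r), algebraMap k (Γ → k) ((Equiv.Perm.sign σ : ℤ) : k) *
        ∏ i, ∑ a : Fin n, (fun x => ((ρ x : Matrix (Fin n) (Fin n) k) ^ ((σ i).1 + i.1)) a a) := by
    funext x
    unfold phi
    rw [Matrix.det_apply', Finset.sum_apply]
    refine Finset.sum_congr rfl fun σ _ => ?_
    rw [Pi.mul_apply, Finset.prod_apply]
    congr 1
    refine Finset.prod_congr rfl fun i _ => ?_
    rw [Finset.sum_apply]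
    rfl
  rw [e]
  exact Subalgebra.sum_mem _ fun σ _ => (fn ρ W).mul_mem ((fn ρ W).algebraMap_mem _)
    (Subalgebra.prod_mem _ fun i _ => Subalgebra.sum_mem _ fun a _ => KR.pow_mem ρ W _ a a)

theorem phi_cont [TopologicalSpace k] [IsTopologicalRing k] (r : ℕ) :
    Continuous (phi r : Matrix (Fin n) (Fin n) k → k) := by
  unfold phi
  refine Continuous.matrix_det ?_
  refine continuous_matrix fun i j => ?_
  exact (continuous_id.pow _).matrix_trace

end phi

section main

variable {Γ : Type*} [Group Γ] [TopologicalSpace Γ] [IsTopologicalGroup Γ] [CompactSpace Γ] [T2Space Γ]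
  [TotallyDisconnectedSpace Γ] {p : ℕ} [hp : Fact p.Prime] {E : Type*} [NontriviallyNormedField E] [CompleteSpace E]
  [IsUltrametricDist E] [NormedAlgebra ℚ_[p] E] [CharZero E] {n : ℕ} (ρ : Γ →* GL (Fin n) E)
  [MeasurableSpace Γ] [BorelSpace Γ]

include hp in
/-- **The group theorem.** -/
theorem group_ss (μ : Measure Γ) [IsProbabilityMeasure μ] [μ.IsMulLeftInvariant] (hρ : Continuous ρ)
    (hss : Semisimple ρ) : ∃ B : Set Γ, IsClosed B ∧ μ B = 0 ∧ ∀ x ∉ B,
      Module.End.IsSemisimple (Matrix.toLin' (ρ x : Matrix (Fin n) (Fin n) E)) := by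
  classical
  obtain ⟨W, hWn, hWo, hW⟩ := exists_close (p := p) ρ hρ
  obtain ⟨V, hVn, hVo, hVW, hirr⟩ := exists_irred ρ hρ W hWo
  haveI := hVn
  haveI : Finite (Γ ⧸ V) := Subgroup.quotient_finite_of_isOpen _ hVo
  have hN : 0 < V.index := Nat.pos_of_ne_zero Subgroup.index_ne_zero_of_finite
  have hVc : IsClosed (V : Set Γ) := Subgroup.isClosed_of_isOpen V hVo
  let P : Γ → ℕ → Prop := fun g r => ∃ y, g⁻¹ * y ∈ V ∧ phi r (ρ y : Matrix (Fin n) (Fin n) E) ≠ 0
  let R : Γ → ℕ := fun g => Nat.findGreatest (P g) n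
  have hP0 : ∀ g, P g 0 := by
    intro g
    refine ⟨g, by rw [inv_mul_cancel]; exact V.one_mem, ?_⟩
    show (Matrix.of fun i j : Fin 0 => _).det ≠ 0
    rw [Matrix.det_isEmpty]
    exact one_ne_zero
  have hPR : ∀ g, P g (R g) := fun g => Nat.findGreatest_spec (Nat.zero_le n) (hP0 g)
  have hfn : ∀ r, (fun x : Γ => phi r (ρ x : Matrix (Fin n) (Fin n) E)) ∈ fn ρ (⊤ : Subgroup Γ) := fun r => phi_mem ρ _ r
  refine ⟨⋃ q : Γ ⧸ V, {x | q.out⁻¹ * x ∈ V ∧ phi (R q.out) (ρ x : Matrix (Fin n) (Fin n) E) = 0}, ?_, ?_, ?_⟩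
  · refine isClosed_iUnion_of_finite fun q => ?_
    refine (hVc.preimage (continuous_const_mul q.out⁻¹)).inter ?_
    exact isClosed_singleton.preimage ((phi_cont (R q.out)).comp (Units.continuous_val.comp hρ))
  · rw [measure_iUnion_null_iff]
    intro q
    exact null_or ρ μ hρ hVo hirr _ (hfn (R q.out)) q.out (hPR q.out)
  · intro x hx
    set q : Γ ⧸ V := QuotientGroup.mk x with hq
    have hqx : q.out⁻¹ * x ∈ V := by
      rw [← QuotientGroup.eq, QuotientGroup.out_eq']
    have hup : ∀ y, q.out⁻¹ * y ∈ V → ndeg (Matrix.toLin' (ρ y : Matrix (Fin n) (Fin n) E)) ≤ R q.out := by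
      intro y hy
      refine Nat.le_findGreatest ?_ ⟨y, hy, ?_⟩
      · have := ndeg_le (Matrix.toLin' (ρ y : Matrix (Fin n) (Fin n) E))
        rwa [finrank_fin_fun] at this
      · rw [← phi_eq]
        exact ndeg_det _
    have heq : ∀ y, q.out⁻¹ * y ∈ V → phi (R q.out) (ρ y : Matrix (Fin n) (Fin n) E) ≠ 0 →
        ndeg (Matrix.toLin' (ρ y : Matrix (Fin n) (Fin n) E)) = R q.out := by
      intro y hy hy'
      refine le_antisymm (hup y hy) (le_ndeg _ ?_)
      rw [phi_eq]
      exact hy'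
    have hx' : phi (R q.out) (ρ x : Matrix (Fin n) (Fin n) E) ≠ 0 := fun h0 =>
      hx (Set.mem_iUnion.2 ⟨q, hqx, h0⟩)
    refine local_ss (p := p) hss hVn (fun u hu => hW u (hVW hu)) x hN (Subgroup.pow_index_mem V x) ?_
    intro u hu
    obtain ⟨Y, hY⟩ := exists_log (hW u (hVW hu))
    have hlim : Tendsto (fun k : ℕ => (ρ (x * u ^ p ^ k) : Matrix (Fin n) (Fin n) E)) atTop
        (𝓝 (ρ x : Matrix (Fin n) (Fin n) E)) := by
      have h1 := (tendsto_const_nhds (x := (ρ x : Matrix (Fin n) (Fin n) E))).mul hY.pow_tendsto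
      rw [mul_one] at h1
      refine h1.congr fun k => ?_
      rw [map_mul, Units.val_mul, map_pow, Units.val_pow_eq_pow_val]
    have h2 : ∀ᶠ k : ℕ in atTop, phi (R q.out) (ρ (x * u ^ p ^ k) : Matrix (Fin n) (Fin n) E) ≠ 0 :=
      (((phi_cont (R q.out)).tendsto _).comp hlim).eventually_ne hx'
    refine h2.mono fun k hk => ?_
    rw [heq x hqx hx']
    refine heq _ ?_ hk
    rw [← mul_assoc]
    exact V.mul_mem hqx (V.pow_mem hu _)

end main

end Pool.Agent.X320.FS
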