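import Pool.Agent.X320.FS.Comm
import Pool.Agent.X320.FS.Group

/-! Finite index, closure, cyclic groups; the theorem on families. -/

set_option autoImplicit false
set_option linter.all false

namespace Pool.Agent.X320.FS

open Module Topology MeasureTheory Pool.Agent.X320.DS

section

variable {Γ : Type*} [Group Γ] {k : Type*} [Field k] {V : Type*} [AddCommGroup V] [Module k V]
  {r : Γ →* Module.End k V}

/-- **Maschke.** Semisimplicity over a subgroup of finite index implies semisimplicity. -/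
theorem ss_up [CharZero k] {H : Subgroup Γ} (hfi : H.FiniteIndex) (h : SSFor r H) : SSFor r ⊤ := by
  classical
  refine ss_of_proj fun U hU => ?_
  obtain ⟨e, he, he1, he2⟩ := exists_proj h (U := U) fun g _ => hU g (Subgroup.mem_top g)
  haveI : Finite (Γ ⧸ H) := Subgroup.finite_quotient_of_finiteIndex
  haveI := Fintype.ofFinite (Γ ⧸ H)
  let E : Γ → Module.End k V := fun g => r g * e * r g⁻¹
  have hE : ∀ g g', (QuotientGroup.mk g : Γ ⧸ H) = QuotientGroup.mk g' → E g = E g' := by
    intro g g' hgg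
    have h1 := QuotientGroup.eq.1 hgg
    obtain ⟨t, ht, rfl⟩ : ∃ t ∈ H, g * t = g' := ⟨g⁻¹ * g', h1, by group⟩
    have h2 := he t ht
    show r g * e * r g⁻¹ = r (g * t) * e * r (g * t)⁻¹
    rw [mul_inv_rev, map_mul, map_mul r t⁻¹ g⁻¹]
    calc r g * e * r g⁻¹ = r g * e * (r t * r t⁻¹) * r g⁻¹ := by rw [r_mul_inv, mul_one]
      _ = r g * (e * r t) * r t⁻¹ * r g⁻¹ := by simp only [mul_assoc]
      _ = r g * (r t * e) * r t⁻¹ * r g⁻¹ := by rw [h2]
      _ = _ := by simp only [mul_assoc]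
  have hc : ((Fintype.card (Γ ⧸ H) : ℕ) : k) ≠ 0 := by exact_mod_cast Fintype.card_ne_zero
  refine ⟨((Fintype.card (Γ ⧸ H) : ℕ) : k)⁻¹ • ∑ q : Γ ⧸ H, E q.out, ?_, ?_, ?_⟩
  · intro g _
    rw [smul_mul_assoc, mul_smul_comm, Finset.sum_mul, Finset.mul_sum]
    congr 1
    have h1 : ∀ q : Γ ⧸ H, r g * E q.out = E (g • q : Γ ⧸ H).out * r g := by
      intro q
      have h2 : E (g • q : Γ ⧸ H).out = E (g * q.out) := by
        apply hE
        rw [QuotientGroup.out_eq']
        conv_lhs => rw [← QuotientGroup.out_eq' q]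
        rfl
      rw [h2]
      show r g * (r q.out * e * r q.out⁻¹) = r (g * q.out) * e * r (g * q.out)⁻¹ * r g
      rw [mul_inv_rev, map_mul, map_mul r q.out⁻¹ g⁻¹]
      calc r g * (r q.out * e * r q.out⁻¹) = r g * r q.out * e * r q.out⁻¹ * (r g⁻¹ * r g) := by
            rw [r_inv_mul, mul_one]; simp only [mul_assoc]
        _ = _ := by simp only [mul_assoc]
    simp_rw [h1]
    exact (Fintype.sum_equiv (MulAction.toPerm g) (fun q : Γ ⧸ H => E (g • q : Γ ⧸ H).out * r g)
      (fun q => E q.out * r g) (fun q => rfl)).symm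
  · intro x
    rw [LinearMap.smul_apply, LinearMap.sum_apply]
    refine U.smul_mem _ (U.sum_mem fun q _ => ?_)
    exact hU _ (Subgroup.mem_top _) _ (he1 _)
  · intro x hx
    rw [LinearMap.smul_apply, LinearMap.sum_apply]
    have h1 : ∀ q : Γ ⧸ H, E q.out x = x := by
      intro q
      show r q.out (e (r q.out⁻¹ x)) = x
      rw [he2 _ (hU _ (Subgroup.mem_top _) _ hx)]
      exact LinearMap.congr_fun (r_mul_inv (r := r) q.out) x
    rw [Finset.sum_congr rfl fun q _ => h1 q, Finset.sum_const, Finset.card_univ, ← Nat.cast_smul_eq_nsmul k, smul_smul,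
      inv_mul_cancel₀ hc, one_smul]

/-- the group generated by an element which acts semisimply -/
theorem ss_zpowers [FiniteDimensional k V] {x : Γ} (h : (r x).IsSemisimple) : SSFor r (Subgroup.zpowers x) := by
  intro U hU
  obtain ⟨U', hU', hc⟩ := Module.End.isSemisimple_iff.1 h U fun y hy => hU x (Subgroup.mem_zpowers x) y hy
  have hinj : Function.Injective (r x) := by
    intro a b hab
    have h1 := congrArg (r x⁻¹) hab
    have e : ∀ c, r x⁻¹ (r x c) = c := fun c => LinearMap.congr_fun (r_inv_mul (r := r) x) c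
    rwa [e, e] at h1
  have hmap : U'.map (r x) = U' := by
    refine Submodule.eq_of_le_of_finrank_eq ?_ ?_
    · rintro _ ⟨y, hy, rfl⟩
      exact hU' hy
    · exact (Submodule.equivMapOfInjective (r x) hinj U').finrank_eq.symm
  have h1 : ∀ y ∈ U', r x y ∈ U' := fun y hy => hU' hy
  have h2 : ∀ y ∈ U', r x⁻¹ y ∈ U' := by
    intro y hy
    rw [← hmap] at hy
    obtain ⟨z, hz, rfl⟩ := hy
    have e : r x⁻¹ (r x z) = z := LinearMap.congr_fun (r_inv_mul (r := r) x) z
    rw [e]
    exact hz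
  let Z : Subgroup Γ :=
    { carrier := {g | (∀ y ∈ U', r g y ∈ U') ∧ ∀ y ∈ U', r g⁻¹ y ∈ U'}
      mul_mem' := fun {a b} ha hb => by
        refine ⟨fun y hy => ?_, fun y hy => ?_⟩
        · rw [map_mul]; exact ha.1 _ (hb.1 y hy)
        · rw [mul_inv_rev, map_mul]; exact hb.2 _ (ha.2 y hy)
      one_mem' := ⟨fun y hy => by rw [map_one]; exact hy, fun y hy => by rw [inv_one, map_one]; exact hy⟩
      inv_mem' := fun {a} ha => ⟨ha.2, by rw [inv_inv]; exact ha.1⟩ }
  have hle : Subgroup.zpowers x ≤ Z := by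
    rw [Subgroup.zpowers_le]
    exact ⟨h1, h2⟩
  exact ⟨U', fun g hg => (hle hg).1, hc⟩

end

section top

variable {Γ : Type*} [Group Γ] [TopologicalSpace Γ] [IsTopologicalGroup Γ] {k : Type*} [NontriviallyNormedField k]
  [CompleteSpace k] {n : ℕ} {ρ : Γ →* GL (Fin n) k}

theorem ss_closure (hρ : Continuous ρ) {H : Subgroup Γ} (h : SSFor (toEnd ρ) H) :
    SSFor (toEnd ρ) H.topologicalClosure := by
  have key : ∀ U : Submodule k (Fin n → k), StableFor (toEnd ρ) H U → StableFor (toEnd ρ) H.topologicalClosure U := by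
    intro U hU g hg x hx
    have hcl : IsClosed {g : Γ | (ρ g : Matrix (Fin n) (Fin n) k).mulVec x ∈ U} := by
      have h1 : Continuous fun g : Γ => (ρ g : Matrix (Fin n) (Fin n) k).mulVec x :=
        (Units.continuous_val.comp hρ).matrix_mulVec continuous_const
      exact (Submodule.closed_of_finiteDimensional U).preimage h1
    have h2 : (H : Set Γ) ⊆ {g : Γ | (ρ g : Matrix (Fin n) (Fin n) k).mulVec x ∈ U} := fun g hg => hU g hg x hx
    exact closure_minimal h2 hcl hg
  intro U hU
  obtain ⟨U', hU', hc⟩ := h U fun g hg => hU g (H.le_topologicalClosure hg)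
  exact ⟨U', key U' hU', hc⟩

theorem semisimple_of_top (h : SSFor (toEnd ρ) ⊤) : Semisimple ρ := by
  intro U hU
  obtain ⟨U', hU', hc⟩ := h U fun g _ x hx => hU g x hx
  exact ⟨U', fun g x hx => hU' g (Subgroup.mem_top g) x hx, hc⟩

/-- **Semisimplicity in families.** -/
theorem family_ss [CharZero k] (hρ : Continuous ρ) {Δ D : Subgroup Γ} (hn : Δ.Normal) (hΔ : SSFor (toEnd ρ) Δ)
    (hD : SSFor (toEnd ρ) D) (hfi : (Δ ⊔ D).topologicalClosure.FiniteIndex) : Semisimple ρ :=
  semisimple_of_top (ss_up hfi (ss_closure hρ (ss_join hn hΔ hD)))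

end top

end Pool.Agent.X320.FS
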