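import Pool.Agent.X320.FS.Comm2

/-! Clifford's theorem and subgroups with open image. -/

set_option autoImplicit false
set_option linter.all false

namespace Pool.Agent.X320.FS

open Module

variable {Γ : Type*} [Group Γ] {k : Type*} [Field k] {V : Type*} [AddCommGroup V] [Module k V]
  {r : Γ →* Module.End k V}

/-- a minimal nonzero stable subspace -/
def MinSt (r : Γ →* Module.End k V) (N : Subgroup Γ) (S : Submodule k V) : Prop :=
  StableFor r N S ∧ S ≠ ⊥ ∧ ∀ T, StableFor r N T → T ≤ S → T = ⊥ ∨ T = S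

theorem map_st {N : Subgroup Γ} (hn : N.Normal) (g : Γ) {S : Submodule k V} (hS : StableFor r N S) :
    StableFor r N (S.map (r g)) := by
  rintro m hm _ ⟨x, hx, rfl⟩
  refine ⟨r (g⁻¹ * m * g) x, hS _ (by
    have := hn.conj_mem m hm g⁻¹
    rwa [inv_inv] at this) x hx, ?_⟩
  have e : g * (g⁻¹ * m * g) = m * g := by group
  rw [← Module.End.mul_apply, ← Module.End.mul_apply, ← map_mul, ← map_mul, e]

theorem map_map_inv (g : Γ) (S : Submodule k V) : (S.map (r g)).map (r g⁻¹) = S := by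
  ext x
  constructor
  · rintro ⟨_, ⟨y, hy, rfl⟩, rfl⟩
    have e : r g⁻¹ (r g y) = y := LinearMap.congr_fun (r_inv_mul (r := r) g) y
    rw [e]
    exact hy
  · intro hx
    exact ⟨r g x, ⟨x, hx, rfl⟩, LinearMap.congr_fun (r_inv_mul (r := r) g) x⟩

theorem map_inv_map (g : Γ) (S : Submodule k V) : (S.map (r g⁻¹)).map (r g) = S := by
  have := map_map_inv (r := r) g⁻¹ S
  rwa [inv_inv] at this

theorem map_min {N : Subgroup Γ} (hn : N.Normal) (g : Γ) {S : Submodule k V} (hS : MinSt r N S) :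
    MinSt r N (S.map (r g)) := by
  refine ⟨map_st hn g hS.1, fun h => hS.2.1 ?_, fun T hT hTS => ?_⟩
  · rw [← map_map_inv (r := r) g S, h, Submodule.map_bot]
  · have h1 := hS.2.2 (T.map (r g⁻¹)) (map_st hn g⁻¹ hT) (by
      rw [← map_map_inv (r := r) g S]
      exact Submodule.map_mono hTS)
    rcases h1 with h1 | h1
    · left
      rw [← map_inv_map (r := r) g T, h1, Submodule.map_bot]
    · right
      rw [← map_inv_map (r := r) g T, h1]

variable [FiniteDimensional k V]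

theorem exists_min {N : Subgroup Γ} {W : Submodule k V} (hW : StableFor r N W) (h0 : W ≠ ⊥) :
    ∃ S ≤ W, MinSt r N S := by
  have hwf : WellFounded ((· < ·) : Submodule k V → Submodule k V → Prop) := wellFounded_lt
  obtain ⟨S, ⟨hS1, hS2, hS3⟩, hmin⟩ := hwf.has_min {S | StableFor r N S ∧ S ≠ ⊥ ∧ S ≤ W} ⟨W, hW, h0, le_rfl⟩
  refine ⟨S, hS3, hS1, hS2, fun T hT hTS => ?_⟩
  by_contra hcon
  push Not at hcon
  exact hmin T ⟨hT, hcon.1, hTS.trans hS3⟩ (lt_of_le_of_ne hTS hcon.2)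

theorem inf_st {N : Subgroup Γ} {S T : Submodule k V} (hS : StableFor r N S) (hT : StableFor r N T) :
    StableFor r N (S ⊓ T) := fun g hg x hx => ⟨hS g hg x hx.1, hT g hg x hx.2⟩

theorem sup_st {N : Subgroup Γ} {S T : Submodule k V} (hS : StableFor r N S) (hT : StableFor r N T) :
    StableFor r N (S ⊔ T) := by
  intro g hg x hx
  obtain ⟨a, ha, b, hb, rfl⟩ := Submodule.mem_sup.1 hx
  rw [map_add]
  exact Submodule.add_mem_sup (hS g hg a ha) (hT g hg b hb)

/-- **Clifford.** -/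
theorem ss_normal {N : Subgroup Γ} (hn : N.Normal) (h : SSFor r ⊤) : SSFor r N := by
  let Soc : Submodule k V := sSup {S | MinSt r N S}
  have hmem : ∀ S, MinSt r N S → S ≤ Soc := fun S hS => le_sSup hS
  have hstab : ∀ g : Γ, Soc ≤ Soc.comap (r g) := by
    intro g
    refine sSup_le fun S hS x hx => ?_
    exact hmem _ (map_min hn g hS) ⟨x, hx, rfl⟩
  obtain ⟨W', hW', hc⟩ := h Soc fun g _ x hx => hstab g hx
  have hbot : W' = ⊥ := by
    by_contra hne
    obtain ⟨S, hSW, hS⟩ := exists_min (r := r) (N := N) (fun g _ => hW' g (Subgroup.mem_top g)) hne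
    apply hS.2.1
    rw [eq_bot_iff, ← hc.inf_eq_bot]
    exact le_inf (hmem S hS) hSW
  have htop : Soc = ⊤ := by
    have := hc.sup_eq_top
    rwa [hbot, sup_bot_eq] at this
  intro U hU
  have hwf : WellFounded ((· > ·) : Submodule k V → Submodule k V → Prop) := wellFounded_gt
  obtain ⟨T, ⟨hT1, hT2⟩, hmax⟩ := hwf.has_min {T | StableFor r N T ∧ Disjoint U T}
    ⟨⊥, fun g _ x hx => by
      rw [Submodule.mem_bot] at hx ⊢
      rw [hx, map_zero], disjoint_bot_right⟩
  refine ⟨T, hT1, hT2, ?_⟩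
  rw [codisjoint_iff, eq_top_iff, ← htop]
  refine sSup_le fun S hS => ?_
  by_contra hnot
  have hst := sup_st hU hT1
  have h1 : S ⊓ (U ⊔ T) = ⊥ := by
    rcases hS.2.2 (S ⊓ (U ⊔ T)) (inf_st hS.1 hst) inf_le_left with h1 | h1
    · exact h1
    · exact absurd (inf_eq_left.1 h1) hnot
  have h2 : Disjoint U (T ⊔ S) := by
    rw [Submodule.disjoint_def]
    intro x hxU hx
    obtain ⟨t, ht, s, hs, rfl⟩ := Submodule.mem_sup.1 hx
    have h3 : s ∈ U ⊔ T := by
      have e : s = (t + s) + (-t) := by abel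
      rw [e]
      exact Submodule.add_mem_sup hxU (T.neg_mem ht)
    have h4 : s = 0 := by
      have : s ∈ S ⊓ (U ⊔ T) := ⟨hs, h3⟩
      rw [h1] at this
      exact this
    subst h4
    rw [add_zero] at hxU ⊢
    exact (Submodule.disjoint_def.1 hT2) t hxU ht
  refine hmax (T ⊔ S) ⟨sup_st hT1 hS.1, h2⟩ (lt_of_le_of_ne le_sup_left fun h3 => hnot ?_)
  calc S ≤ T ⊔ S := le_sup_right
    _ = T := h3.symm
    _ ≤ U ⊔ T := le_sup_right

theorem ss_finite [CharZero k] {H : Subgroup Γ} (hfi : H.FiniteIndex) (h : SSFor r ⊤) : SSFor r H := by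
  haveI := hfi
  have hN : SSFor r H.normalCore := ss_normal H.normalCore_normal h
  let r' : H →* Module.End k V := r.comp H.subtype
  have h1 : SSFor r' (H.normalCore.subgroupOf H) := by
    intro U hU
    obtain ⟨U', hU', hc⟩ := hN U fun g hg x hx => hU ⟨g, H.normalCore_le hg⟩ hg x hx
    exact ⟨U', fun g hg x hx => hU' g hg x hx, hc⟩
  have hfi' : (H.normalCore.subgroupOf H).FiniteIndex := by
    haveI : H.normalCore.FiniteIndex := inferInstance
    infer_instance
  have h2 := ss_up hfi' h1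
  intro U hU
  obtain ⟨U', hU', hc⟩ := h2 U fun g _ x hx => hU g.1 g.2 x hx
  exact ⟨U', fun g hg x hx => hU' ⟨g, hg⟩ (Subgroup.mem_top _) x hx, hc⟩

/-- subgroups with the image of a subgroup of finite index -/
theorem ss_image [CharZero k] {H : Subgroup Γ} (hfi : (H ⊔ r.ker).FiniteIndex) (h : SSFor r ⊤) : SSFor r H := by
  have h1 := ss_finite hfi h
  intro U hU
  let Z : Subgroup Γ :=
    { carrier := {g | (∀ y ∈ U, r g y ∈ U) ∧ ∀ y ∈ U, r g⁻¹ y ∈ U}
      mul_mem' := fun {a b} ha hb => by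
        refine ⟨fun y hy => ?_, fun y hy => ?_⟩
        · rw [map_mul]; exact ha.1 _ (hb.1 y hy)
        · rw [mul_inv_rev, map_mul]; exact hb.2 _ (ha.2 y hy)
      one_mem' := ⟨fun y hy => by rw [map_one]; exact hy, fun y hy => by rw [inv_one, map_one]; exact hy⟩
      inv_mem' := fun {a} ha => ⟨ha.2, by rw [inv_inv]; exact ha.1⟩ }
  have hle : H ⊔ r.ker ≤ Z := by
    refine sup_le (fun g hg => ⟨hU g hg, hU _ (H.inv_mem hg)⟩) fun g hg => ⟨fun y hy => ?_, fun y hy => ?_⟩
    · rw [show r g = 1 from hg]; exact hy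
    · rw [show r g⁻¹ = 1 from r.ker.inv_mem hg]; exact hy
  obtain ⟨U', hU', hc⟩ := h1 U fun g hg => (hle hg).1
  exact ⟨U', fun g hg => hU' g (Subgroup.mem_sup_left hg), hc⟩

end Pool.Agent.X320.FS
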