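import Pool.Agent.X320.FS.Base

/-! Representations over the algebraic closure of `ℚ_ℓ` with Frobenius polynomials over a field of characteristic
zero. -/

set_option autoImplicit false
set_option linter.all false

namespace Pool.Agent.X320.FS

open Module Polynomial Filter Topology MeasureTheory NumberField IsDedekindDomain
open Pool.Agent.W401.Cheb Pool.Agent.X320.KR Pool.Agent.X320.DS Pool.Agent.X320.RU
open Pool.Agent.W528.Ord (dens_mono dens_nonneg dens_or)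

section main

variable {K : Type} [Field K] [NumberField K] {n : ℕ}

/-- the representation corresponds to the polynomials `Q v` at the places outside `S` -/
def Corr {k : Type*} [Field k] (ρ : GK K →* GL (Fin n) k) (S : Set (HeightOneSpectrum (𝓞 K)))
    (Q : HeightOneSpectrum (𝓞 K) → k[X]) : Prop :=
  ∀ v, v ∉ S → (∀ τ, IsInert v τ → ρ τ = 1) ∧
    ∀ σ, IsFrob v σ → (ρ σ⁻¹ : Matrix (Fin n) (Fin n) k).charpoly = Q v

theorem compat_alg {E : Type*} [Field E] {S : Set (HeightOneSpectrum (𝓞 K))} (hS : S.Finite)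
    (P : HeightOneSpectrum (𝓞 K) → E[X]) :
    Tendsto (dens fun v => v ∉ S ∧ ∀ (ℓ : ℕ) [Fact ℓ.Prime], (ℓ : 𝓞 K) ∉ v.asIdeal →
      ∀ (ι : E →+* PadicAlgCl ℓ) (r : GK K →* GL (Fin n) (PadicAlgCl ℓ)), Continuous r → Semisimple r →
        Corr r (S ∪ {u | (ℓ : 𝓞 K) ∈ u.asIdeal}) (fun u => (P u).map ι) →
          ∀ σ, IsFrob v σ → Module.End.IsSemisimple (Matrix.toLin' (r σ : Matrix (Fin n) (Fin n) (PadicAlgCl ℓ))))
      atTop (𝓝 1) := by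
  classical
  by_cases hex : ∃ (ℓ : ℕ) (hℓ : Fact ℓ.Prime) (ι : E →+* PadicAlgCl ℓ) (r : GK K →* GL (Fin n) (PadicAlgCl ℓ)),
      Continuous r ∧ Corr r (S ∪ {u | (ℓ : 𝓞 K) ∈ u.asIdeal}) (fun u => (P u).map ι)
  swap
  · refine dens_one_remove S hS (P := fun _ => True) (fun v _ hv => ⟨hv, ?_⟩) dens_all
    intro ℓ hℓ _ ι r hr _ hc
    exact absurd ⟨ℓ, hℓ, ι, r, hr, hc⟩ hex
  obtain ⟨q, hq, ι₀, r₀, hr₀, hc₀⟩ := hex
  letI : MeasurableSpace (GK K) := borel _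
  haveI : BorelSpace (GK K) := ⟨rfl⟩
  set μ : Measure (GK K) := Measure.haarMeasure (⊤ : TopologicalSpace.PositiveCompacts (GK K)) with hμ
  haveI : IsProbabilityMeasure μ := ⟨by
    have := Measure.haarMeasure_self (K₀ := (⊤ : TopologicalSpace.PositiveCompacts (GK K)))
    rw [hμ]
    rwa [TopologicalSpace.PositiveCompacts.coe_top] at this⟩
  obtain ⟨V, R, B, hVn, hVo, hBc, hB0, hRV, hup, hout⟩ := exists_rank r₀ μ hr₀
  have hqfin : {v : HeightOneSpectrum (𝓞 K) | ((q : ℕ) : 𝓞 K) ∈ v.asIdeal}.Finite := finite_above hq.out.ne_zero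
  refine dens_one_remove (S ∪ {v : HeightOneSpectrum (𝓞 K) | ((q : ℕ) : 𝓞 K) ∈ v.asIdeal}) (hS.union hqfin) ?_
    (dens_good μ hBc hB0)
  rintro v ⟨σ₀, hσ₀, hσB⟩ hvT
  have hvS : v ∉ S := fun h => hvT (Or.inl h)
  refine ⟨hvS, fun ℓ hℓ hvℓ ι r hr hss hc σ hσ => ?_⟩
  have hnd₀ : ∀ w ∉ S ∪ {v : HeightOneSpectrum (𝓞 K) | ((q : ℕ) : 𝓞 K) ∈ v.asIdeal}, ∀ τ, IsFrob w τ →
      ndeg (Matrix.toLin' (r₀ τ⁻¹ : Matrix (Fin n) (Fin n) (PadicAlgCl q))) =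
      ((P w).map (algebraMap E (AlgebraicClosure E))).roots.toFinset.card := fun w hw τ hτ =>
    ndeg_num _ _ ι₀ ((hc₀ w hw).2 τ hτ)
  -- the representation over the complete field
  set f : PadicAlgCl ℓ →+* ℂ_[ℓ] := algebraMap (PadicAlgCl ℓ) ℂ_[ℓ] with hf
  set r' : GK K →* GL (Fin n) ℂ_[ℓ] := (Matrix.GeneralLinearGroup.map f).comp r with hr'
  have hval : ∀ x, (r' x : Matrix (Fin n) (Fin n) ℂ_[ℓ]) = (r x : Matrix (Fin n) (Fin n) (PadicAlgCl ℓ)).map f :=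
    fun x => rfl
  have hfc : Continuous f := UniformSpace.Completion.continuous_coe _
  have hr'c : Continuous r' := by
    have h1 : Continuous (Units.map (f.mapMatrix (m := Fin n)).toMonoidHom :
        GL (Fin n) (PadicAlgCl ℓ) → GL (Fin n) ℂ_[ℓ]) := by
      refine Continuous.units_map _ ?_
      show Continuous fun M : Matrix (Fin n) (Fin n) (PadicAlgCl ℓ) => M.map f
      exact continuous_id.matrix_map hfc
    exact h1.comp hr
  have hnd : ∀ w ∉ S ∪ {v : HeightOneSpectrum (𝓞 K) | ((ℓ : ℕ) : 𝓞 K) ∈ v.asIdeal}, ∀ τ, IsFrob w τ →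
      ndeg (Matrix.toLin' (r' τ⁻¹ : Matrix (Fin n) (Fin n) ℂ_[ℓ])) =
      ((P w).map (algebraMap E (AlgebraicClosure E))).roots.toFinset.card := fun w hw τ hτ => by
    refine ndeg_num _ _ (f.comp ι) ?_
    rw [hval, Matrix.charpoly_map, (hc w hw).2 τ hτ, Polynomial.map_map]
  have hvq' : v ∉ S ∪ {v : HeightOneSpectrum (𝓞 K) | ((q : ℕ) : 𝓞 K) ∈ v.asIdeal} := hvT
  have hvℓ' : v ∉ S ∪ {v : HeightOneSpectrum (𝓞 K) | ((ℓ : ℕ) : 𝓞 K) ∈ v.asIdeal} := by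
    rintro (h | h)
    · exact hvS h
    · exact hvℓ h
  -- the element is semisimple
  have hs0 : Module.End.IsSemisimple (Matrix.toLin' (r' σ₀⁻¹ : Matrix (Fin n) (Fin n) ℂ_[ℓ])) := by
    refine ss_of_max_of (p := ℓ) r' hr'c (nondeg_of_rigid ((rigid_of_ss hss).map f)) hVn hVo σ₀⁻¹ fun y hy => ?_
    rw [hnd v hvℓ' σ₀ hσ₀, ← hnd₀ v hvq' σ₀ hσ₀, hout _ hσB, hRV _ _ hy]
    by_contra hcon
    push Not at hcon
    set t := ndeg (Matrix.toLin' (r' y : Matrix (Fin n) (Fin n) ℂ_[ℓ])) with ht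
    have hO : IsOpen ((fun z => y * z) ⁻¹' {x : GK K | phi t (r' x : Matrix (Fin n) (Fin n) ℂ_[ℓ]) ≠ 0}) :=
      (open_ndeg r' hr'c t).preimage (continuous_const_mul y)
    obtain ⟨U, hU⟩ := ProfiniteGrp.exist_openNormalSubgroup_sub_open_nhds_of_one (hO.inter hVo) ⟨by
      show phi t (r' (y * 1) : Matrix (Fin n) (Fin n) ℂ_[ℓ]) ≠ 0
      rw [mul_one, ht, ← phi_eq]
      exact ndeg_det _, V.one_mem⟩
    haveI : U.toSubgroup.Normal := U.isNormal'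
    obtain ⟨v', hv', σ', hσ', hmk⟩ := exists_frob_coset U.toSubgroup U.isOpen' y
      (S ∪ {v : HeightOneSpectrum (𝓞 K) | ((q : ℕ) : 𝓞 K) ∈ v.asIdeal} ∪
        {v : HeightOneSpectrum (𝓞 K) | ((ℓ : ℕ) : 𝓞 K) ∈ v.asIdeal})
      ((hS.union hqfin).union (finite_above hℓ.out.ne_zero))
    have hv'q : v' ∉ S ∪ {v : HeightOneSpectrum (𝓞 K) | ((q : ℕ) : 𝓞 K) ∈ v.asIdeal} := fun h => hv' (Or.inl h)
    have hv'ℓ : v' ∉ S ∪ {v : HeightOneSpectrum (𝓞 K) | ((ℓ : ℕ) : 𝓞 K) ∈ v.asIdeal} := by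
      rintro (h | h)
      · exact hv' (Or.inl (Or.inl h))
      · exact hv' (Or.inr h)
    have hmem : y⁻¹ * σ'⁻¹ ∈ U.toSubgroup := QuotientGroup.eq.1 hmk.symm
    obtain ⟨h1, h2⟩ := hU hmem
    have h3 : phi t (r' σ'⁻¹ : Matrix (Fin n) (Fin n) ℂ_[ℓ]) ≠ 0 := by
      have h4 : phi t (r' (y * (y⁻¹ * σ'⁻¹)) : Matrix (Fin n) (Fin n) ℂ_[ℓ]) ≠ 0 := h1
      rwa [mul_inv_cancel_left] at h4
    have h4 : t ≤ ndeg (Matrix.toLin' (r' σ'⁻¹ : Matrix (Fin n) (Fin n) ℂ_[ℓ])) := by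
      refine le_ndeg _ ?_
      rw [phi_eq]
      exact h3
    rw [hnd v' hv'ℓ σ' hσ', ← hnd₀ v' hv'q σ' hσ'] at h4
    have h5 := hup σ'⁻¹
    rw [← hRV y σ'⁻¹ h2] at h5
    omega
  have hs1 : Module.End.IsSemisimple (Matrix.toLin' (r σ₀⁻¹ : Matrix (Fin n) (Fin n) (PadicAlgCl ℓ))) := by
    refine ss_descend f ?_
    rw [← hval]
    exact hs0
  -- all Frobenius elements are conjugate
  obtain ⟨τ, ι', hι', rfl⟩ := Pool.Agent.W401.Frob.conj_frob v σ₀ σ hσ₀ hσ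
  have h1 : r (τ * σ₀ * τ⁻¹ * ι') = r (τ * σ₀ * τ⁻¹) := by
    rw [map_mul, (hc v hvℓ').1 ι' hι', mul_one]
  rw [h1, KR.val_mul, KR.val_mul]
  refine ss_conj (KR.val_mul_inv τ) (KR.val_inv_mul τ) ?_
  exact ss_inv (KR.val_inv_mul σ₀) hs1

end main

end Pool.Agent.X320.FS
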