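import Pool.Agent.X320.FS.Sq

/-! The derivative of the traces along a sequence of matrices with the same number of eigenvalues. -/

set_option autoImplicit false
set_option linter.all false

namespace Pool.Agent.X320.FS

open Module Polynomial Filter Topology

section

variable {E : Type*} [NontriviallyNormedField E] {n : ℕ}

theorem aeval_toLin (M : Matrix (Fin n) (Fin n) E) (g : E[X]) :
    aeval (Matrix.toLin' M) g = Matrix.toLin' (aeval M g) := by
  have := Polynomial.aeval_algHom_apply (Matrix.toLinAlgEquiv' (R := E) (n := Fin n)).toAlgHom M g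
  exact this

theorem trace_toLin (M : Matrix (Fin n) (Fin n) E) : LinearMap.trace E (Fin n → E) (Matrix.toLin' M) = M.trace :=
  Matrix.trace_toLin'_eq M

theorem trace_aeval (M : Matrix (Fin n) (Fin n) E) (g : E[X]) :
    LinearMap.trace E (Fin n → E) (aeval (Matrix.toLin' M) g) = (aeval M g).trace := by
  rw [aeval_toLin, trace_toLin]

variable {M Z : Matrix (Fin n) (Fin n) E} {Mk : ℕ → Matrix (Fin n) (Fin n) E} {ε : ℕ → E}

theorem pow_limit (hM : Tendsto Mk atTop (𝓝 M)) (hZ : Tendsto (fun k => (ε k)⁻¹ • (Mk k - M)) atTop (𝓝 Z)) (m : ℕ) :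
    Tendsto (fun k => (ε k)⁻¹ • (Mk k ^ m - M ^ m)) atTop
      (𝓝 (∑ i ∈ Finset.range m, M ^ i * Z * M ^ (m - 1 - i))) := by
  induction m with
  | zero =>
    rw [Finset.sum_range_zero]
    refine tendsto_const_nhds.congr fun k => ?_
    rw [pow_zero, pow_zero, sub_self, smul_zero]
  | succ m ih =>
    have h1 := (ih.mul hM).add ((tendsto_const_nhds (x := M ^ m)).mul hZ)
    have e1 : (∑ i ∈ Finset.range m, M ^ i * Z * M ^ (m - 1 - i)) * M + M ^ m * Z =
        ∑ i ∈ Finset.range (m + 1), M ^ i * Z * M ^ (m + 1 - 1 - i) := by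
      rw [Finset.sum_range_succ, Finset.sum_mul]
      congr 1
      · refine Finset.sum_congr rfl fun i hi => ?_
        have := Finset.mem_range.1 hi
        rw [mul_assoc, ← pow_succ]
        congr 2
        omega
      · rw [Nat.add_sub_cancel, Nat.sub_self, pow_zero, mul_one]
    rw [e1] at h1
    refine h1.congr fun k => ?_
    rw [smul_mul_assoc, mul_smul_comm, ← smul_add]
    congr 1
    rw [pow_succ, pow_succ, sub_mul, mul_sub]
    abel

theorem trace_limit (hM : Tendsto Mk atTop (𝓝 M)) (hZ : Tendsto (fun k => (ε k)⁻¹ • (Mk k - M)) atTop (𝓝 Z))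
    (g : E[X]) : Tendsto (fun k => (ε k)⁻¹ * ((aeval (Mk k) g).trace - (aeval M g).trace)) atTop
      (𝓝 ((aeval M (derivative g) * Z).trace)) := by
  induction g using Polynomial.induction_on' with
  | add p q hp hq =>
    have h1 := hp.add hq
    rw [← Matrix.trace_add, ← add_mul, ← map_add, ← derivative_add] at h1
    refine h1.congr fun k => ?_
    rw [← mul_add, map_add, map_add, Matrix.trace_add, Matrix.trace_add]
    congr 1
    abel
  | monomial m c =>
    have hc : Continuous fun A : Matrix (Fin n) (Fin n) E => A.trace := continuous_id.matrix_trace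
    have h1 := (((hc.tendsto _).comp (pow_limit hM hZ m))).const_mul c
    have e1 : c * (∑ i ∈ Finset.range m, M ^ i * Z * M ^ (m - 1 - i)).trace =
        (aeval M (derivative (monomial m c)) * Z).trace := by
      rw [Matrix.trace_sum]
      have h2 : ∀ i ∈ Finset.range m, (M ^ i * Z * M ^ (m - 1 - i)).trace = (M ^ (m - 1) * Z).trace := by
        intro i hi
        have := Finset.mem_range.1 hi
        rw [mul_assoc, Matrix.trace_mul_comm, mul_assoc, ← pow_add, Matrix.trace_mul_comm]
        congr 3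
        omega
      rw [Finset.sum_congr rfl h2, Finset.sum_const, Finset.card_range, derivative_monomial, aeval_monomial,
        ← Algebra.smul_def, smul_mul_assoc, Matrix.trace_smul, nsmul_eq_mul, smul_eq_mul]
      ring
    have h3 : (𝓝 (c * (fun A : Matrix (Fin n) (Fin n) E => A.trace)
        (∑ i ∈ Finset.range m, M ^ i * Z * M ^ (m - 1 - i)))) = 𝓝 ((aeval M (derivative (monomial m c)) * Z).trace) := by
      rw [← e1]
    rw [h3] at h1
    refine h1.congr fun k => ?_
    rw [aeval_monomial, aeval_monomial, ← Algebra.smul_def, ← Algebra.smul_def, Matrix.trace_smul, Matrix.trace_smul]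
    show c * ((ε k)⁻¹ • (Mk k ^ m - M ^ m)).trace = _
    rw [Matrix.trace_smul, Matrix.trace_sub, smul_eq_mul, smul_eq_mul, smul_eq_mul]
    ring

variable [CharZero E]

/-- the coefficients depend continuously on the matrix -/
theorem coeff_limit (hM : Tendsto Mk atTop (𝓝 M)) {Q : E[X]} {Qk : ℕ → E[X]} (hQ : IsRad (Matrix.toLin' M) Q)
    (hQk : ∀ᶠ k in atTop, IsRad (Matrix.toLin' (Mk k)) (Qk k) ∧ (Qk k).natDegree = Q.natDegree)
    : ∀ j : Fin Q.natDegree, Tendsto (fun k => (Qk k).coeff j) atTop (𝓝 (Q.coeff j)) := by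
  set r := Q.natDegree with hr
  have htr : ∀ m : ℕ, Tendsto (fun k => LinearMap.trace E (Fin n → E) (Matrix.toLin' (Mk k) ^ m)) atTop
      (𝓝 (LinearMap.trace E (Fin n → E) (Matrix.toLin' M ^ m))) := by
    intro m
    have hc : Continuous fun A : Matrix (Fin n) (Fin n) E => (A ^ m).trace := (continuous_pow m).matrix_trace
    have h1 := (hc.tendsto M).comp hM
    have e : ∀ A : Matrix (Fin n) (Fin n) E, LinearMap.trace E (Fin n → E) (Matrix.toLin' A ^ m) = (A ^ m).trace := by
      intro A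
      rw [← Matrix.toLin'_pow, trace_toLin]
    simp only [e]
    exact h1
  have hH : Tendsto (fun k => hank r (Matrix.toLin' (Mk k))) atTop (𝓝 (hank r (Matrix.toLin' M))) := by
    refine tendsto_pi_nhds.2 fun a => tendsto_pi_nhds.2 fun b => ?_
    exact htr (a.1 + b.1)
  have hdet : (hank r (Matrix.toLin' M)).det ≠ 0 := hQ.det_ne
  have hd : Tendsto (fun k => (hank r (Matrix.toLin' (Mk k))).det) atTop (𝓝 (hank r (Matrix.toLin' M)).det) := by
    have hc : Continuous fun A : Matrix (Fin r) (Fin r) E => A.det := continuous_id.matrix_det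
    exact (hc.tendsto _).comp hH
  have hadj : Tendsto (fun k => (hank r (Matrix.toLin' (Mk k))).adjugate) atTop (𝓝 (hank r (Matrix.toLin' M)).adjugate) := by
    have hc : Continuous fun A : Matrix (Fin r) (Fin r) E => A.adjugate := continuous_id.matrix_adjugate
    exact (hc.tendsto _).comp hH
  have hh : Tendsto (fun k => (-fun i : Fin r => LinearMap.trace E (Fin n → E) (Matrix.toLin' (Mk k) ^ (i.1 + r)) : Fin r → E))
      atTop (𝓝 (-fun i : Fin r => LinearMap.trace E (Fin n → E) (Matrix.toLin' M ^ (i.1 + r)) : Fin r → E)) :=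
    (tendsto_pi_nhds.2 fun i => htr _).neg
  have hsol : ∀ (A : Matrix (Fin n) (Fin n) E) (P : E[X]), IsRad (Matrix.toLin' A) P → P.natDegree = r →
      (fun j : Fin r => P.coeff j) = ((hank r (Matrix.toLin' A)).det)⁻¹ • ((hank r (Matrix.toLin' A)).adjugate.mulVec
        (-fun i : Fin r => LinearMap.trace E (Fin n → E) (Matrix.toLin' A ^ (i.1 + r)))) := by
    intro A P hP hPr
    rw [← hP.system hPr, Matrix.mulVec_mulVec, Matrix.adjugate_mul, Matrix.smul_mulVec, Matrix.one_mulVec, smul_smul,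
      inv_mul_cancel₀, one_smul]
    have := hP.det_ne
    rwa [hPr] at this
  have hlim : Tendsto (fun k => ((hank r (Matrix.toLin' (Mk k))).det)⁻¹ • ((hank r (Matrix.toLin' (Mk k))).adjugate.mulVec
        (-fun i : Fin r => LinearMap.trace E (Fin n → E) (Matrix.toLin' (Mk k) ^ (i.1 + r))))) atTop
      (𝓝 (((hank r (Matrix.toLin' M)).det)⁻¹ • ((hank r (Matrix.toLin' M)).adjugate.mulVec
        (-fun i : Fin r => LinearMap.trace E (Fin n → E) (Matrix.toLin' M ^ (i.1 + r)))))) := by
    refine (hd.inv₀ hdet).smul ?_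
    have hc : Continuous fun p : Matrix (Fin r) (Fin r) E × (Fin r → E) => p.1.mulVec p.2 :=
      Continuous.matrix_mulVec continuous_fst continuous_snd
    exact (hc.tendsto _).comp (hadj.prodMk_nhds hh)
  rw [← hsol M Q hQ rfl] at hlim
  intro j
  have h2 := tendsto_pi_nhds.1 hlim j
  refine h2.congr' ?_
  filter_upwards [hQk] with k hk
  rw [← hsol (Mk k) (Qk k) hk.1 hk.2]

theorem deriv_zero (hM : Tendsto Mk atTop (𝓝 M)) (hZ : Tendsto (fun k => (ε k)⁻¹ • (Mk k - M)) atTop (𝓝 Z))
    {Q : E[X]} {Qk : ℕ → E[X]} (hQ : IsRad (Matrix.toLin' M) Q)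
    (hQk : ∀ᶠ k in atTop, IsRad (Matrix.toLin' (Mk k)) (Qk k) ∧ (Qk k).natDegree = Q.natDegree) (h : E[X]) :
    (aeval M (derivative (Q ^ 2 * h)) * Z).trace = 0 := by
  set r := Q.natDegree with hr
  have hδ : ∀ j : Fin r, Tendsto (fun k => (Qk k).coeff j - Q.coeff j) atTop (𝓝 0) := by
    intro j
    have := (coeff_limit hM hQ hQk j).sub_const (Q.coeff j)
    rwa [sub_self] at this
  have h1 := trace_limit hM hZ (Q ^ 2 * h)
  have h2 : ∀ j : Fin r, Tendsto (fun k => ((Qk k).coeff j - Q.coeff j) * ((ε k)⁻¹ *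
      ((aeval (Mk k) (X ^ (j : ℕ) * (Q * h))).trace - (aeval M (X ^ (j : ℕ) * (Q * h))).trace))) atTop (𝓝 0) := by
    intro j
    have := (hδ j).mul (trace_limit hM hZ (X ^ (j : ℕ) * (Q * h)))
    rwa [zero_mul] at this
  have h3 := h1.add (tendsto_finset_sum Finset.univ fun j _ => h2 j)
  rw [Finset.sum_const_zero, add_zero] at h3
  refine tendsto_nhds_unique h3 ?_
  refine tendsto_const_nhds.congr' ?_
  filter_upwards [hQk] with k hk
  obtain ⟨hk1, hk2⟩ := hk
  have e0 : ∀ g : E[X], (aeval M (Q * g)).trace = 0 := by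
    intro g
    rw [← trace_aeval]
    exact hQ.tr g
  have e1 : (aeval M (Q ^ 2 * h)).trace = 0 := by
    have := e0 (Q * h)
    rwa [← mul_assoc, ← sq] at this
  have e2 : ∀ j : Fin r, (aeval M (X ^ (j : ℕ) * (Q * h))).trace = 0 := by
    intro j
    have := e0 (X ^ (j : ℕ) * h)
    rwa [show Q * (X ^ (j : ℕ) * h) = X ^ (j : ℕ) * (Q * h) by ring] at this
  have e3 : (aeval (Mk k) (Qk k * (Q * h))).trace = 0 := by
    rw [← trace_aeval]
    exact hk1.tr _
  have e4 : Qk k = Q + ∑ j : Fin r, C ((Qk k).coeff j - Q.coeff j) * X ^ (j : ℕ) := by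
    have h5 : ∀ P : E[X], P.Monic → P.natDegree = r → P = X ^ r + toPoly (fun j : Fin r => P.coeff j) := by
      intro P hP hPr
      have hdeg : (P - X ^ r).degree < (r : WithBot ℕ) := by
        have h6 : P.degree = ((X : E[X]) ^ r).degree := by
          rw [Polynomial.degree_X_pow, Polynomial.degree_eq_natDegree hP.ne_zero, hPr]
        have h7 := Polynomial.degree_sub_lt h6 hP.ne_zero (by
          rw [hP.leadingCoeff, Polynomial.leadingCoeff_X_pow])
        rwa [Polynomial.degree_eq_natDegree hP.ne_zero, hPr] at h7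
      have h8 := toPoly_eq _ hdeg
      have h9 : (fun j : Fin r => (P - X ^ r).coeff j) = fun j : Fin r => P.coeff j := by
        funext j
        rw [coeff_sub, coeff_X_pow, if_neg (by have := j.2; omega), sub_zero]
      rw [h9] at h8
      rw [h8]; ring
    have h6 : ∑ j : Fin r, C ((Qk k).coeff j - Q.coeff j) * X ^ (j : ℕ) =
        toPoly (fun j : Fin r => (Qk k).coeff j) - toPoly (fun j : Fin r => Q.coeff j) := by
      unfold toPoly
      rw [← Finset.sum_sub_distrib]
      refine Finset.sum_congr rfl fun j _ => ?_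
      rw [C_sub, sub_mul]
    rw [h6]
    conv_lhs => rw [h5 (Qk k) hk1.monic hk2]
    conv_rhs => rw [h5 Q hQ.monic rfl]
    have h7 : toPoly (fun j : Fin r => (X ^ r + toPoly (fun j : Fin r => Q.coeff j)).coeff j) =
        toPoly (fun j : Fin r => Q.coeff j) := by
      rw [← h5 Q hQ.monic rfl]
    rw [h7]
    ring
  rw [e1, sub_zero]
  have e5 : ∑ j : Fin r, ((Qk k).coeff j - Q.coeff j) * ((ε k)⁻¹ *
      ((aeval (Mk k) (X ^ (j : ℕ) * (Q * h))).trace - (aeval M (X ^ (j : ℕ) * (Q * h))).trace)) =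
      (ε k)⁻¹ * ∑ j : Fin r, ((Qk k).coeff j - Q.coeff j) * (aeval (Mk k) (X ^ (j : ℕ) * (Q * h))).trace := by
    rw [Finset.mul_sum]
    refine Finset.sum_congr rfl fun j _ => ?_
    rw [e2 j, sub_zero]
    ring
  rw [e5, ← mul_add]
  have e6 : (aeval (Mk k) (Q ^ 2 * h)).trace +
      ∑ j : Fin r, ((Qk k).coeff j - Q.coeff j) * (aeval (Mk k) (X ^ (j : ℕ) * (Q * h))).trace =
      (aeval (Mk k) (Qk k * (Q * h))).trace := by
    conv_rhs => rw [e4]
    rw [add_mul, map_add, Matrix.trace_add, ← mul_assoc Q, ← sq, Finset.sum_mul, map_sum, Matrix.trace_sum]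
    congr 1
    refine Finset.sum_congr rfl fun j _ => ?_
    rw [mul_assoc, map_mul (aeval (Mk k)) (C _), aeval_C, ← Algebra.smul_def, Matrix.trace_smul, smul_eq_mul]
  rw [e6, e3, mul_zero]

theorem orth (hM : Tendsto Mk atTop (𝓝 M)) (hZ : Tendsto (fun k => (ε k)⁻¹ • (Mk k - M)) atTop (𝓝 Z))
    {Q : E[X]} {Qk : ℕ → E[X]} (hQ : IsRad (Matrix.toLin' M) Q)
    (hQk : ∀ᶠ k in atTop, IsRad (Matrix.toLin' (Mk k)) (Qk k) ∧ (Qk k).natDegree = Q.natDegree) :
    ∀ j : ℕ, 0 < j → ∀ g : E[X], (aeval M (Q ^ j * g) * Z).trace = 0 := by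
  have h1 := deriv_zero hM hZ hQ hQk
  obtain ⟨N, hN⟩ := hQ.nil
  have hN' : ∀ g : E[X], aeval M (Q ^ N * g) = 0 := by
    intro g
    have h2 : aeval M (Q ^ N) = 0 := by
      apply Matrix.toLin'.injective
      rw [← aeval_toLin, map_pow, hN, map_zero]
    rw [map_mul, h2, zero_mul]
  have key : ∀ i : ℕ, ∀ j : ℕ, 0 < j → N ≤ j + i → ∀ g : E[X], (aeval M (Q ^ j * g) * Z).trace = 0 := by
    intro i
    induction i with
    | zero =>
      intro j _ hj g
      have e : Q ^ j * g = Q ^ N * (Q ^ (j - N) * g) := by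
        rw [← mul_assoc, ← pow_add]
        congr 2
        omega
      rw [e, hN', zero_mul, Matrix.trace_zero]
    | succ i ih =>
      intro j hj hji g
      have ih' := ih (j + 1) (Nat.succ_pos _) (by omega)
      obtain ⟨a, b, hab⟩ := hQ.sep
      have h3 := h1 (Q ^ (j - 1) * (b * g))
      have e1 : Q ^ 2 * (Q ^ (j - 1) * (b * g)) = Q ^ (j + 1) * (b * g) := by
        rw [← mul_assoc, ← pow_add]
        congr 2
        omega
      rw [e1, derivative_mul, derivative_pow_succ, map_add, add_mul, Matrix.trace_add, ih' _, add_zero] at h3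
      have e2 : (C ((j : E) + 1) * Q ^ j * derivative Q * (b * g)) = C ((j : E) + 1) * (Q ^ j * (b * derivative Q * g)) := by
        ring
      rw [e2, map_mul, aeval_C, ← Algebra.smul_def, smul_mul_assoc, Matrix.trace_smul, smul_eq_mul] at h3
      have h4 : ((j : E) + 1) ≠ 0 := by exact_mod_cast Nat.succ_ne_zero j
      have h5 := (mul_eq_zero.1 h3).resolve_left h4
      have e3 : Q ^ j * g = Q ^ (j + 1) * (a * g) + Q ^ j * (b * derivative Q * g) := by
        calc Q ^ j * g = Q ^ j * ((a * Q + b * derivative Q) * g) := by rw [hab, one_mul]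
          _ = _ := by ring
      rw [e3, map_add, add_mul, Matrix.trace_add, ih', h5, add_zero]
  intro j hj g
  exact key N j hj (by omega) g

end

end Pool.Agent.X320.FS
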