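import Pool.Agent.X320.FS.Comm2
import Pool.Agent.X320.FS.Final
import Pool.Agent.X320.DS.Haar

/-! The finite level form of the theorem on almost all elements. -/

set_option autoImplicit false
set_option linter.all false

namespace Pool.Agent.X320.FS

open Module Polynomial Filter Topology MeasureTheory Pool.Agent.X320.KR Pool.Agent.X320.DS Pool.Agent.X320.RU

variable {Γ : Type*} [Group Γ] [TopologicalSpace Γ] [IsTopologicalGroup Γ] [CompactSpace Γ] [T2Space Γ]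
  [TotallyDisconnectedSpace Γ] {p : ℕ} [hp : Fact p.Prime] {E : Type*} [NontriviallyNormedField E] [CompleteSpace E]
  [IsUltrametricDist E] [NormedAlgebra ℚ_[p] E] [CharZero E] {n : ℕ} (ρ : Γ →* GL (Fin n) E)

include hp in
theorem almost_all (hρ : Continuous ρ) (hss : Semisimple ρ) {ε : ℝ} (hε : 0 < ε) :
    ∃ (U : Subgroup Γ) (hU : U.Normal) (C : Set (Γ ⧸ U)), IsOpen (U : Set Γ) ∧
      (∀ q ∈ C, ∀ g : Γ ⧸ U, g * q * g⁻¹ ∈ C) ∧ (C.ncard : ℝ) ≤ ε * Nat.card (Γ ⧸ U) ∧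
      ∀ x : Γ, (QuotientGroup.mk x : Γ ⧸ U) ∉ C →
        Module.End.IsSemisimple (Matrix.toLin' (ρ x : Matrix (Fin n) (Fin n) E)) := by
  classical
  letI : MeasurableSpace Γ := borel _
  haveI : BorelSpace Γ := ⟨rfl⟩
  set μ : Measure Γ := Measure.haarMeasure (⊤ : TopologicalSpace.PositiveCompacts Γ) with hμ
  haveI : IsProbabilityMeasure μ := ⟨by
    have := Measure.haarMeasure_self (K₀ := (⊤ : TopologicalSpace.PositiveCompacts Γ))
    rw [hμ]
    rwa [TopologicalSpace.PositiveCompacts.coe_top] at this⟩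
  obtain ⟨B, hBc, hB0, hB⟩ := group_ss (p := p) ρ μ hρ hss
  set B' : Set Γ := {g | ∀ τ : Γ, τ * g * τ⁻¹ ∈ B} with hB'
  have hsub : B' ⊆ B := fun g hg => by
    have := hg 1
    rwa [one_mul, inv_one, mul_one] at this
  have hcl : IsClosed B' := by
    have e : B' = ⋂ τ : Γ, (fun g => τ * g * τ⁻¹) ⁻¹' B := by
      ext g
      simp [hB']
    rw [e]
    exact isClosed_iInter fun τ => hBc.preimage (by fun_prop)
  have h0 : μ B' = 0 := measure_mono_null hsub hB0
  by_contra hcon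
  push Not at hcon
  have h1 : ENNReal.ofReal ε ≤ μ B' := by
    refine measure_closed μ B' hcl ε fun U hUn hU => ?_
    haveI := hUn
    by_contra hlt
    push Not at hlt
    obtain ⟨x, hx, hx'⟩ := hcon U hUn ((QuotientGroup.mk : Γ → Γ ⧸ U) '' B') hU (by
      rintro _ ⟨b, hb, rfl⟩ g
      obtain ⟨γ, rfl⟩ := QuotientGroup.mk_surjective g
      refine ⟨γ * b * γ⁻¹, fun τ => ?_, rfl⟩
      have e : τ * (γ * b * γ⁻¹) * τ⁻¹ = (τ * γ) * b * (τ * γ)⁻¹ := by group
      rw [e]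
      exact hb _) hlt.le
    apply hx'
    have hxB : x ∉ B' := fun h => hx ⟨x, h, rfl⟩
    rw [hB'] at hxB
    simp only [Set.mem_ofPred_eq, not_forall] at hxB
    obtain ⟨τ, hτ⟩ := hxB
    have h2 := hB _ hτ
    rw [KR.val_mul, KR.val_mul] at h2
    have h3 := ss_conj (A := (ρ τ⁻¹ : Matrix (Fin n) (Fin n) E)) (A' := (ρ τ : Matrix (Fin n) (Fin n) E))
      (KR.val_inv_mul τ) (KR.val_mul_inv τ) h2
    have e : (ρ τ⁻¹ : Matrix (Fin n) (Fin n) E) * ((ρ τ : Matrix (Fin n) (Fin n) E) * (ρ x : Matrix (Fin n) (Fin n) E) *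
        (ρ τ⁻¹ : Matrix (Fin n) (Fin n) E)) * (ρ τ : Matrix (Fin n) (Fin n) E) = (ρ x : Matrix (Fin n) (Fin n) E) := by
      calc _ = ((ρ τ⁻¹ : Matrix (Fin n) (Fin n) E) * (ρ τ : Matrix (Fin n) (Fin n) E)) *
            (ρ x : Matrix (Fin n) (Fin n) E) * ((ρ τ⁻¹ : Matrix (Fin n) (Fin n) E) * (ρ τ : Matrix (Fin n) (Fin n) E)) := by
            simp only [mul_assoc]
        _ = _ := by rw [KR.val_inv_mul, one_mul, mul_one]
    rw [e] at h3
    exact h3
  rw [h0] at h1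
  have := ENNReal.ofReal_eq_zero.1 (le_antisymm h1 bot_le)
  linarith

end Pool.Agent.X320.FS
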