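import Pool.Agent.X320.FS.Lin

/-! The nilpotent part of an element of the Lie algebra which is orthogonal to the Lie algebra is central. -/

set_option autoImplicit false
set_option linter.all false

namespace Pool.Agent.X320.FS

open Module Polynomial

section

variable {K V : Type*} [Field K] [CharZero K] [AddCommGroup V] [Module K V] [FiniteDimensional K V]
  {A : Subalgebra K (End K V)} {Γ : Type*} [Group Γ] {τ : Γ →* End K V}

theorem conj_zero (hA : ∀ x ∈ A, (∀ a ∈ A, LinearMap.trace K V (a * x) = 0) → x = 0)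
    (hτ : ∀ a ∈ A, a ∈ Submodule.span K (Set.range τ)) {D : Set (End K V)} (hDA : ∀ c ∈ D, c ∈ A)
    (hDc : ∀ g, ∀ c ∈ D, τ g * c * τ g⁻¹ ∈ D) {N : ℕ}
    (hN : ∀ l : List (End K V), (∀ c ∈ l, c ∈ D) → l.length = N → l.prod = 0) : ∀ c ∈ D, c = 0 := by
  intro c hc
  refine hA c (hDA c hc) fun a ha => ?_
  have hgen : ∀ g, LinearMap.trace K V (τ g * c) = 0 := by
    intro g
    apply trace_eq_zero_of_nil
    have hpow : ∀ m : ℕ, (τ g * c) ^ m =
        ((List.range m).map (fun i => τ (g ^ (i + 1)) * c * τ (g ^ (i + 1))⁻¹)).prod * τ (g ^ m) := by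
      intro m
      induction m with
      | zero => rw [pow_zero, List.range_zero, List.map_nil, List.prod_nil, pow_zero, map_one, mul_one]
      | succ m ih =>
        rw [pow_succ, ih, List.range_succ, List.map_append, List.prod_append, List.map_cons, List.map_nil,
          List.prod_cons, List.prod_nil, mul_one]
        have e : τ (g ^ (m + 1))⁻¹ * τ (g ^ (m + 1)) = 1 := by rw [← map_mul, inv_mul_cancel, map_one]
        rw [mul_assoc, mul_assoc _ _ (τ (g ^ (m + 1))), mul_assoc (τ (g ^ (m + 1)) * c), e, mul_one,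
          ← mul_assoc (τ (g ^ m)), ← map_mul, ← pow_succ]
    refine ⟨N, ?_⟩
    rw [hpow, hN _ _ (by rw [List.length_map, List.length_range]), zero_mul]
    intro d hd
    obtain ⟨i, -, rfl⟩ := List.mem_map.1 hd
    exact hDc _ c hc
  refine Submodule.span_induction (p := fun a _ => LinearMap.trace K V (a * c) = 0) ?_ ?_ ?_ ?_ (hτ a ha)
  · rintro _ ⟨g, rfl⟩
    exact hgen g
  · rw [zero_mul, map_zero]
  · intro x y _ _ hx hy
    rw [add_mul, map_add, hx, hy, add_zero]
  · intro r x _ hx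
    rw [smul_mul_assoc, map_smul, hx, smul_zero]

attribute [local instance 100] LieRing.ofAssociativeRing

/-- the radical of the trace form -/
def rr (G : Submodule K (End K V)) (hbr : ∀ X ∈ G, ∀ Y ∈ G, X * Y - Y * X ∈ G) : LieSubalgebra K (End K V) where
  carrier := {c | c ∈ G ∧ ∀ Z ∈ G, LinearMap.trace K V (c * Z) = 0}
  add_mem' := by
    rintro a b ⟨ha, ha'⟩ ⟨hb, hb'⟩
    refine ⟨G.add_mem ha hb, fun Z hZ => ?_⟩
    rw [add_mul, map_add, ha' Z hZ, hb' Z hZ, add_zero]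
  zero_mem' := ⟨G.zero_mem, fun Z _ => by rw [zero_mul, map_zero]⟩
  smul_mem' := by
    rintro r a ⟨ha, ha'⟩
    refine ⟨G.smul_mem r ha, fun Z hZ => ?_⟩
    rw [smul_mul_assoc, map_smul, ha' Z hZ, smul_zero]
  lie_mem' := by
    rintro a b ⟨ha, ha'⟩ ⟨hb, hb'⟩
    refine ⟨hbr a ha b hb, fun Z hZ => ?_⟩
    show LinearMap.trace K V ((a * b - b * a) * Z) = 0
    have h1 : LinearMap.trace K V (a * (b * Z - Z * b)) = 0 := ha' _ (hbr b hb Z hZ)
    have h2 : LinearMap.trace K V (b * a * Z) = LinearMap.trace K V (a * (Z * b)) := by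
      rw [mul_assoc, LinearMap.trace_mul_comm, mul_assoc]
    rw [sub_mul, map_sub, h2, mul_assoc, ← map_sub, ← mul_sub, h1]

theorem rr_comm (hA : ∀ x ∈ A, (∀ a ∈ A, LinearMap.trace K V (a * x) = 0) → x = 0)
    (hτ : ∀ a ∈ A, a ∈ Submodule.span K (Set.range τ)) (G : Submodule K (End K V)) (hGA : ∀ X ∈ G, X ∈ A)
    (hbr : ∀ X ∈ G, ∀ Y ∈ G, X * Y - Y * X ∈ G) (hconj : ∀ g, ∀ X ∈ G, τ g * X * τ g⁻¹ ∈ G) :
    ∀ c ∈ rr G hbr, ∀ d ∈ rr G hbr, c * d = d * c := by
  set L := rr G hbr with hL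
  have htf : LieModule.traceForm K L V = 0 := by
    apply LinearMap.ext; intro x
    apply LinearMap.ext; intro y
    rw [LieModule.traceForm_apply_apply]
    exact x.2.2 y.1 y.2.1
  have hnil := LieModule.isNilpotent_derivedSeries_of_traceForm_eq_zero htf
  obtain ⟨k, hk⟩ := (LieModule.isNilpotent_iff K (LieAlgebra.derivedSeries K L 1) V).1 hnil
  have hmem : ∀ (m : ℕ) (l : List (End K V)), (∀ c ∈ l, ∃ x : L, x ∈ LieAlgebra.derivedSeries K L 1 ∧ x.1 = c) →
      l.length = m → ∀ v, l.prod v ∈ LieModule.lowerCentralSeries K (LieAlgebra.derivedSeries K L 1) V m := by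
    intro m
    induction m with
    | zero =>
      intro l _ _ v
      rw [LieModule.lowerCentralSeries_zero]
      trivial
    | succ m ih =>
      intro l hl hlen v
      match l, hl, hlen with
      | c :: l, hl, hlen =>
        obtain ⟨x, hx, hxc⟩ := hl c List.mem_cons_self
        have h1 := ih l (fun d hd => hl d (List.mem_cons_of_mem _ hd)) (by simpa using hlen) v
        rw [LieModule.lowerCentralSeries_succ, List.prod_cons]
        have h2 : (c * l.prod) v = ⁅(⟨x, hx⟩ : LieAlgebra.derivedSeries K L 1), l.prod v⁆ := by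
          show c (l.prod v) = x.1 (l.prod v)
          rw [hxc]
        rw [h2]
        exact LieSubmodule.lie_mem_lie (LieSubmodule.mem_top _) h1
  have hinv : ∀ g X, τ g * X * τ g⁻¹ = 0 → X = 0 := by
    intro g X h
    have e : τ g⁻¹ * (τ g * X * τ g⁻¹) * τ g = X := by
      rw [mul_assoc, mul_assoc (τ g * X), ← map_mul, inv_mul_cancel, map_one, mul_one, ← mul_assoc, ← map_mul,
        inv_mul_cancel, map_one, one_mul]
    rw [← e, h, mul_zero, zero_mul]
  have hconjmul : ∀ g X Y, τ g * (X * Y) * τ g⁻¹ = (τ g * X * τ g⁻¹) * (τ g * Y * τ g⁻¹) := by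
    intro g X Y
    have e : τ g⁻¹ * τ g = 1 := by rw [← map_mul, inv_mul_cancel, map_one]
    calc τ g * (X * Y) * τ g⁻¹ = τ g * X * (τ g⁻¹ * τ g) * Y * τ g⁻¹ := by rw [e, mul_one]; simp only [mul_assoc]
      _ = _ := by simp only [mul_assoc]
  have hLconj : ∀ g, ∀ X ∈ L, τ g * X * τ g⁻¹ ∈ L := by
    rintro g X ⟨hX, hX'⟩
    refine ⟨hconj g X hX, fun Z hZ => ?_⟩
    have h1 := hX' _ (hconj g⁻¹ Z hZ)
    rw [inv_inv] at h1
    have e : τ g * X * τ g⁻¹ * Z = τ g * (X * (τ g⁻¹ * Z)) := by simp only [mul_assoc]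
    rw [e, LinearMap.trace_mul_comm, mul_assoc]
    exact h1
  intro c hc d hd
  rw [← sub_eq_zero]
  refine conj_zero hA hτ (D := {x | ∃ c ∈ L, ∃ d ∈ L, x = c * d - d * c}) ?_ ?_ (N := k) ?_ _ ⟨c, hc, d, hd, rfl⟩
  · rintro x ⟨c, hc, d, hd, rfl⟩
    exact hGA _ (hbr c hc.1 d hd.1)
  · rintro g x ⟨c, hc, d, hd, rfl⟩
    refine ⟨_, hLconj g c hc, _, hLconj g d hd, ?_⟩
    rw [← hconjmul, ← hconjmul, mul_sub, sub_mul]
  · intro l hl hlen
    apply LinearMap.ext
    intro v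
    have h1 := hmem k l (fun x hx => by
      obtain ⟨c, hc, d, hd, rfl⟩ := hl x hx
      refine ⟨⁅(⟨c, hc⟩ : L), (⟨d, hd⟩ : L)⁆, ?_, rfl⟩
      exact LieSubmodule.lie_mem_lie (LieSubmodule.mem_top _) (LieSubmodule.mem_top _)) hlen v
    rw [hk] at h1
    exact (LieSubmodule.mem_bot _).1 h1

theorem rr_nil (hA : ∀ x ∈ A, (∀ a ∈ A, LinearMap.trace K V (a * x) = 0) → x = 0)
    (hτ : ∀ a ∈ A, a ∈ Submodule.span K (Set.range τ)) (G : Submodule K (End K V)) (hGA : ∀ X ∈ G, X ∈ A)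
    (hbr : ∀ X ∈ G, ∀ Y ∈ G, X * Y - Y * X ∈ G) (hconj : ∀ g, ∀ X ∈ G, τ g * X * τ g⁻¹ ∈ G) :
    ∀ c ∈ rr G hbr, IsNilpotent c → c = 0 := by
  have hcomm := rr_comm hA hτ G hGA hbr hconj
  have hLconj : ∀ g, ∀ X ∈ rr G hbr, τ g * X * τ g⁻¹ ∈ rr G hbr := by
    rintro g X ⟨hX, hX'⟩
    refine ⟨hconj g X hX, fun Z hZ => ?_⟩
    have h1 := hX' _ (hconj g⁻¹ Z hZ)
    rw [inv_inv] at h1
    have e : τ g * X * τ g⁻¹ * Z = τ g * (X * (τ g⁻¹ * Z)) := by simp only [mul_assoc]
    rw [e, LinearMap.trace_mul_comm, mul_assoc]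
    exact h1
  have hpow : ∀ g (X : End K V) (m : ℕ), (τ g * X * τ g⁻¹) ^ m = τ g * X ^ m * τ g⁻¹ := by
    intro g X m
    have e : τ g⁻¹ * τ g = 1 := by rw [← map_mul, inv_mul_cancel, map_one]
    have e' : τ g * τ g⁻¹ = 1 := by rw [← map_mul, mul_inv_cancel, map_one]
    induction m with
    | zero => rw [pow_zero, pow_zero, mul_one, e']
    | succ m ih =>
      rw [pow_succ, ih, pow_succ]
      calc τ g * X ^ m * τ g⁻¹ * (τ g * X * τ g⁻¹) = τ g * X ^ m * (τ g⁻¹ * τ g) * X * τ g⁻¹ := by simp only [mul_assoc]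
        _ = _ := by rw [e, mul_one]; simp only [mul_assoc]
  intro c hc hcn
  refine conj_zero hA hτ (D := {x | x ∈ rr G hbr ∧ IsNilpotent x}) (fun x hx => hGA x hx.1.1) ?_
    (N := finrank K V + 1) ?_ c ⟨hc, hcn⟩
  · rintro g x ⟨hx, N, hN⟩
    exact ⟨hLconj g x hx, N, by rw [hpow, hN, mul_zero, zero_mul]⟩
  · intro l hl hlen
    rcases prod_zero (D := {x | x ∈ rr G hbr ∧ IsNilpotent x}) (fun x hx => hx.2)
      (fun x hx y hy => hcomm x hx.1 y hy.1) l hl with h | h
    · exact h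
    · omega

open LieAlgebra in
/-- **The algebraic theorem.** -/
theorem lie_main (hA : ∀ x ∈ A, (∀ a ∈ A, LinearMap.trace K V (a * x) = 0) → x = 0)
    (hτ : ∀ a ∈ A, a ∈ Submodule.span K (Set.range τ)) (G : Submodule K (End K V)) (hGA : ∀ X ∈ G, X ∈ A)
    (hbr : ∀ X ∈ G, ∀ Y ∈ G, X * Y - Y * X ∈ G) (hconj : ∀ g, ∀ X ∈ G, τ g * X * τ g⁻¹ ∈ G)
    {Y n s : End K V} (hY : Y ∈ G) (hYns : Y = n + s) (hns : Commute n s) (hn : IsNilpotent n) (hs : s.IsSemisimple)
    (htr : ∀ X ∈ G, LinearMap.trace K V (n * X) = 0) : ∀ X ∈ G, n * X = X * n := by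
  have hstab : ∀ X ∈ G, n * X - X * n ∈ G := by
    have h1 := ad_mem_adjoin_of_isNilpotent (K := K) hns hn hs
    rw [← hYns] at h1
    have h2 : ∀ φ ∈ Algebra.adjoin K {ad K (End K V) Y}, ∀ X ∈ G, φ X ∈ G := by
      intro φ hφ
      induction hφ using Algebra.adjoin_induction with
      | mem x hx =>
        intro X hX
        rw [Set.mem_singleton_iff.1 hx]
        exact hbr Y hY X hX
      | algebraMap r =>
        intro X hX
        exact G.smul_mem r hX
      | add a b _ _ ha hb =>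
        intro X hX
        exact G.add_mem (ha X hX) (hb X hX)
      | mul a b _ _ ha hb =>
        intro X hX
        exact ha _ (hb X hX)
    intro X hX
    exact h2 _ h1 X hX
  have hrad : ∀ X ∈ G, n * X - X * n ∈ rr G hbr := by
    intro X hX
    refine ⟨hstab X hX, fun Z hZ => ?_⟩
    have h1 := htr _ (hbr X hX Z hZ)
    have e : LinearMap.trace K V (X * n * Z) = LinearMap.trace K V (n * (Z * X)) := by
      rw [mul_assoc, LinearMap.trace_mul_comm, mul_assoc]
    rw [sub_mul, map_sub, e, mul_assoc, ← map_sub, ← mul_sub, h1]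
  have hnil0 := rr_nil hA hτ G hGA hbr hconj
  have hadn : IsNilpotent (ad K (End K V) n) := LieAlgebra.ad_nilpotent_of_nilpotent hn
  obtain ⟨N, hN⟩ := hadn
  have hall : ∀ m : ℕ, ∀ X ∈ G, ((ad K (End K V) n) ^ m) X = 0 → n * X - X * n = 0 := by
    intro m
    induction m with
    | zero =>
      intro X _ h
      rw [pow_zero] at h
      have : X = 0 := h
      rw [this, mul_zero, zero_mul, sub_zero]
    | succ m ih =>
      intro X hX h
      by_contra hne
      have h1 : ((ad K (End K V) n) ^ m) (n * X - X * n) = 0 := by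
        rw [pow_succ] at h
        exact h
      have h2 := ih _ (hstab X hX) h1
      have h3 : IsNilpotent (n * X - X * n) := jacobson (by rw [← sub_eq_zero]; exact h2)
      exact hne (hnil0 _ (hrad X hX) h3)
  intro X hX
  rw [← sub_eq_zero]
  refine hall N X hX ?_
  rw [hN]
  rfl

end

end Pool.Agent.X320.FS
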