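import Mathlib

/-! Linear algebra: traces of powers, the squarefree polynomial of an endomorphism, commuting nilpotent maps. -/

set_option autoImplicit false
set_option linter.all false

namespace Pool.Agent.X320.FS

open Module Polynomial

section

variable {K V : Type*} [Field K] [CharZero K] [AddCommGroup V] [Module K V] [FiniteDimensional K V]

/-- In characteristic zero a map whose positive powers have trace zero is nilpotent. -/
theorem nil_of_trace {z : End K V} (h : ∀ k : ℕ, 0 < k → LinearMap.trace K V (z ^ k) = 0) : IsNilpotent z := by
  have hp : minpoly K z ≠ 0 := minpoly.ne_zero_of_finite K z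
  obtain ⟨q, hq, hnd⟩ := Polynomial.exists_eq_pow_rootMultiplicity_mul_and_not_dvd (minpoly K z) hp 0
  set m := (minpoly K z).rootMultiplicity 0
  rw [C_0, sub_zero] at hq hnd
  have hco : IsCoprime (X ^ (m + 1) : K[X]) q := by
    refine IsCoprime.pow_left ?_
    exact (Polynomial.prime_X.irreducible.coprime_iff_not_dvd).2 hnd
  obtain ⟨a, b, hab⟩ := hco
  set e : End K V := aeval z (a * X ^ (m + 1)) with he
  have h1 : e + aeval z (b * q) = 1 := by
    rw [he, ← map_add, hab, map_one]
  have h0 : ∀ g : K[X], aeval z (X * (g * minpoly K z)) = 0 := by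
    intro g
    rw [map_mul, map_mul, minpoly.aeval, mul_zero, mul_zero]
  have h2 : e * aeval z (b * q) = 0 := by
    rw [he, ← map_mul]
    have : a * X ^ (m + 1) * (b * q) = X * ((a * b) * minpoly K z) := by
      rw [hq]; ring
    rw [this, h0]
  have hid : IsIdempotentElem e := by
    show e * e = e
    have h3 : e * (e + aeval z (b * q)) = e := by rw [h1, mul_one]
    rwa [mul_add, h2, add_zero] at h3
  have htr : LinearMap.trace K V e = 0 := by
    have h4 : ∀ g : K[X], LinearMap.trace K V (aeval z (g * X ^ (m + 1))) = 0 := by
      intro g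
      induction g using Polynomial.induction_on' with
      | add p q hp hq => rw [add_mul, map_add, map_add, hp, hq, add_zero]
      | monomial i c =>
        rw [← C_mul_X_pow_eq_monomial, mul_assoc, ← pow_add, map_mul, aeval_C, map_pow, aeval_X,
          ← Algebra.smul_def, map_smul, h _ (by omega), smul_zero]
    exact h4 a
  have hr := (LinearMap.IsIdempotentElem.isProj_range e hid).trace
  rw [htr] at hr
  have h5 : finrank K (LinearMap.range e) = 0 := by exact_mod_cast hr.symm
  have h6 : e = 0 := LinearMap.range_eq_bot.1 (Submodule.finrank_eq_zero.1 h5)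
  rw [h6, zero_add] at h1
  refine ⟨m + 1, ?_⟩
  calc z ^ (m + 1) = z ^ (m + 1) * aeval z (b * q) := by rw [h1, mul_one]
    _ = aeval z (X ^ (m + 1) * (b * q)) := by rw [map_mul (aeval z) (X ^ (m + 1)), map_pow, aeval_X]
    _ = aeval z (X * (b * minpoly K z)) := by
        congr 1
        rw [hq]; ring
    _ = 0 := h0 b

theorem trace_eq_zero_of_nil {z : End K V} (h : IsNilpotent z) : LinearMap.trace K V z = 0 :=
  (LinearMap.isNilpotent_trace_of_isNilpotent h).eq_zero

/-- If `a` commutes with `[a, b]` then `[a, b]` is nilpotent. -/
theorem jacobson {a b : End K V} (h : a * (a * b - b * a) = (a * b - b * a) * a) : IsNilpotent (a * b - b * a) := by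
  refine nil_of_trace fun k hk => ?_
  obtain ⟨j, rfl⟩ : ∃ j, k = j + 1 := ⟨k - 1, by omega⟩
  set c := a * b - b * a with hc
  have h1 : Commute a (c ^ j) := (show Commute a c from h).pow_right j
  rw [pow_succ]
  conv_lhs => rw [hc]
  rw [← hc, mul_sub, map_sub, ← mul_assoc, ← h1.eq, mul_assoc a, LinearMap.trace_mul_comm, mul_assoc, sub_self]

/-- products of commuting nilpotent maps -/
theorem prod_zero {D : Set (End K V)} (hnil : ∀ c ∈ D, IsNilpotent c) (hcomm : ∀ c ∈ D, ∀ d ∈ D, c * d = d * c)
    (l : List (End K V)) (hl : ∀ c ∈ l, c ∈ D) :
    l.prod = 0 ∨ finrank K (LinearMap.range l.prod) + l.length ≤ finrank K V := by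
  induction l with
  | nil =>
    right
    rw [List.length_nil, add_zero]
    exact Submodule.finrank_le _
  | cons c l ih =>
    have hl' : ∀ d ∈ l, d ∈ D := fun d hd => hl d (List.mem_cons_of_mem _ hd)
    have hc : c ∈ D := hl c List.mem_cons_self
    rcases ih hl' with h | h
    · left
      rw [List.prod_cons, h, mul_zero]
    · by_cases h0 : l.prod = 0
      · left
        rw [List.prod_cons, h0, mul_zero]
      right
      have hcl : c * l.prod = l.prod * c := by
        clear ih h h0
        induction l with
        | nil => rw [List.prod_nil, mul_one, one_mul]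
        | cons d l ih' =>
          rw [List.prod_cons, ← mul_assoc, hcomm c hc d (hl' d List.mem_cons_self), mul_assoc,
            ih' (fun e he => hl e (by
              rcases List.mem_cons.1 he with h | h
              · exact h ▸ List.mem_cons_self
              · exact List.mem_cons_of_mem _ (List.mem_cons_of_mem _ h)))
              (fun e he => hl' e (List.mem_cons_of_mem _ he)), mul_assoc]
      have hle : LinearMap.range (c * l.prod) ≤ LinearMap.range l.prod := by
        rw [hcl]
        rintro _ ⟨v, rfl⟩
        exact ⟨c v, rfl⟩
      have hne : LinearMap.range (c * l.prod) ≠ LinearMap.range l.prod := by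
        intro heq
        obtain ⟨N, hN⟩ := hnil c hc
        have hall : ∀ j : ℕ, LinearMap.range l.prod ≤ LinearMap.range (c ^ j * l.prod) := by
          intro j
          induction j with
          | zero => rw [pow_zero, one_mul]
          | succ j ih' =>
            rintro v hv
            obtain ⟨w, rfl⟩ := ih' hv
            have hw : l.prod w ∈ LinearMap.range (c * l.prod) := by rw [heq]; exact ⟨w, rfl⟩
            obtain ⟨w', hw'⟩ := hw
            refine ⟨w', ?_⟩
            rw [pow_succ, mul_assoc]
            show (c ^ j) ((c * l.prod) w') = (c ^ j) (l.prod w)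
            rw [hw']
        have h2 := hall N
        rw [hN, zero_mul, LinearMap.range_zero] at h2
        exact h0 (LinearMap.range_eq_bot.1 (le_bot_iff.1 h2))
      have hlt := Submodule.finrank_lt_finrank_of_lt (lt_of_le_of_ne hle hne)
      rw [List.prod_cons, List.length_cons]
      omega

end

end Pool.Agent.X320.FS
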