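import Pool.Agent.X320.FS.Deriv

/-! A matrix with a semisimple logarithm is semisimple. -/

set_option autoImplicit false
set_option linter.all false

namespace Pool.Agent.X320.FS

open Module Polynomial Filter Topology

section alg

variable {K V : Type*} [Field K] [CharZero K] [AddCommGroup V] [Module K V] [FiniteDimensional K V]

theorem adj_comm {f a b : End K V} (ha : a ∈ Algebra.adjoin K {f}) (hb : b ∈ Algebra.adjoin K {f}) : Commute a b := by
  have := mul_comm (⟨a, ha⟩ : Algebra.adjoin K {f}) ⟨b, hb⟩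
  exact congrArg Subtype.val this

theorem cmp {f n s : End K V} (hn : n ∈ Algebra.adjoin K {f}) (hs : s ∈ Algebra.adjoin K {f}) (hf : f = n + s)
    (g : K[X]) : ∃ c ∈ Algebra.adjoin K {f}, aeval f g = aeval s g + n * c := by
  set A := Algebra.adjoin K {f} with hA
  have hfA : f ∈ A := Algebra.self_mem_adjoin_singleton K f
  obtain ⟨c, hc⟩ := Polynomial.sub_dvd_eval_sub (⟨f, hfA⟩ : A) ⟨s, hs⟩ (g.map (algebraMap K A))
  rw [eval_map_algebraMap, eval_map_algebraMap] at hc
  have h1 := congrArg (Subtype.val) hc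
  have e1 : ((aeval (⟨f, hfA⟩ : A) g : A) : End K V) = aeval f g := by
    rw [Polynomial.aeval_subalgebra_coe]
  have e2 : ((aeval (⟨s, hs⟩ : A) g : A) : End K V) = aeval s g := by
    rw [Polynomial.aeval_subalgebra_coe]
  have e3 : f - s = n := by
    conv_lhs => rw [hf]
    rw [add_sub_cancel_right]
  have h2 : aeval f g - aeval s g = n * c.1 := by
    have : ((aeval (⟨f, hfA⟩ : A) g - aeval (⟨s, hs⟩ : A) g : A) : End K V) =
      (((⟨f, hfA⟩ : A) - ⟨s, hs⟩) * c : A) := h1
    rw [AddSubgroupClass.coe_sub, e1, e2] at this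
    rw [this]
    show (f - s) * c.1 = n * c.1
    rw [e3]
  refine ⟨c.1, c.2, ?_⟩
  rw [← h2]; abel

/-- a functional which detects the nilpotent part -/
theorem exists_functional {f fi : End K V} (hfi : f * fi = 1) (hfi' : fi * f = 1) (hf : ¬ f.IsSemisimple) :
    ∃ (F : End K V →ₗ[K] K) (w : End K V), F w ≠ 0 ∧ (∀ N : ℕ, F (f ^ N) = N * F (f ^ N * w)) ∧
      ∀ y ∈ Algebra.adjoin K {f}, y.IsSemisimple → F y = 0 := by
  obtain ⟨n, hn, s, hs, hnn, hss, hfe⟩ := f.exists_isNilpotent_isSemisimple
  have hn0 : n ≠ 0 := by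
    rintro rfl
    apply hf
    rw [hfe, zero_add]
    exact hss
  have hff : f ∈ Algebra.adjoin K {f} := Algebra.self_mem_adjoin_singleton K f
  have hnf : Commute n f := adj_comm hn hff
  have hfin : Commute fi n := by
    have h1 : fi * (n * f) * fi = fi * (f * n) * fi := by rw [hnf.eq]
    show fi * n = n * fi
    calc fi * n = fi * n * (f * fi) := by rw [hfi, mul_one]
      _ = fi * (n * f) * fi := by simp only [mul_assoc]
      _ = fi * (f * n) * fi := h1
      _ = (fi * f) * n * fi := by simp only [mul_assoc]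
      _ = n * fi := by rw [hfi', one_mul]
  have hficomm : ∀ b ∈ Algebra.adjoin K {f}, Commute fi b := by
    intro b hb
    have h0 : Commute b f := adj_comm hb hff
    have h1 : fi * (b * f) * fi = fi * (f * b) * fi := by rw [h0.eq]
    show fi * b = b * fi
    calc fi * b = fi * b * (f * fi) := by rw [hfi, mul_one]
      _ = fi * (b * f) * fi := by simp only [mul_assoc]
      _ = fi * (f * b) * fi := h1
      _ = (fi * f) * b * fi := by simp only [mul_assoc]
      _ = b * fi := by rw [hfi', one_mul]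
  set w := fi * n with hw
  let S1 : Submodule K (End K V) := Subalgebra.toSubmodule (Algebra.adjoin K {s})
  let S2 : Submodule K (End K V) := (Subalgebra.toSubmodule (Algebra.adjoin K {f})).map (LinearMap.mulLeft K (n * n))
  have hS2 : ∀ b ∈ Algebra.adjoin K {f}, n * n * b ∈ S2 := fun b hb => ⟨b, hb, rfl⟩
  have hsle : Algebra.adjoin K {s} ≤ Algebra.adjoin K {f} := by
    rw [Algebra.adjoin_le_iff]
    rintro x hx
    rw [Set.mem_singleton_iff.1 hx]
    exact hs
  have hwn : w ∉ S1 ⊔ S2 := by
    intro hmem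
    obtain ⟨a, ha, b', ⟨b, hb, rfl⟩, hab⟩ := Submodule.mem_sup.1 hmem
    have hab' : a + n * n * b = w := hab
    have hb' : b ∈ Algebra.adjoin K {f} := hb
    have ha' : a ∈ Algebra.adjoin K {s} := ha
    have hnb : Commute n b := adj_comm hn hb'
    have h1 : IsNilpotent w := (hfin.isNilpotent_mul_left hnn)
    have h2 : IsNilpotent (n * n * b) := by
      rw [mul_assoc]
      exact (Commute.mul_right (Commute.refl n) hnb).isNilpotent_mul_right hnn
    have h3 : Commute w (n * n * b) := by
      refine Commute.mul_left ?_ ?_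
      · exact hficomm _ (mul_mem (mul_mem hn hn) hb')
      · exact adj_comm hn (mul_mem (mul_mem hn hn) hb')
    have h4 : IsNilpotent a := by
      have : a = w - n * n * b := by rw [← hab']; abel
      rw [this]
      exact h3.isNilpotent_sub h1 h2
    have h5 : a = 0 := Module.End.eq_zero_of_isNilpotent_isSemisimple h4 (hss.of_mem_adjoin_singleton ha')
    rw [h5, zero_add] at hab'
    have h6 : n = n * (f * n * b) := by
      calc n = (f * fi) * n := by rw [hfi, one_mul]
        _ = f * (n * n * b) := by rw [hab', hw]; simp only [mul_assoc]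
        _ = (f * n) * (n * b) := by simp only [mul_assoc]
        _ = (n * f) * (n * b) := by rw [hnf.eq]
        _ = _ := by simp only [mul_assoc]
    have h7 : IsNilpotent (f * n * b) := by
      have h8 : IsNilpotent (f * n) := hnf.symm.isNilpotent_mul_left hnn
      have h9 : Commute (f * n) b := adj_comm (mul_mem hff hn) hb'
      exact h9.isNilpotent_mul_right h8
    have h8 : IsUnit (1 - f * n * b) := h7.isUnit_one_sub
    have h9 : n * (1 - f * n * b) = 0 := by rw [mul_sub, mul_one, ← h6, sub_self]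
    exact hn0 (by
      obtain ⟨u, hu⟩ := h8
      rw [← hu] at h9
      have := congrArg (· * (u⁻¹ : (End K V)ˣ).1) h9
      simpa [mul_assoc] using this)
  obtain ⟨F, hF, hFS⟩ := Submodule.exists_dual_map_eq_bot_of_notMem hwn inferInstance
  have hF1 : ∀ a ∈ Algebra.adjoin K {s}, F a = 0 := by
    intro a ha
    have : F a ∈ (S1 ⊔ S2).map F := ⟨a, Submodule.mem_sup_left ha, rfl⟩
    rw [hFS] at this
    exact (Submodule.mem_bot K).1 this
  have hF2 : ∀ b ∈ Algebra.adjoin K {f}, F (n * n * b) = 0 := by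
    intro b hb
    have : F (n * n * b) ∈ (S1 ⊔ S2).map F := ⟨_, Submodule.mem_sup_right (hS2 b hb), rfl⟩
    rw [hFS] at this
    exact (Submodule.mem_bot K).1 this
  have hexp : ∀ N : ℕ, ∃ b ∈ Algebra.adjoin K {f}, f ^ (N + 1) = s ^ (N + 1) + ((N + 1 : ℕ) : K) • (f ^ N * n) + n * n * b := by
    intro N
    induction N with
    | zero =>
      refine ⟨0, zero_mem _, ?_⟩
      rw [zero_add, pow_one, pow_one, pow_zero, one_mul, mul_zero, add_zero, Nat.cast_one, one_smul, add_comm]
      exact hfe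
    | succ N ih =>
      obtain ⟨b, hb, hb'⟩ := ih
      have hfN : f ^ N ∈ Algebra.adjoin K {f} := pow_mem hff N
      refine ⟨f * b - ((N + 1 : ℕ) : K) • f ^ N - n * b, ?_, ?_⟩
      · exact sub_mem (sub_mem (mul_mem hff hb) (Subalgebra.smul_mem _ hfN _)) (mul_mem hn hb)
      have hc1 : f * (n * n * b) = n * n * (f * b) := by
        have := adj_comm hff (mul_mem hn hn)
        rw [← mul_assoc, this.eq, mul_assoc]
      have hc2 : f * (f ^ N * n) = f ^ (N + 1) * n := by rw [← mul_assoc, ← pow_succ']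
      have hc3 : f * s ^ (N + 1) = s ^ (N + 2) + n * s ^ (N + 1) := by
        conv_lhs => rw [hfe]
        rw [add_mul, ← pow_succ', add_comm]
      have hc4 : s ^ (N + 1) = f ^ (N + 1) - ((N + 1 : ℕ) : K) • (f ^ N * n) - n * n * b := by
        rw [hb']; abel
      have hc5 : n * f ^ (N + 1) = f ^ (N + 1) * n := (hnf.pow_right _).eq
      have hc6 : n * (f ^ N * n) = n * n * f ^ N := by
        rw [← (hnf.pow_right N).eq, mul_assoc]
      calc f ^ (N + 1 + 1) = f * (s ^ (N + 1) + ((N + 1 : ℕ) : K) • (f ^ N * n) + n * n * b) := by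
            rw [← hb', ← pow_succ']
        _ = s ^ (N + 2) + n * s ^ (N + 1) + ((N + 1 : ℕ) : K) • (f ^ (N + 1) * n) + n * n * (f * b) := by
            rw [mul_add, mul_add, mul_smul_comm, hc1, hc2, hc3]
        _ = s ^ (N + 2) + (f ^ (N + 1) * n - ((N + 1 : ℕ) : K) • (n * n * f ^ N) - n * n * (n * b)) +
              ((N + 1 : ℕ) : K) • (f ^ (N + 1) * n) + n * n * (f * b) := by
            conv_lhs => rw [hc4]
            rw [mul_sub, mul_sub, mul_smul_comm, hc5, hc6]
            congr 4
        _ = _ := by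
            rw [mul_sub, mul_sub, mul_smul_comm]
            push_cast
            simp only [add_smul, one_smul]
            abel
  refine ⟨F, w, hF, ?_, ?_⟩
  · intro N
    rcases N with _ | N
    · rw [Nat.cast_zero, zero_mul, pow_zero]
      exact hF1 1 (one_mem _)
    · obtain ⟨b, hb, hb'⟩ := hexp N
      have e : f ^ (N + 1) * w = f ^ N * n := by
        rw [hw, pow_succ, mul_assoc, ← mul_assoc f, hfi, one_mul]
      rw [e]
      conv_lhs => rw [hb']
      rw [map_add, map_add, map_smul, hF1 _ (pow_mem (Algebra.self_mem_adjoin_singleton K s) _), hF2 b hb, zero_add,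
        add_zero, smul_eq_mul]
  · intro y hy hys
    rw [Algebra.adjoin_singleton_eq_range_aeval] at hy
    obtain ⟨g, rfl⟩ := hy
    obtain ⟨c, hc, hg⟩ := cmp hn hs hfe g
    have h1 : IsNilpotent (n * c) := (adj_comm hn hc).isNilpotent_mul_right hnn
    have hgs : aeval s g ∈ Algebra.adjoin K {s} := by
      rw [Algebra.adjoin_singleton_eq_range_aeval]
      exact ⟨g, rfl⟩
    have hgf : aeval f g ∈ Algebra.adjoin K {f} := by
      rw [Algebra.adjoin_singleton_eq_range_aeval]
      exact ⟨g, rfl⟩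
    have h2 : (aeval f g - aeval s g).IsSemisimple :=
      Module.End.IsSemisimple.sub_of_commute (adj_comm hgf (hsle hgs)) hys (hss.aeval g)
    have h3 : aeval f g - aeval s g = n * c := by rw [hg]; abel
    have h4 : aeval f g - aeval s g = 0 :=
      Module.End.eq_zero_of_isNilpotent_isSemisimple (by rw [h3]; exact h1) h2
    have h5 : aeval f g = aeval s g := sub_eq_zero.1 h4
    show F (aeval f g) = 0
    rw [h5]
    exact hF1 _ hgs

end alg

section lim

variable {E : Type*} [NontriviallyNormedField E] [CompleteSpace E] [CharZero E] {n : ℕ}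

theorem closed_mem {S : Submodule E (Matrix (Fin n) (Fin n) E)} {a : ℕ → Matrix (Fin n) (Fin n) E}
    {A : Matrix (Fin n) (Fin n) E} (ha : Tendsto a atTop (𝓝 A)) (h : ∀ k, a k ∈ S) : A ∈ S :=
  S.closed_of_finiteDimensional.mem_of_tendsto ha (Eventually.of_forall h)

/-- **A matrix with a semisimple logarithm is semisimple.** -/
theorem semisimple_of_log {M Mi Y : Matrix (Fin n) (Fin n) E} (hMi : M * Mi = 1) (hMi' : Mi * M = 1) {m : ℕ}
    (hm : 0 < m) {N : ℕ → ℕ} {ε : ℕ → E} (hε : ∀ k, ε k ≠ 0) (hNε : ∀ k, ((N k : ℕ) : E) = (m : E) * ε k)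
    (h1 : Tendsto (fun k => M ^ N k) atTop (𝓝 1))
    (hY : Tendsto (fun k => (ε k)⁻¹ • (M ^ N k - 1)) atTop (𝓝 Y))
    (hss : Module.End.IsSemisimple (Matrix.toLin' Y)) : Module.End.IsSemisimple (Matrix.toLin' M) := by
  by_contra hns
  have hfi : Matrix.toLin' M * Matrix.toLin' Mi = 1 := by
    rw [Module.End.mul_eq_comp, ← Matrix.toLin'_mul, hMi, Matrix.toLin'_one]
    rfl
  have hfi' : Matrix.toLin' Mi * Matrix.toLin' M = 1 := by
    rw [Module.End.mul_eq_comp, ← Matrix.toLin'_mul, hMi', Matrix.toLin'_one]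
    rfl
  obtain ⟨F, w, hF, hFN, hFy⟩ := exists_functional hfi hfi' hns
  let φ : Matrix (Fin n) (Fin n) E →ₗ[E] E := F.comp (Matrix.toLin' : Matrix (Fin n) (Fin n) E ≃ₗ[E] _).toLinearMap
  have hφ : Continuous φ := LinearMap.continuous_of_finiteDimensional φ
  set W : Matrix (Fin n) (Fin n) E := LinearMap.toMatrix' w with hW
  have hpow : ∀ k : ℕ, Matrix.toLin' (M ^ k) = Matrix.toLin' M ^ k := fun k => Matrix.toLin'_pow M k
  have hφ1 : φ 1 = 0 := by
    have := hFN 0
    rw [pow_zero, Nat.cast_zero, zero_mul] at this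
    show F (Matrix.toLin' 1) = 0
    rw [Matrix.toLin'_one]
    exact this
  have hY' : Matrix.toLin' Y ∈ Algebra.adjoin E {Matrix.toLin' M} := by
    have h2 : Y ∈ (Subalgebra.toSubmodule (Algebra.adjoin E {M})) := by
      refine closed_mem hY fun k => ?_
      refine Submodule.smul_mem _ _ ?_
      exact sub_mem (pow_mem (Algebra.self_mem_adjoin_singleton E M) _) (one_mem (Algebra.adjoin E {M}))
    have h3 : Y ∈ Algebra.adjoin E {M} := h2
    rw [Algebra.adjoin_singleton_eq_range_aeval] at h3 ⊢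
    obtain ⟨g, rfl⟩ := h3
    exact ⟨g, aeval_toLin M g⟩
  have hlim1 : Tendsto (fun k => φ ((ε k)⁻¹ • (M ^ N k - 1))) atTop (𝓝 0) := by
    have h2 := (hφ.tendsto Y).comp hY
    have h3 : φ Y = 0 := hFy _ hY' hss
    rwa [h3] at h2
  have hlim2 : Tendsto (fun k => (m : E) * φ (M ^ N k * W)) atTop (𝓝 ((m : E) * F w)) := by
    have h2 := ((hφ.tendsto _).comp (h1.mul (tendsto_const_nhds (x := W)))).const_mul (m : E)
    have h3 : φ (1 * W) = F w := by
      rw [one_mul]
      show F (Matrix.toLin' W) = F w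
      rw [hW, Matrix.toLin'_toMatrix']
    rwa [h3] at h2
  have heq : ∀ k, φ ((ε k)⁻¹ • (M ^ N k - 1)) = (m : E) * φ (M ^ N k * W) := by
    intro k
    rw [map_smul, map_sub, hφ1, sub_zero]
    have h2 : φ (M ^ N k) = ((N k : ℕ) : E) * φ (M ^ N k * W) := by
      have h3 := hFN (N k)
      show F (Matrix.toLin' (M ^ N k)) = _ * F (Matrix.toLin' (M ^ N k * W))
      rw [Matrix.toLin'_mul, hpow, h3, hW, Matrix.toLin'_toMatrix']
      rfl
    rw [h2, hNε, smul_eq_mul, mul_assoc, mul_left_comm (m : E), ← mul_assoc, inv_mul_cancel₀ (hε k), one_mul]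
  have h5 := tendsto_nhds_unique (hlim1.congr heq) hlim2
  have hm0 : (m : E) ≠ 0 := by exact_mod_cast hm.ne'
  exact (mul_ne_zero hm0 hF) h5.symm

end lim

end Pool.Agent.X320.FS
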