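import Pool.Agent.X320.FS.LieP
import Pool.Agent.X320.FS.Semi
import Pool.Agent.X320.KR.Main

/-! An element of a compact linear group with a maximal number of eigenvalues is semisimple. -/

set_option autoImplicit false
set_option linter.all false

namespace Pool.Agent.X320.FS

open Module Polynomial Filter Topology Pool.Agent.X320.KR Pool.Agent.X320.DS

section ndeg

variable {K V : Type*} [Field K] [CharZero K] [AddCommGroup V] [Module K V] [FiniteDimensional K V]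

/-- the number of different eigenvalues -/
noncomputable def ndeg (f : End K V) : ℕ := (exists_rad f).choose.natDegree

theorem ndeg_det (f : End K V) : (hank (ndeg f) f).det ≠ 0 := (exists_rad f).choose_spec.det_ne

theorem le_ndeg (f : End K V) {r : ℕ} (h : (hank r f).det ≠ 0) : r ≤ ndeg f :=
  (exists_rad f).choose_spec.le_of_det_ne h

end ndeg

section group

variable {Γ : Type*} [Group Γ] {p : ℕ} [hp : Fact p.Prime] {E : Type*} [NontriviallyNormedField E]
  [CompleteSpace E] [IsUltrametricDist E] [NormedAlgebra ℚ_[p] E] [CharZero E] {n : ℕ} {ρ : Γ →* GL (Fin n) E}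

omit [CompleteSpace E] in
theorem orth_log {x u : Γ} {Y : Matrix (Fin n) (Fin n) E} (hY : IsLog p (ρ u : Matrix (Fin n) (Fin n) E) Y)
    (h : ∀ᶠ k : ℕ in atTop, ndeg (Matrix.toLin' (ρ (x * u ^ p ^ k) : Matrix (Fin n) (Fin n) E)) =
      ndeg (Matrix.toLin' (ρ x : Matrix (Fin n) (Fin n) E))) {y : Matrix (Fin n) (Fin n) E}
    (hy : y ∈ Algebra.adjoin E {(ρ x : Matrix (Fin n) (Fin n) E)}) (hyn : IsNilpotent y) : (y * Y).trace = 0 := by
  set M : Matrix (Fin n) (Fin n) E := (ρ x : Matrix (Fin n) (Fin n) E) with hMdef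
  set Mk : ℕ → Matrix (Fin n) (Fin n) E := fun k => (ρ (x * u ^ p ^ k) : Matrix (Fin n) (Fin n) E) with hMk
  have hpk : ∀ k, Mk k = M * (ρ u : Matrix (Fin n) (Fin n) E) ^ p ^ k := by
    intro k
    rw [hMk]
    show (ρ (x * u ^ p ^ k) : Matrix (Fin n) (Fin n) E) = _
    rw [map_mul, Units.val_mul, map_pow, Units.val_pow_eq_pow_val]
  have hlim : Tendsto Mk atTop (𝓝 M) := by
    have h1 := (tendsto_const_nhds (x := M)).mul hY.pow_tendsto
    rw [mul_one] at h1
    exact h1.congr fun k => (hpk k).symm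
  have hZ : Tendsto (fun k => ((p : E) ^ k)⁻¹ • (Mk k - M)) atTop (𝓝 (M * Y)) := by
    have h1 := (tendsto_const_nhds (x := M)).mul hY
    refine h1.congr fun k => ?_
    rw [hpk, mul_smul_comm, mul_sub, mul_one]
  have horth := orth hlim hZ (exists_rad (Matrix.toLin' M)).choose_spec
    (Qk := fun k => (exists_rad (Matrix.toLin' (Mk k))).choose)
    (h.mono fun k hk => ⟨(exists_rad (Matrix.toLin' (Mk k))).choose_spec, hk⟩) 1 one_pos
  set Q := (exists_rad (Matrix.toLin' M)).choose with hQ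
  have hQs : IsRad (Matrix.toLin' M) Q := (exists_rad (Matrix.toLin' M)).choose_spec
  rw [Algebra.adjoin_singleton_eq_range_aeval] at hy
  obtain ⟨g0, hg0⟩ := hy
  have hg0' : aeval M g0 = y := hg0
  have hnil : IsNilpotent (aeval (Matrix.toLin' M) g0) := by
    obtain ⟨N, hN⟩ := hyn
    refine ⟨N, ?_⟩
    rw [aeval_toLin, hg0', ← Matrix.toLin'_pow, hN, map_zero]
  obtain ⟨g1, hg1⟩ := hQs.dvd g0 hnil
  have hco : IsCoprime (X : E[X]) M.charpoly := by
    refine (Polynomial.prime_X.irreducible.coprime_iff_not_dvd).2 ?_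
    rw [Polynomial.X_dvd_iff]
    intro h0
    have h1 := Matrix.det_eq_sign_charpoly_coeff M
    rw [h0, mul_zero] at h1
    have h2 : IsUnit M.det := (Matrix.isUnit_iff_isUnit_det M).1 (ρ x).isUnit
    rw [h1] at h2
    exact not_isUnit_zero h2
  obtain ⟨a, b, hab⟩ := hco
  have e : aeval M g0 = aeval M (Q ^ 1 * (g1 * a)) * M := by
    have e1 : g0 = Q ^ 1 * (g1 * a) * X + (Q * g1 * b) * M.charpoly := by
      calc g0 = Q * g1 * (a * X + b * M.charpoly) := by rw [hab, mul_one, hg1]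
        _ = _ := by ring
    conv_lhs => rw [e1]
    rw [map_add, map_mul _ _ M.charpoly, Matrix.aeval_self_charpoly, mul_zero, add_zero, map_mul _ _ X, aeval_X]
  rw [← hg0', e, mul_assoc]
  exact horth _

theorem orth_lie {U : Subgroup Γ} {x : Γ}
    (h : ∀ u ∈ U, ∀ᶠ k : ℕ in atTop, ndeg (Matrix.toLin' (ρ (x * u ^ p ^ k) : Matrix (Fin n) (Fin n) E)) =
      ndeg (Matrix.toLin' (ρ x : Matrix (Fin n) (Fin n) E))) {y : Matrix (Fin n) (Fin n) E}
    (hy : y ∈ Algebra.adjoin E {(ρ x : Matrix (Fin n) (Fin n) E)}) (hyn : IsNilpotent y)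
    {X : Matrix (Fin n) (Fin n) E} (hX : X ∈ lieSpan ρ p U) : (y * X).trace = 0 := by
  refine Submodule.span_induction (p := fun X _ => (y * X).trace = 0) ?_ ?_ ?_ ?_ hX
  · rintro Y ⟨u, hu, hY⟩
    exact orth_log hY (h u hu) hy hyn
  · rw [mul_zero, Matrix.trace_zero]
  · intro X Y _ _ h h'
    rw [mul_add, Matrix.trace_add, h, h', add_zero]
  · intro c X _ h
    rw [mul_smul_comm, Matrix.trace_smul, h, smul_zero]

/-- **The local theorem.** -/
theorem local_ss_of (hA : ∀ z ∈ alg ρ, (∀ a ∈ alg ρ, LinearMap.trace E (Fin n → E) (a * z) = 0) → z = 0)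
    {U : Subgroup Γ} (hU : U.Normal)
    (hcl : ∀ u ∈ U, Dv (rad p) ((ρ u : Matrix (Fin n) (Fin n) E) - 1)) (x : Γ) {m : ℕ} (hm : 0 < m) (hx : x ^ m ∈ U)
    (h : ∀ u ∈ U, ∀ᶠ k : ℕ in atTop, ndeg (Matrix.toLin' (ρ (x * u ^ p ^ k) : Matrix (Fin n) (Fin n) E)) =
      ndeg (Matrix.toLin' (ρ x : Matrix (Fin n) (Fin n) E))) :
    Module.End.IsSemisimple (Matrix.toLin' (ρ x : Matrix (Fin n) (Fin n) E)) := by
  set M : Matrix (Fin n) (Fin n) E := (ρ x : Matrix (Fin n) (Fin n) E) with hMdef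
  obtain ⟨Y, hY⟩ := exists_log (hcl _ hx)
  have hpw : ∀ (g : Γ) (q : ℕ), (ρ g : Matrix (Fin n) (Fin n) E) ^ q = (ρ (g ^ q) : Matrix (Fin n) (Fin n) E) := by
    intro g q
    rw [map_pow, Units.val_pow_eq_pow_val]
  have hYL : Y ∈ lieSpan ρ p U := Submodule.subset_span ⟨_, hx, hY⟩
  -- `Y` is a polynomial in `M`
  have hYM : Y ∈ Algebra.adjoin E {M} := by
    have h1 : Y ∈ Subalgebra.toSubmodule (Algebra.adjoin E {M}) := by
      refine closed_mem hY fun k => ?_
      refine Submodule.smul_mem _ _ (sub_mem ?_ (one_mem (Algebra.adjoin E {M})))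
      rw [← hpw x m]
      exact pow_mem (pow_mem (Algebra.self_mem_adjoin_singleton E M) _) _
    exact h1
  obtain ⟨ν, hν, s, hs, hνn, hsss, hYns⟩ := Module.End.exists_isNilpotent_isSemisimple (f := (Matrix.toLin' Y : End E (Fin n → E)))
  have hνs : Commute ν s := adj_comm hν hs
  -- the matrix of `ν`
  set N : Matrix (Fin n) (Fin n) E := LinearMap.toMatrix' ν with hN
  have hNν : Matrix.toLin' N = ν := by rw [hN, Matrix.toLin'_toMatrix']
  have hNY : N ∈ Algebra.adjoin E {Y} := by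
    have h1 := hν
    rw [Algebra.adjoin_singleton_eq_range_aeval] at h1 ⊢
    obtain ⟨g, hg⟩ := h1
    refine ⟨g, ?_⟩
    apply Matrix.toLin'.injective
    rw [hNν]
    have : aeval (Matrix.toLin' Y : End E (Fin n → E)) g = ν := hg
    rw [← this, aeval_toLin]
    rfl
  have hle : Algebra.adjoin E {Y} ≤ Algebra.adjoin E {M} := by
    rw [Algebra.adjoin_le_iff]
    rintro z hz
    rw [Set.mem_singleton_iff.1 hz]
    exact hYM
  have hNn : IsNilpotent N := by
    obtain ⟨k, hk⟩ := hνn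
    refine ⟨k, ?_⟩
    apply Matrix.toLin'.injective
    rw [Matrix.toLin'_pow, hNν, hk, map_zero]
  -- the algebraic theorem
  set G : Submodule E (End E (Fin n → E)) := (lieSpan ρ p U).map (Matrix.toLin' : Matrix (Fin n) (Fin n) E ≃ₗ[E] _).toLinearMap
    with hG
  have hτ : ∀ a ∈ alg ρ, a ∈ Submodule.span E (Set.range (toEnd ρ)) := by
    intro a ha
    rw [← alg_eq_span]
    exact ha
  have hρA : ∀ g, Matrix.toLin' (ρ g : Matrix (Fin n) (Fin n) E) ∈ alg ρ := fun g => Algebra.subset_adjoin ⟨g, rfl⟩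
  have hlogA : ∀ (V : Subgroup Γ) (u : Γ) (Z : Matrix (Fin n) (Fin n) E), IsLog p (ρ u : Matrix (Fin n) (Fin n) E) Z →
      Matrix.toLin' Z ∈ alg ρ := by
    intro V u Z hZ
    let S : Submodule E (Matrix (Fin n) (Fin n) E) := (Subalgebra.toSubmodule (alg ρ)).comap
      (Matrix.toLin' : Matrix (Fin n) (Fin n) E ≃ₗ[E] _).toLinearMap
    have h1 : Z ∈ S := by
      refine closed_mem hZ fun k => ?_
      refine S.smul_mem _ (S.sub_mem ?_ ?_)
      · rw [hpw]
        exact hρA _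
      · show Matrix.toLin' (1 : Matrix (Fin n) (Fin n) E) ∈ alg ρ
        have := hρA 1
        rwa [map_one, Units.val_one] at this
    exact h1
  have hGA : ∀ X ∈ G, X ∈ alg ρ := by
    rintro _ ⟨X, hX, rfl⟩
    refine Submodule.span_induction (p := fun X _ => Matrix.toLin' X ∈ alg ρ) ?_ ?_ ?_ ?_ hX
    · rintro Z ⟨u, hu, hZ⟩
      exact hlogA U u Z hZ
    · rw [map_zero]; exact zero_mem _
    · intro X Z _ _ h h'
      rw [map_add]
      exact add_mem h h'
    · intro c X _ h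
      rw [map_smul]
      exact Subalgebra.smul_mem _ h c
  have hbr : ∀ X ∈ G, ∀ Z ∈ G, X * Z - Z * X ∈ G := by
    rintro _ ⟨X, hX, rfl⟩ _ ⟨Z, hZ, rfl⟩
    refine ⟨X * Z - Z * X, lie_bracket hU hcl hZ hX, ?_⟩
    show Matrix.toLin' (X * Z - Z * X) = _
    rw [map_sub, Matrix.toLin'_mul, Matrix.toLin'_mul]
    rfl
  have hconj : ∀ g, ∀ X ∈ G, toEnd ρ g * X * toEnd ρ g⁻¹ ∈ G := by
    rintro g _ ⟨X, hX, rfl⟩
    refine ⟨_, lie_conj hU g hX, ?_⟩
    show Matrix.toLin' ((ρ g : Matrix (Fin n) (Fin n) E) * X * (ρ g⁻¹ : Matrix (Fin n) (Fin n) E)) = _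
    rw [Matrix.toLin'_mul, Matrix.toLin'_mul]
    rfl
  have htr : ∀ X ∈ G, LinearMap.trace E (Fin n → E) (ν * X) = 0 := by
    rintro _ ⟨X, hX, rfl⟩
    have h1 := orth_lie h (hle hNY) hNn hX
    have h2 : ν * Matrix.toLin' X = Matrix.toLin' (N * X) := by
      rw [Matrix.toLin'_mul, hNν]
      rfl
    show LinearMap.trace E (Fin n → E) (ν * Matrix.toLin' X) = 0
    rw [h2, trace_toLin, h1]
  have hmain := lie_main hA hτ G hGA hbr hconj (Y := Matrix.toLin' Y) ⟨Y, hYL, rfl⟩ hYns hνs hνn hsss htr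
  -- `N` commutes with the group `U`
  have hNU : ∀ u ∈ U, (ρ u : Matrix (Fin n) (Fin n) E) * N = N * (ρ u : Matrix (Fin n) (Fin n) E) := by
    intro u hu
    obtain ⟨Z, hZ⟩ := exists_log (hcl u hu)
    refine comm_of_log (hcl u hu) hZ ?_
    have h1 := hmain (Matrix.toLin' Z) ⟨Z, Submodule.subset_span ⟨u, hu, hZ⟩, rfl⟩
    apply Matrix.toLin'.injective
    rw [Matrix.toLin'_mul, Matrix.toLin'_mul, hNν]
    exact h1.symm
  -- the algebra of the group `U`
  set AU : Subalgebra E (Matrix (Fin n) (Fin n) E) :=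
    Algebra.adjoin E ((fun u => (ρ u : Matrix (Fin n) (Fin n) E)) '' (U : Set Γ)) with hAU
  have hYU : Y ∈ AU := by
    have h1 : Y ∈ Subalgebra.toSubmodule AU := by
      refine closed_mem hY fun k => ?_
      refine Submodule.smul_mem _ _ (sub_mem ?_ (one_mem AU))
      exact pow_mem (Algebra.subset_adjoin ⟨_, hx, rfl⟩ : _ ∈ AU) _
    exact h1
  have hNAU : N ∈ AU := by
    have h1 : Algebra.adjoin E {Y} ≤ AU := by
      rw [Algebra.adjoin_le_iff]
      rintro z hz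
      rw [Set.mem_singleton_iff.1 hz]
      exact hYU
    exact h1 hNY
  have hcj : ∀ g, ∀ z ∈ AU, (ρ g : Matrix (Fin n) (Fin n) E) * z * (ρ g⁻¹ : Matrix (Fin n) (Fin n) E) ∈ AU := by
    intro g z hz
    induction hz using Algebra.adjoin_induction with
    | mem z hz =>
      obtain ⟨u, hu, rfl⟩ := hz
      refine Algebra.subset_adjoin ⟨g * u * g⁻¹, hU.conj_mem u hu g, ?_⟩
      show (ρ (g * u * g⁻¹) : Matrix (Fin n) (Fin n) E) = _
      rw [val_mul, val_mul]
    | algebraMap r =>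
      have e : (ρ g : Matrix (Fin n) (Fin n) E) * (algebraMap E (Matrix (Fin n) (Fin n) E) r) *
          (ρ g⁻¹ : Matrix (Fin n) (Fin n) E) = algebraMap E (Matrix (Fin n) (Fin n) E) r := by
        rw [← Algebra.commutes, mul_assoc, val_mul_inv, mul_one]
      rw [e]
      exact AU.algebraMap_mem r
    | add a b _ _ ha hb =>
      rw [mul_add, add_mul]
      exact add_mem ha hb
    | mul a b _ _ ha hb =>
      have e : (ρ g : Matrix (Fin n) (Fin n) E) * (a * b) * (ρ g⁻¹ : Matrix (Fin n) (Fin n) E) =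
          ((ρ g : Matrix (Fin n) (Fin n) E) * a * (ρ g⁻¹ : Matrix (Fin n) (Fin n) E)) *
          ((ρ g : Matrix (Fin n) (Fin n) E) * b * (ρ g⁻¹ : Matrix (Fin n) (Fin n) E)) := by
        calc (ρ g : Matrix (Fin n) (Fin n) E) * (a * b) * (ρ g⁻¹ : Matrix (Fin n) (Fin n) E) =
            (ρ g : Matrix (Fin n) (Fin n) E) * a * ((ρ g⁻¹ : Matrix (Fin n) (Fin n) E) *
              (ρ g : Matrix (Fin n) (Fin n) E)) * b * (ρ g⁻¹ : Matrix (Fin n) (Fin n) E) := by
              rw [val_inv_mul, mul_one]; simp only [mul_assoc]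
          _ = _ := by simp only [mul_assoc]
      rw [e]
      exact mul_mem ha hb
  have hNcent : ∀ z ∈ AU, z * N = N * z := by
    intro z hz
    induction hz using Algebra.adjoin_induction with
    | mem z hz =>
      obtain ⟨u, hu, rfl⟩ := hz
      exact hNU u hu
    | algebraMap r => exact Algebra.commutes r N
    | add a b _ _ ha hb => rw [add_mul, mul_add, ha, hb]
    | mul a b _ _ ha hb => rw [mul_assoc, hb, ← mul_assoc, ha, mul_assoc]
  have hcomm : ∀ g g' : Γ, ((ρ g : Matrix (Fin n) (Fin n) E) * N * (ρ g⁻¹ : Matrix (Fin n) (Fin n) E)) *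
      ((ρ g' : Matrix (Fin n) (Fin n) E) * N * (ρ g'⁻¹ : Matrix (Fin n) (Fin n) E)) =
      ((ρ g' : Matrix (Fin n) (Fin n) E) * N * (ρ g'⁻¹ : Matrix (Fin n) (Fin n) E)) *
      ((ρ g : Matrix (Fin n) (Fin n) E) * N * (ρ g⁻¹ : Matrix (Fin n) (Fin n) E)) := by
    intro g g'
    have h1 := hNcent _ (hcj (g'⁻¹ * g) N hNAU)
    have hr : (ρ g'⁻¹ : Matrix (Fin n) (Fin n) E) * (ρ g' : Matrix (Fin n) (Fin n) E) = 1 := val_inv_mul g'
    have hr' : (ρ g' : Matrix (Fin n) (Fin n) E) * (ρ g'⁻¹ : Matrix (Fin n) (Fin n) E) = 1 := val_mul_inv g'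
    rw [mul_inv_rev, inv_inv, val_mul, val_mul] at h1
    have h2 := congrArg (fun z => (ρ g' : Matrix (Fin n) (Fin n) E) * z * (ρ g'⁻¹ : Matrix (Fin n) (Fin n) E)) h1
    have e1 : (ρ g' : Matrix (Fin n) (Fin n) E) * ((ρ g'⁻¹ : Matrix (Fin n) (Fin n) E) *
        (ρ g : Matrix (Fin n) (Fin n) E) * N * ((ρ g⁻¹ : Matrix (Fin n) (Fin n) E) * (ρ g' : Matrix (Fin n) (Fin n) E)) * N) *
        (ρ g'⁻¹ : Matrix (Fin n) (Fin n) E) = ((ρ g : Matrix (Fin n) (Fin n) E) * N * (ρ g⁻¹ : Matrix (Fin n) (Fin n) E)) *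
      ((ρ g' : Matrix (Fin n) (Fin n) E) * N * (ρ g'⁻¹ : Matrix (Fin n) (Fin n) E)) := by
      simp only [← mul_assoc]
      rw [hr', one_mul]
    have e2 : (ρ g' : Matrix (Fin n) (Fin n) E) * (N * ((ρ g'⁻¹ : Matrix (Fin n) (Fin n) E) *
        (ρ g : Matrix (Fin n) (Fin n) E) * N * ((ρ g⁻¹ : Matrix (Fin n) (Fin n) E) * (ρ g' : Matrix (Fin n) (Fin n) E)))) *
        (ρ g'⁻¹ : Matrix (Fin n) (Fin n) E) = ((ρ g' : Matrix (Fin n) (Fin n) E) * N * (ρ g'⁻¹ : Matrix (Fin n) (Fin n) E)) *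
      ((ρ g : Matrix (Fin n) (Fin n) E) * N * (ρ g⁻¹ : Matrix (Fin n) (Fin n) E)) := by
      simp only [mul_assoc]
      rw [hr', mul_one]
    rw [← e1, ← e2]
    exact h2
  -- the conjugates of `N`
  have hcE : ∀ g, toEnd ρ g * ν * toEnd ρ g⁻¹ =
      Matrix.toLin' ((ρ g : Matrix (Fin n) (Fin n) E) * N * (ρ g⁻¹ : Matrix (Fin n) (Fin n) E)) := by
    intro g
    rw [Matrix.toLin'_mul, Matrix.toLin'_mul, hNν]
    rfl
  have hνA : ν ∈ alg ρ := by
    have h1 : Matrix.toLin' Y ∈ alg ρ := hlogA U _ Y hY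
    have h2 : Algebra.adjoin E {(Matrix.toLin' Y : End E (Fin n → E))} ≤ alg ρ := by
      rw [Algebra.adjoin_le_iff]
      rintro z hz
      rw [Set.mem_singleton_iff.1 hz]
      exact h1
    exact h2 hν
  have hν0 : ν = 0 := by
    refine conj_zero hA hτ (D := {z | ∃ g, z = toEnd ρ g * ν * toEnd ρ g⁻¹}) ?_ ?_ (N := finrank E (Fin n → E) + 1) ?_ ν ?_
    · rintro _ ⟨g, rfl⟩
      exact mul_mem (mul_mem (hρA g) hνA) (hρA g⁻¹)
    · rintro g _ ⟨g', rfl⟩
      refine ⟨g * g', ?_⟩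
      rw [mul_inv_rev, map_mul, map_mul]
      simp only [mul_assoc]
    · intro l hl hlen
      have hpow : ∀ (g : Γ) (m : ℕ), (toEnd ρ g * ν * toEnd ρ g⁻¹) ^ m = toEnd ρ g * ν ^ m * toEnd ρ g⁻¹ := by
        intro g m
        have e : toEnd ρ g⁻¹ * toEnd ρ g = 1 := by rw [← map_mul, inv_mul_cancel, map_one]
        have e' : toEnd ρ g * toEnd ρ g⁻¹ = 1 := by rw [← map_mul, mul_inv_cancel, map_one]
        induction m with
        | zero => rw [pow_zero, pow_zero, mul_one, e']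
        | succ m ih =>
          rw [pow_succ, ih, pow_succ]
          calc toEnd ρ g * ν ^ m * toEnd ρ g⁻¹ * (toEnd ρ g * ν * toEnd ρ g⁻¹) =
              toEnd ρ g * ν ^ m * (toEnd ρ g⁻¹ * toEnd ρ g) * ν * toEnd ρ g⁻¹ := by simp only [mul_assoc]
            _ = _ := by rw [e, mul_one]; simp only [mul_assoc]
      rcases prod_zero (D := {z | ∃ g, z = toEnd ρ g * ν * toEnd ρ g⁻¹}) (by
        rintro _ ⟨g, rfl⟩
        obtain ⟨k, hk⟩ := hνn
        exact ⟨k, by rw [hpow, hk, mul_zero, zero_mul]⟩) (by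
        rintro _ ⟨g, rfl⟩ _ ⟨g', rfl⟩
        rw [hcE, hcE]
        show Matrix.toLin' _ ∘ₗ Matrix.toLin' _ = Matrix.toLin' _ ∘ₗ Matrix.toLin' _
        rw [← Matrix.toLin'_mul, ← Matrix.toLin'_mul, hcomm]) l hl with h | h
      · exact h
      · omega
    · exact ⟨1, by rw [inv_one, map_one, one_mul, mul_one]⟩
  have hYss : Module.End.IsSemisimple (Matrix.toLin' Y) := by
    rw [hYns, hν0, zero_add]
    exact hsss
  -- conclusion
  have hMi : M * (ρ x⁻¹ : Matrix (Fin n) (Fin n) E) = 1 := val_mul_inv x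
  have hMi' : (ρ x⁻¹ : Matrix (Fin n) (Fin n) E) * M = 1 := val_inv_mul x
  have hpe := p_ne (p := p) (E := E)
  have hpow2 : ∀ k, M ^ (m * p ^ k) = (ρ (x ^ m) : Matrix (Fin n) (Fin n) E) ^ p ^ k := by
    intro k
    rw [pow_mul, ← hpw x m]
  refine semisimple_of_log hMi hMi' hm (N := fun k => m * p ^ k) (ε := fun k => (p : E) ^ k)
    (fun k => pow_ne_zero _ hpe) (fun k => by push_cast; rfl) ?_ (Y := Y) ?_ hYss
  · refine hY.pow_tendsto.congr fun k => (hpow2 k).symm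
  · refine Tendsto.congr (fun k => ?_) hY
    rw [hpow2]

theorem local_ss (hss : Semisimple ρ) {U : Subgroup Γ} (hU : U.Normal)
    (hcl : ∀ u ∈ U, Dv (rad p) ((ρ u : Matrix (Fin n) (Fin n) E) - 1)) (x : Γ) {m : ℕ} (hm : 0 < m) (hx : x ^ m ∈ U)
    (h : ∀ u ∈ U, ∀ᶠ k : ℕ in atTop, ndeg (Matrix.toLin' (ρ (x * u ^ p ^ k) : Matrix (Fin n) (Fin n) E)) =
      ndeg (Matrix.toLin' (ρ x : Matrix (Fin n) (Fin n) E))) :
    Module.End.IsSemisimple (Matrix.toLin' (ρ x : Matrix (Fin n) (Fin n) E)) :=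
  local_ss_of (fun z hz hz' => trace_nondeg hss (by exact_mod_cast n.factorial_ne_zero) hz hz') hU hcl x hm hx h

end group

end Pool.Agent.X320.FS
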