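import Pool.Agent.X320.FS.App

/-! Filtered representations. -/

set_option autoImplicit false
set_option linter.all false

namespace Pool.Agent.X320.FS

open Module Polynomial Filter Topology NumberField IsDedekindDomain Matrix
open Pool.Agent.W401.Cheb Pool.Agent.X320.DS

section

variable {F V : Type*} [Field F] [AddCommGroup V] [Module F V] {m : ℕ} {n : Fin m → ℕ}

theorem aeval_stable {f : V →ₗ[F] V} {W : Submodule F V} (h : ∀ x ∈ W, f x ∈ W) (g : F[X]) :
    ∀ x ∈ W, aeval f g x ∈ W := by
  induction g using Polynomial.induction_on' with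
  | add p q hp hq =>
    intro x hx
    rw [map_add, LinearMap.add_apply]
    exact W.add_mem (hp x hx) (hq x hx)
  | monomial k c =>
    intro x hx
    rw [aeval_monomial, ← Algebra.smul_def, LinearMap.smul_apply]
    refine W.smul_mem c ?_
    induction k with
    | zero => rw [pow_zero]; exact hx
    | succ k ih =>
      rw [pow_succ', Module.End.mul_apply]
      exact h _ ih

theorem aeval_intertwine {V' : Type*} [AddCommGroup V'] [Module F V'] {f : V →ₗ[F] V} {f' : V' →ₗ[F] V'}
    {W : Submodule F V} (h : ∀ x ∈ W, f x ∈ W) (φ : V →ₗ[F] V') (hφ : ∀ x ∈ W, φ (f x) = f' (φ x)) (g : F[X]) :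
    ∀ x ∈ W, φ (aeval f g x) = aeval f' g (φ x) := by
  induction g using Polynomial.induction_on' with
  | add p q hp hq =>
    intro x hx
    rw [map_add, map_add, LinearMap.add_apply, LinearMap.add_apply, map_add, hp x hx, hq x hx]
  | monomial k c =>
    intro x hx
    rw [aeval_monomial, aeval_monomial, ← Algebra.smul_def, ← Algebra.smul_def, LinearMap.smul_apply,
      LinearMap.smul_apply, map_smul]
    congr 1
    have h1 : ∀ k : ℕ, (f ^ k) x ∈ W ∧ φ ((f ^ k) x) = (f' ^ k) (φ x) := by
      intro k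
      induction k with
      | zero => exact ⟨by rw [pow_zero]; exact hx, by rw [pow_zero, pow_zero]; rfl⟩
      | succ k ih =>
        rw [pow_succ', pow_succ', Module.End.mul_apply, Module.End.mul_apply]
        exact ⟨h _ ih.1, by rw [hφ _ ih.1, ih.2]⟩
    exact (h1 k).2

/-- An endomorphism of a filtered space is semisimple if the graded pieces embed in spaces with semisimple
endomorphisms with pairwise coprime characteristic polynomials. -/
theorem ss_filtered [PerfectField F] [FiniteDimensional F V] (f : V →ₗ[F] V)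
    (M : ∀ j, Matrix (Fin (n j)) (Fin (n j)) F) (W : Fin (m + 1) → Submodule F V) (h0 : W 0 = ⊥)
    (hm : W (Fin.last m) = ⊤) (φ : ∀ j : Fin m, V →ₗ[F] (Fin (n j) → F)) (hst : ∀ j, ∀ x ∈ W j, f x ∈ W j)
    (hφ0 : ∀ j : Fin m, ∀ x ∈ W j.succ, φ j x = 0 → x ∈ W j.castSucc)
    (hφ : ∀ j : Fin m, ∀ x ∈ W j.succ, φ j (f x) = M j *ᵥ φ j x)
    (hss : ∀ j, Module.End.IsSemisimple (Matrix.toLin' (M j)))
    (hcop : ∀ i j, i ≠ j → IsCoprime (M i).charpoly (M j).charpoly) : Module.End.IsSemisimple f := by
  classical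
  let p : Fin m → F[X] := fun j => minpoly F (Matrix.toLin' (M j))
  have hsq : ∀ j, Squarefree (p j) := fun j => (hss j).minpoly_squarefree
  have hdvd : ∀ j, p j ∣ (M j).charpoly := fun j => minpoly.dvd _ _ (by
    rw [aeval_toLin2, Matrix.aeval_self_charpoly, map_zero])
  have hcop' : ∀ i j, i ≠ j → IsCoprime (p i) (p j) := fun i j hij =>
    ((hcop i j hij).of_isCoprime_of_dvd_left (hdvd i)).of_isCoprime_of_dvd_right (hdvd j)
  have hprod : Squarefree (∏ j : Fin m, p j) :=
    Finset.squarefree_prod_of_pairwise_isCoprime (fun i _ j _ hij => (hcop' i j hij).isRelPrime) fun j _ => hsq j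
  refine Module.End.isSemisimple_of_squarefree_aeval_eq_zero hprod ?_
  have key : ∀ k : Fin (m + 1), ∀ x ∈ W k, aeval f (∏ j ∈ Finset.univ.filter (fun j : Fin m => j.val < k.val), p j) x = 0 := by
    intro k
    induction k using Fin.induction with
    | zero =>
      intro x hx
      rw [h0, Submodule.mem_bot] at hx
      rw [hx, map_zero]
    | succ k ih =>
      intro x hx
      have hins : Finset.univ.filter (fun j : Fin m => j.val < (k.succ).val) =
          insert k (Finset.univ.filter (fun j : Fin m => j.val < (k.castSucc).val)) := by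
        ext j
        simp only [Finset.mem_filter, Finset.mem_univ, true_and, Finset.mem_insert, Fin.val_succ, Fin.val_castSucc,
          Fin.ext_iff]
        omega
      have hk : k ∉ Finset.univ.filter (fun j : Fin m => j.val < (k.castSucc).val) := by simp
      rw [hins, Finset.prod_insert hk, mul_comm, map_mul, Module.End.mul_apply]
      refine ih _ (hφ0 k _ (aeval_stable (hst k.succ) _ x hx) ?_)
      have h1 := aeval_intertwine (f' := Matrix.toLin' (M k)) (hst k.succ) (φ k) (fun x hx => by
        rw [hφ k x hx, Matrix.toLin'_apply]) (p k) x hx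
      rw [h1, minpoly.aeval]
      rfl
  have huniv : Finset.univ.filter (fun j : Fin m => j.val < (Fin.last m).val) = Finset.univ := by
    ext j
    simp
  ext x
  have h1 := key (Fin.last m) x (by rw [hm]; exact Submodule.mem_top)
  rw [huniv] at h1
  exact h1

/-- integral polynomials of different weights are coprime -/
theorem coprime_of_weight {P Q : ℤ[X]} {a b : ℝ} (hab : a ≠ b) (hP : ∀ z : ℂ, aeval z P = 0 → ‖z‖ ^ 2 = a)
    (hQ : ∀ z : ℂ, aeval z Q = 0 → ‖z‖ ^ 2 = b) (ℓ : ℕ) [Fact ℓ.Prime] :
    IsCoprime (P.map (algebraMap ℤ ℚ_[ℓ])) (Q.map (algebraMap ℤ ℚ_[ℓ])) := by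
  have h1 : IsCoprime (P.map (algebraMap ℤ ℚ)) (Q.map (algebraMap ℤ ℚ)) := by
    rw [Polynomial.isCoprime_iff_aeval_ne_zero_of_isAlgClosed ℚ ℂ]
    intro z
    by_contra hcon
    push Not at hcon
    obtain ⟨h2, h3⟩ := hcon
    rw [aeval_map_algebraMap] at h2 h3
    exact hab ((hP z h2).symm.trans (hQ z h3))
  have h2 := h1.map (Polynomial.mapRingHom (algebraMap ℚ ℚ_[ℓ]))
  simp only [Polynomial.coe_mapRingHom, Polynomial.map_map] at h2
  have e : (algebraMap ℚ ℚ_[ℓ]).comp (algebraMap ℤ ℚ) = algebraMap ℤ ℚ_[ℓ] := RingHom.ext_int _ _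
  rwa [e] at h2

end

end Pool.Agent.X320.FS
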