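import Pool.Agent.X320.FS.Mixed

/-! Several pure systems. -/

set_option autoImplicit false
set_option linter.all false

namespace Pool.Agent.X320.FS

open Module Polynomial Filter Topology NumberField IsDedekindDomain Matrix
open Pool.Agent.W401.Cheb Pool.Agent.X320.DS
open Pool.Agent.W528.Ord (dens_mono dens_nonneg dens_or)

section

variable {K : Type} [Field K] [NumberField K]

theorem dens_one_and {P Q : HeightOneSpectrum (𝓞 K) → Prop} (hP : Tendsto (dens P) atTop (𝓝 1))
    (hQ : Tendsto (dens Q) atTop (𝓝 1)) : Tendsto (dens fun v => P v ∧ Q v) atTop (𝓝 1) := by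
  have h1 : Tendsto (fun N => dens P N - (dens (fun _ : HeightOneSpectrum (𝓞 K) => True) N - dens Q N)) atTop (𝓝 1) := by
    have := hP.sub ((dens_all (K := K)).sub hQ)
    rwa [sub_self, sub_zero] at this
  refine tendsto_of_tendsto_of_tendsto_of_le_of_le h1 (dens_all (K := K)) (fun N => ?_)
    (fun N => dens_mono (fun v _ => trivial) N)
  have h4 : dens P N ≤ dens (fun v => (P v ∧ Q v) ∨ ¬ Q v) N := by
    refine dens_mono (fun v hv => ?_) N
    by_cases hq : Q v
    · exact Or.inl ⟨hv, hq⟩
    · exact Or.inr hq
  have h5 := dens_or (fun v => P v ∧ Q v) (fun v => ¬ Q v) N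
  have h6 := dens_disj (P := Q) (Q := fun v => ¬ Q v) (fun v hv hn => hn hv) N
  show dens P N - (dens (fun _ : HeightOneSpectrum (𝓞 K) => True) N - dens Q N) ≤ dens (fun v => P v ∧ Q v) N
  linarith

theorem dens_one_all {m : ℕ} {P : Fin m → HeightOneSpectrum (𝓞 K) → Prop} (h : ∀ j, Tendsto (dens (P j)) atTop (𝓝 1)) :
    Tendsto (dens fun v => ∀ j, P j v) atTop (𝓝 1) := by
  classical
  have key : ∀ s : Finset (Fin m), Tendsto (dens fun v => ∀ j ∈ s, P j v) atTop (𝓝 1) := by
    intro s
    induction s using Finset.induction_on with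
    | empty =>
      have := dens_all (K := K)
      simpa using this
    | insert a s ha ih =>
      have := dens_one_and (h a) ih
      simpa only [Finset.forall_mem_insert] using this
  simpa using key Finset.univ

end

end Pool.Agent.X320.FS
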