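import Pool.Agent.X320.FS.Local
import Pool.Agent.X320.KR.Final
import Pool.Agent.X320.KR.PMain

/-! The elements which are not semisimple are in a closed set of measure zero. -/

set_option autoImplicit false
set_option linter.all false

namespace Pool.Agent.X320.FS

open Module Polynomial Filter Topology MeasureTheory Pool.Agent.X320.KR Pool.Agent.X320.DS Pool.Agent.X320.RU

section top

variable {Γ : Type*} [Group Γ] [TopologicalSpace Γ] [IsTopologicalGroup Γ] [CompactSpace Γ] [T2Space Γ]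
  [TotallyDisconnectedSpace Γ] {k : Type*} [Field k] [TopologicalSpace k] [IsTopologicalRing k] [T2Space k] {n : ℕ}
  (ρ : Γ →* GL (Fin n) k)

theorem fn_top_le (V : Subgroup Γ) : fn ρ (⊤ : Subgroup Γ) ≤ fn ρ V := by
  unfold fn
  rw [Algebra.adjoin_le_iff]
  rintro f (⟨a, b, rfl⟩ | ⟨q, rfl⟩)
  · exact Algebra.subset_adjoin (Or.inl ⟨a, b, rfl⟩)
  · have e : (Set.indicator {x : Γ | (QuotientGroup.mk x : Γ ⧸ (⊤ : Subgroup Γ)) = q} 1 : Γ → k) = 1 := by
      funext x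
      rw [Set.indicator_of_mem]
      show (QuotientGroup.mk x : Γ ⧸ (⊤ : Subgroup Γ)) = q
      obtain ⟨y, rfl⟩ := QuotientGroup.mk_surjective q
      exact QuotientGroup.eq.2 (Subgroup.mem_top _)
    rw [e]
    exact one_mem _

/-- a function which vanishes on an open part of a coset of `V` vanishes on the coset -/
theorem exists_irred (hρ : Continuous ρ) (W : Subgroup Γ) (hW : IsOpen (W : Set Γ)) :
    ∃ V : Subgroup Γ, V.Normal ∧ IsOpen (V : Set Γ) ∧ V ≤ W ∧ ∀ f ∈ fn ρ (⊤ : Subgroup Γ), ∀ g : Γ, ∀ O : Set Γ,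
      IsOpen O → O.Nonempty → (∀ x ∈ O, g⁻¹ * x ∈ V) → (∀ x ∈ O, f x = 0) → ∀ x, g⁻¹ * x ∈ V → f x = 0 := by
  classical
  have hTo : IsOpen ((⊤ : Subgroup Γ) : Set Γ) := isOpen_univ
  haveI : Finite (Γ ⧸ (⊤ : Subgroup Γ)) := Subgroup.quotient_finite_of_isOpen _ hTo
  haveI := noeth ρ (⊤ : Subgroup Γ)
  let I : Subgroup Γ → Ideal (fn ρ (⊤ : Subgroup Γ)) := fun U =>
    { carrier := {f | ∀ x ∈ U, f.1 x = 0}
      add_mem' := fun {a b} ha hb x hx => by
        show a.1 x + b.1 x = 0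
        rw [ha x hx, hb x hx, add_zero]
      zero_mem' := fun x _ => rfl
      smul_mem' := fun c a ha x hx => by
        show c.1 x * a.1 x = 0
        rw [ha x hx, mul_zero] }
  have hI : ∀ U U' : Subgroup Γ, U ≤ U' → I U' ≤ I U := fun U U' h f hf x hx => hf x (h hx)
  have hwf : WellFounded ((· > ·) : Ideal (fn ρ (⊤ : Subgroup Γ)) → Ideal (fn ρ (⊤ : Subgroup Γ)) → Prop) := wellFounded_gt
  obtain ⟨J, ⟨U₀, hU₀, rfl⟩, hmax⟩ := hwf.has_min {J | ∃ U : Subgroup Γ, IsOpen (U : Set Γ) ∧ J = I U}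
    ⟨_, ⊤, hTo, rfl⟩
  obtain ⟨V, hV⟩ := ProfiniteGrp.exist_openNormalSubgroup_sub_open_nhds_of_one (hU₀.inter hW) ⟨U₀.one_mem, W.one_mem⟩
  refine ⟨V.toSubgroup, V.isNormal', V.isOpen', fun x hx => (hV hx).2, fun f hf g O hO hne hOV hfO x hx => ?_⟩
  obtain ⟨y, hy⟩ := hne
  have hO' : IsOpen ((fun z => y * z) ⁻¹' O) := hO.preimage (continuous_const_mul y)
  obtain ⟨U, hU⟩ := ProfiniteGrp.exist_openNormalSubgroup_sub_open_nhds_of_one (hO'.inter hU₀)
    ⟨show y * 1 ∈ O by rwa [mul_one], U₀.one_mem⟩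
  have h1 : (⟨fun z => f (y * z), trans_mem ρ ⊤ y f hf⟩ : fn ρ (⊤ : Subgroup Γ)) ∈ I U.toSubgroup :=
    fun z hz => hfO _ (hU hz).1
  have h2 : I U₀ ≤ I U.toSubgroup := hI _ _ fun z hz => (hU hz).2
  have h3 : I U.toSubgroup = I U₀ := by
    by_contra hne'
    exact hmax (I U.toSubgroup) ⟨_, U.isOpen', rfl⟩ (lt_of_le_of_ne h2 fun h => hne' h.symm)
  rw [h3] at h1
  have h4 : y⁻¹ * x ∈ V.toSubgroup := by
    have h5 := V.toSubgroup.mul_mem (V.toSubgroup.inv_mem (hOV y hy)) hx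
    have e : (g⁻¹ * y)⁻¹ * (g⁻¹ * x) = y⁻¹ * x := by group
    rwa [e] at h5
  have h5 := h1 _ (hV h4).1
  have e : y * (y⁻¹ * x) = x := by group
  have h6 : f (y * (y⁻¹ * x)) = 0 := h5
  rwa [e] at h6

variable [MeasurableSpace Γ] [BorelSpace Γ]

/-- on a coset of `V` a function is zero or has a null set of zeros -/
theorem null_or (μ : Measure Γ) [IsProbabilityMeasure μ] [μ.IsMulLeftInvariant] (hρ : Continuous ρ) {V : Subgroup Γ}
    (hV : IsOpen (V : Set Γ)) (hirr : ∀ f ∈ fn ρ (⊤ : Subgroup Γ), ∀ g : Γ, ∀ O : Set Γ,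
      IsOpen O → O.Nonempty → (∀ x ∈ O, g⁻¹ * x ∈ V) → (∀ x ∈ O, f x = 0) → ∀ x, g⁻¹ * x ∈ V → f x = 0)
    (f : Γ → k) (hf : f ∈ fn ρ (⊤ : Subgroup Γ)) (g : Γ) (h : ∃ x, g⁻¹ * x ∈ V ∧ f x ≠ 0) :
    μ {x | g⁻¹ * x ∈ V ∧ f x = 0} = 0 := by
  classical
  by_contra hne
  haveI : Finite (Γ ⧸ V) := Subgroup.quotient_finite_of_isOpen _ hV
  haveI := noeth ρ V
  let I : Γ → k := Set.indicator {x | (QuotientGroup.mk x : Γ ⧸ V) = QuotientGroup.mk g} 1
  have hI : I ∈ fn ρ V := Algebra.subset_adjoin (Or.inr ⟨_, rfl⟩)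
  have hI0 : ∀ x, (1 - I) x = 0 ↔ g⁻¹ * x ∈ V := by
    intro x
    have hiff : (QuotientGroup.mk x : Γ ⧸ V) = QuotientGroup.mk g ↔ g⁻¹ * x ∈ V := by
      rw [eq_comm, QuotientGroup.eq]
    by_cases hx : g⁻¹ * x ∈ V
    · have : I x = 1 := by
        show (Set.indicator {x | (QuotientGroup.mk x : Γ ⧸ V) = QuotientGroup.mk g} 1 : Γ → k) x = 1
        rw [Set.indicator_of_mem (show x ∈ {x | (QuotientGroup.mk x : Γ ⧸ V) = QuotientGroup.mk g} from hiff.2 hx)]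
        rfl
      rw [Pi.sub_apply, this]
      simp [hx]
    · have : I x = 0 := by
        show (Set.indicator {x | (QuotientGroup.mk x : Γ ⧸ V) = QuotientGroup.mk g} 1 : Γ → k) x = 0
        rw [Set.indicator_of_notMem (show x ∉ {x | (QuotientGroup.mk x : Γ ⧸ V) = QuotientGroup.mk g} from
          fun h => hx (hiff.1 h))]
      rw [Pi.sub_apply, this]
      simp [hx]
  have hfV : f ∈ fn ρ V := fn_top_le ρ V hf
  obtain ⟨H, hH, x₀, hx₀⟩ := exists_coset μ (fn ρ V) (fun f hf => isClosed_singleton.preimage (cont_mem ρ hV hρ f hf))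
    (fun g f hf => trans_mem ρ V g f hf) {f, 1 - I} (by
      rintro f' (rfl | rfl)
      · exact hfV
      · exact (fn ρ V).sub_mem (fn ρ V).one_mem hI) (by
      have e : {x | ∀ f' ∈ ({f, 1 - I} : Set (Γ → k)), f' x = 0} = {x | g⁻¹ * x ∈ V ∧ f x = 0} := by
        ext x
        constructor
        · intro hx
          exact ⟨(hI0 x).1 (hx _ (Or.inr rfl)), hx _ (Or.inl rfl)⟩
        · rintro ⟨h1, h2⟩ f' (rfl | rfl)
          · exact h2
          · exact (hI0 x).2 h1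
      rw [e]
      exact hne)
  obtain ⟨x, hx, hfx⟩ := h
  apply hfx
  refine hirr f hf g ((fun z => z * x₀⁻¹) ⁻¹' (H : Set Γ)) (hH.preimage (continuous_mul_const _)) ⟨x₀, ?_⟩ ?_ ?_ x hx
  · show x₀ * x₀⁻¹ ∈ H
    rw [mul_inv_cancel]
    exact H.one_mem
  · intro z hz
    have h1 := hx₀ (z * x₀⁻¹) hz _ (Or.inr rfl)
    rw [inv_mul_cancel_right] at h1
    exact (hI0 z).1 h1
  · intro z hz
    have h1 := hx₀ (z * x₀⁻¹) hz _ (Or.inl rfl)
    rwa [inv_mul_cancel_right] at h1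

end top

end Pool.Agent.X320.FS
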