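import Pool.Agent.X320.FS.Local

/-! The number of different eigenvalues is the number of different roots of the characteristic polynomial. -/

set_option autoImplicit false
set_option linter.all false

namespace Pool.Agent.X320.FS

open Module Polynomial

section

variable {K : Type*} [Field K] [CharZero K] {n : ℕ}

theorem aeval_toLin2 {F : Type*} [Field F] (M : Matrix (Fin n) (Fin n) F) (g : F[X]) :
    aeval (Matrix.toLin' M) g = Matrix.toLin' (aeval M g) := by
  have := Polynomial.aeval_algHom_apply (Matrix.toLinAlgEquiv' (R := F) (n := Fin n)).toAlgHom M g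
  exact this

theorem ndeg_eq (M : Matrix (Fin n) (Fin n) K) (Ω : Type*) [Field Ω] [IsAlgClosed Ω] [Algebra K Ω] [DecidableEq Ω] :
    ndeg (Matrix.toLin' M) = (M.charpoly.map (algebraMap K Ω)).roots.toFinset.card := by
  set Q := (exists_rad (Matrix.toLin' M)).choose with hQdef
  have hQ : IsRad (Matrix.toLin' M) Q := (exists_rad (Matrix.toLin' M)).choose_spec
  have h0 : ndeg (Matrix.toLin' M) = Q.natDegree := rfl
  have hsep : (Q.map (algebraMap K Ω)).Separable := hQ.sep.map
  have h1 : Q.natDegree = (Q.map (algebraMap K Ω)).roots.toFinset.card := by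
    rw [Multiset.toFinset_card_of_nodup (nodup_roots hsep), ← (IsAlgClosed.splits (Q.map (algebraMap K Ω))).natDegree_eq_card_roots,
      Polynomial.natDegree_map]
  rw [h0, h1]
  congr 1
  have hQ0 : Q.map (algebraMap K Ω) ≠ 0 := (hQ.monic.map _).ne_zero
  have hP0 : M.charpoly.map (algebraMap K Ω) ≠ 0 := (M.charpoly_monic.map _).ne_zero
  ext z
  rw [Multiset.mem_toFinset, Multiset.mem_toFinset, mem_roots hQ0, mem_roots hP0]
  constructor
  · intro hz
    have hd : Q ∣ M.charpoly := hQ.dvd _ (by
      have := aeval_toLin2 M M.charpoly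
      rw [this, Matrix.aeval_self_charpoly, map_zero]
      exact IsNilpotent.zero)
    exact hz.dvd (Polynomial.map_dvd _ hd)
  · intro hz
    rw [← Matrix.charpoly_map] at hz
    set N : Matrix (Fin n) (Fin n) Ω := M.map (algebraMap K Ω) with hN
    have hev : Module.End.HasEigenvalue (Matrix.toLin' N) z := by
      rw [Module.End.hasEigenvalue_iff_isRoot_charpoly, Matrix.charpoly_toLin']
      exact hz
    obtain ⟨v, hv⟩ := hev.exists_hasEigenvector
    obtain ⟨k, hk⟩ := hQ.nil
    have e1 : aeval M (Q ^ k) = 0 := by
      apply Matrix.toLin'.injective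
      rw [← aeval_toLin2, map_pow, hk, map_zero]
    have e2 : aeval N (Q.map (algebraMap K Ω) ^ k) = 0 := by
      rw [← Polynomial.map_pow]
      have h3 : aeval N ((Q ^ k).map (algebraMap K Ω)) = (aeval M (Q ^ k)).map (algebraMap K Ω) := by
        have h4 := Polynomial.map_aeval_eq_aeval_map (φ := algebraMap K Ω) (ψ := (algebraMap K Ω).mapMatrix (m := Fin n)) (by
          ext r i j
          show (algebraMap Ω (Matrix (Fin n) (Fin n) Ω) (algebraMap K Ω r)) i j =
            algebraMap K Ω ((algebraMap K (Matrix (Fin n) (Fin n) K) r) i j)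
          by_cases hij : i = j
          · subst hij
            simp [Matrix.algebraMap_matrix_apply]
          · simp [Matrix.algebraMap_matrix_apply, hij]) (Q ^ k) M
        exact h4.symm
      rw [h3, e1]
      ext i j
      simp
    have e3 : aeval (Matrix.toLin' N) (Q.map (algebraMap K Ω) ^ k) v = 0 := by
      have := aeval_toLin2 N (Q.map (algebraMap K Ω) ^ k)
      rw [this, e2, map_zero]
      rfl
    rw [Module.End.aeval_apply_of_hasEigenvector hv] at e3
    rcases smul_eq_zero.1 e3 with h | h
    · rw [eval_pow] at h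
      have hk0 : k ≠ 0 := by
        rintro rfl
        rw [pow_zero] at h
        exact one_ne_zero h
      exact (pow_eq_zero_iff hk0).1 h
    · exact absurd h hv.2

/-- the number depends only on the integral polynomial -/
theorem ndeg_int (M : Matrix (Fin n) (Fin n) K) (P : ℤ[X]) (h : M.charpoly = P.map (algebraMap ℤ K)) :
    ∀ [DecidableEq (AlgebraicClosure ℚ)], ndeg (Matrix.toLin' M) =
      (P.map (algebraMap ℤ (AlgebraicClosure ℚ))).roots.toFinset.card := by
  intro _
  classical
  let Ω := AlgebraicClosure K
  haveI : Algebra.IsAlgebraic ℚ (AlgebraicClosure ℚ) := by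
    have h1 := AlgebraicClosure.isAlgebraic ℚ
    have e : (AlgebraicClosure.instAlgebra ℚ : Algebra ℚ (AlgebraicClosure ℚ)) = DivisionRing.toRatAlgebra :=
      Subsingleton.elim _ _
    rw [← e]
    exact h1
  let j : AlgebraicClosure ℚ →+* Ω := (IsAlgClosed.lift (R := ℚ) (M := Ω) (S := AlgebraicClosure ℚ)).toRingHom
  rw [ndeg_eq M Ω, h, Polynomial.map_map]
  have e : (algebraMap K Ω).comp (algebraMap ℤ K) = j.comp (algebraMap ℤ (AlgebraicClosure ℚ)) := RingHom.ext_int _ _
  rw [e, ← Polynomial.map_map, (IsAlgClosed.splits _).roots_map]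
  have e2 : (Multiset.map j (P.map (algebraMap ℤ (AlgebraicClosure ℚ))).roots).toFinset =
      ((P.map (algebraMap ℤ (AlgebraicClosure ℚ))).roots.toFinset).image j := by
    ext z
    simp
  rw [e2, Finset.card_image_of_injective _ j.injective]

end

end Pool.Agent.X320.FS
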