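import Pool.Agent.X320.FS.Group
import Pool.Agent.X320.FS.Roots

/-! The generic number of eigenvalues, and the elements where it is attained. -/

set_option autoImplicit false
set_option linter.all false

namespace Pool.Agent.X320.FS

open Module Polynomial Filter Topology MeasureTheory Pool.Agent.X320.KR Pool.Agent.X320.DS Pool.Agent.X320.RU

section rank

variable {Γ : Type*} [Group Γ] [TopologicalSpace Γ] [IsTopologicalGroup Γ] [CompactSpace Γ] [T2Space Γ]
  [TotallyDisconnectedSpace Γ] {k : Type*} [Field k] [CharZero k] [TopologicalSpace k] [IsTopologicalRing k] [T2Space k]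
  {n : ℕ} (ρ : Γ →* GL (Fin n) k) [MeasurableSpace Γ] [BorelSpace Γ]

/-- the elements with at least `r` eigenvalues are open -/
theorem open_ndeg (hρ : Continuous ρ) (r : ℕ) :
    IsOpen {x : Γ | phi r (ρ x : Matrix (Fin n) (Fin n) k) ≠ 0} :=
  isOpen_ne.preimage ((phi_cont r).comp (Units.continuous_val.comp hρ))

/-- The generic number of eigenvalues on the cosets of an open subgroup. -/
theorem exists_rank (μ : Measure Γ) [IsProbabilityMeasure μ] [μ.IsMulLeftInvariant] (hρ : Continuous ρ) :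
    ∃ (V : Subgroup Γ) (R : Γ → ℕ) (B : Set Γ), V.Normal ∧ IsOpen (V : Set Γ) ∧ IsClosed B ∧ μ B = 0 ∧
      (∀ x y, x⁻¹ * y ∈ V → R x = R y) ∧
      (∀ x, ndeg (Matrix.toLin' (ρ x : Matrix (Fin n) (Fin n) k)) ≤ R x) ∧
      ∀ x ∉ B, ndeg (Matrix.toLin' (ρ x : Matrix (Fin n) (Fin n) k)) = R x := by
  classical
  obtain ⟨V, hVn, hVo, -, hirr⟩ := exists_irred ρ hρ ⊤ isOpen_univ
  haveI := hVn
  haveI : Finite (Γ ⧸ V) := Subgroup.quotient_finite_of_isOpen _ hVo
  have hVc : IsClosed (V : Set Γ) := Subgroup.isClosed_of_isOpen V hVo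
  let P : Γ → ℕ → Prop := fun g r => ∃ y, g⁻¹ * y ∈ V ∧ phi r (ρ y : Matrix (Fin n) (Fin n) k) ≠ 0
  let R : Γ → ℕ := fun g => Nat.findGreatest (P g) n
  have hP0 : ∀ g, P g 0 := by
    intro g
    refine ⟨g, by rw [inv_mul_cancel]; exact V.one_mem, ?_⟩
    show (Matrix.of fun i j : Fin 0 => _).det ≠ 0
    rw [Matrix.det_isEmpty]
    exact one_ne_zero
  have hPR : ∀ g, P g (R g) := fun g => Nat.findGreatest_spec (Nat.zero_le n) (hP0 g)
  have hfn : ∀ r, (fun x : Γ => phi r (ρ x : Matrix (Fin n) (Fin n) k)) ∈ fn ρ (⊤ : Subgroup Γ) := fun r => phi_mem ρ _ r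
  have hRV : ∀ x y, x⁻¹ * y ∈ V → R x = R y := by
    intro x y hxy
    have e : P x = P y := by
      funext r
      refine propext ⟨?_, ?_⟩
      · rintro ⟨z, hz, hz'⟩
        refine ⟨z, ?_, hz'⟩
        have e1 : y⁻¹ * z = (x⁻¹ * y)⁻¹ * (x⁻¹ * z) := by group
        rw [e1]
        exact V.mul_mem (V.inv_mem hxy) hz
      · rintro ⟨z, hz, hz'⟩
        refine ⟨z, ?_, hz'⟩
        have e1 : x⁻¹ * z = (x⁻¹ * y) * (y⁻¹ * z) := by group
        rw [e1]
        exact V.mul_mem hxy hz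
    show Nat.findGreatest (P x) n = Nat.findGreatest (P y) n
    simp only [e]
  have hup : ∀ x, ndeg (Matrix.toLin' (ρ x : Matrix (Fin n) (Fin n) k)) ≤ R x := by
    intro x
    refine Nat.le_findGreatest ?_ ⟨x, by rw [inv_mul_cancel]; exact V.one_mem, ?_⟩
    · have := ndeg_le (Matrix.toLin' (ρ x : Matrix (Fin n) (Fin n) k))
      rwa [finrank_fin_fun] at this
    · rw [← phi_eq]
      exact ndeg_det _
  refine ⟨V, R, ⋃ q : Γ ⧸ V, {x | q.out⁻¹ * x ∈ V ∧ phi (R q.out) (ρ x : Matrix (Fin n) (Fin n) k) = 0}, hVn, hVo,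
    ?_, ?_, hRV, hup, ?_⟩
  · refine isClosed_iUnion_of_finite fun q => ?_
    refine (hVc.preimage (continuous_const_mul q.out⁻¹)).inter ?_
    exact isClosed_singleton.preimage ((phi_cont (R q.out)).comp (Units.continuous_val.comp hρ))
  · rw [measure_iUnion_null_iff]
    intro q
    exact null_or ρ μ hρ hVo hirr _ (hfn (R q.out)) q.out (hPR q.out)
  · intro x hx
    set q : Γ ⧸ V := QuotientGroup.mk x with hq
    have hqx : q.out⁻¹ * x ∈ V := by
      rw [← QuotientGroup.eq, QuotientGroup.out_eq']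
    have hx' : phi (R q.out) (ρ x : Matrix (Fin n) (Fin n) k) ≠ 0 := fun h0 =>
      hx (Set.mem_iUnion.2 ⟨q, hqx, h0⟩)
    refine le_antisymm (hup x) ?_
    rw [← hRV _ _ hqx]
    refine le_ndeg _ ?_
    rw [phi_eq]
    exact hx'

end rank

section max

variable {Γ : Type*} [Group Γ] [TopologicalSpace Γ] [IsTopologicalGroup Γ] [CompactSpace Γ] [T2Space Γ]
  [TotallyDisconnectedSpace Γ] {p : ℕ} [hp : Fact p.Prime] {E : Type*} [NontriviallyNormedField E] [CompleteSpace E]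
  [IsUltrametricDist E] [NormedAlgebra ℚ_[p] E] [CharZero E] {n : ℕ} (ρ : Γ →* GL (Fin n) E)

include hp in
/-- **A local maximum of the number of eigenvalues is semisimple.** -/
theorem ss_of_max_of (hρ : Continuous ρ)
    (hA : ∀ z ∈ alg ρ, (∀ a ∈ alg ρ, LinearMap.trace E (Fin n → E) (a * z) = 0) → z = 0) {V : Subgroup Γ} (hVn : V.Normal)
    (hVo : IsOpen (V : Set Γ)) (x : Γ) (hmax : ∀ y, x⁻¹ * y ∈ V →
      ndeg (Matrix.toLin' (ρ y : Matrix (Fin n) (Fin n) E)) ≤ ndeg (Matrix.toLin' (ρ x : Matrix (Fin n) (Fin n) E))) :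
    Module.End.IsSemisimple (Matrix.toLin' (ρ x : Matrix (Fin n) (Fin n) E)) := by
  classical
  obtain ⟨W, hWn, hWo, hW⟩ := exists_close (p := p) ρ hρ
  have hUn : (V ⊓ W).Normal := ⟨fun u hu g => ⟨hVn.conj_mem u hu.1 g, hWn.conj_mem u hu.2 g⟩⟩
  have hUo : IsOpen ((V ⊓ W : Subgroup Γ) : Set Γ) := hVo.inter hWo
  haveI := hUn
  haveI : Finite (Γ ⧸ (V ⊓ W)) := Subgroup.quotient_finite_of_isOpen _ hUo
  have hN : 0 < (V ⊓ W).index := Nat.pos_of_ne_zero Subgroup.index_ne_zero_of_finite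
  refine local_ss_of (p := p) hA hUn (fun u hu => hW u hu.2) x hN (Subgroup.pow_index_mem (V ⊓ W) x) ?_
  intro u hu
  obtain ⟨Y, hY⟩ := exists_log (hW u hu.2)
  have hlim : Tendsto (fun k : ℕ => (ρ (x * u ^ p ^ k) : Matrix (Fin n) (Fin n) E)) atTop
      (𝓝 (ρ x : Matrix (Fin n) (Fin n) E)) := by
    have h1 := (tendsto_const_nhds (x := (ρ x : Matrix (Fin n) (Fin n) E))).mul hY.pow_tendsto
    rw [mul_one] at h1
    refine h1.congr fun k => ?_
    rw [map_mul, Units.val_mul, map_pow, Units.val_pow_eq_pow_val]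
  have hx' : phi (ndeg (Matrix.toLin' (ρ x : Matrix (Fin n) (Fin n) E))) (ρ x : Matrix (Fin n) (Fin n) E) ≠ 0 := by
    rw [← phi_eq]
    exact ndeg_det _
  have h2 := (((phi_cont (ndeg (Matrix.toLin' (ρ x : Matrix (Fin n) (Fin n) E)))).tendsto _).comp hlim).eventually_ne hx'
  refine h2.mono fun k hk => le_antisymm (hmax _ ?_) (le_ndeg _ ?_)
  · rw [inv_mul_cancel_left]
    exact V.pow_mem hu.1 _
  · rw [phi_eq]
    exact hk

include hp in
theorem ss_of_max (hρ : Continuous ρ) (hss : Semisimple ρ) {V : Subgroup Γ} (hVn : V.Normal)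
    (hVo : IsOpen (V : Set Γ)) (x : Γ) (hmax : ∀ y, x⁻¹ * y ∈ V →
      ndeg (Matrix.toLin' (ρ y : Matrix (Fin n) (Fin n) E)) ≤ ndeg (Matrix.toLin' (ρ x : Matrix (Fin n) (Fin n) E))) :
    Module.End.IsSemisimple (Matrix.toLin' (ρ x : Matrix (Fin n) (Fin n) E)) :=
  ss_of_max_of (p := p) ρ hρ (fun z hz hz' => trace_nondeg hss (by exact_mod_cast n.factorial_ne_zero) hz hz')
    hVn hVo x hmax

end max

end Pool.Agent.X320.FS
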