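import Pool.Agent.X320.FS.Lin

/-! The squarefree part of the characteristic polynomial and the matrix of the traces of powers. -/

set_option autoImplicit false
set_option linter.all false

namespace Pool.Agent.X320.FS

open Module Polynomial

section

variable {K V : Type*} [Field K] [CharZero K] [AddCommGroup V] [Module K V] [FiniteDimensional K V]

/-- `Q` is the squarefree polynomial with the same roots as the characteristic polynomial of `f`. -/
structure IsRad (f : End K V) (Q : K[X]) : Prop where
  monic : Q.Monic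
  sep : Q.Separable
  tr : ∀ g : K[X], LinearMap.trace K V (aeval f (Q * g)) = 0
  inj : ∀ c : K[X], c.natDegree < Q.natDegree ∨ c = 0 →
    (∀ i < Q.natDegree, LinearMap.trace K V (aeval f (c * X ^ i)) = 0) → c = 0
  nil : IsNilpotent (aeval f Q)
  dvd : ∀ g : K[X], IsNilpotent (aeval f g) → Q ∣ g

theorem exists_rad (f : End K V) : ∃ Q, IsRad f Q := by
  obtain ⟨n, hn, s, hs, hnn, hss, hf⟩ := f.exists_isNilpotent_isSemisimple
  set A := Algebra.adjoin K {f} with hA
  have hfA : f ∈ A := Algebra.self_mem_adjoin_singleton K f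
  -- comparison of the values of polynomials
  have hcmp : ∀ g : K[X], ∃ c : End K V, Commute n c ∧ Commute (aeval s g) (n * c) ∧
      aeval f g = aeval s g + n * c := by
    intro g
    obtain ⟨c, hc⟩ := Polynomial.sub_dvd_eval_sub (⟨f, hfA⟩ : A) ⟨s, hs⟩ (g.map (algebraMap K A))
    rw [eval_map_algebraMap, eval_map_algebraMap] at hc
    have h1 := congrArg (Subtype.val) hc
    have e1 : ((aeval (⟨f, hfA⟩ : A) g : A) : End K V) = aeval f g := by
      rw [Polynomial.aeval_subalgebra_coe]
    have e2 : ((aeval (⟨s, hs⟩ : A) g : A) : End K V) = aeval s g := by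
      rw [Polynomial.aeval_subalgebra_coe]
    have e3 : f - s = n := by rw [hf, add_sub_cancel_right]
    have h2 : aeval f g - aeval s g = n * c.1 := by
      have : ((aeval (⟨f, hfA⟩ : A) g - aeval (⟨s, hs⟩ : A) g : A) : End K V) =
        (((⟨f, hfA⟩ : A) - ⟨s, hs⟩) * c : A) := h1
      rw [AddSubgroupClass.coe_sub, e1, e2] at this
      rw [this]
      show (f - s) * c.1 = n * c.1
      rw [e3]
    refine ⟨c.1, ?_, ?_, ?_⟩
    · have := mul_comm (⟨n, hn⟩ : A) c
      exact congrArg Subtype.val this
    · have := mul_comm (aeval (⟨s, hs⟩ : A) g) ((⟨n, hn⟩ : A) * c)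
      have h3 := congrArg Subtype.val this
      rw [← e2]
      exact h3
    · rw [← h2]; abel
  have htr : ∀ g : K[X], LinearMap.trace K V (aeval f g) = LinearMap.trace K V (aeval s g) := by
    intro g
    obtain ⟨c, hc, -, hg⟩ := hcmp g
    rw [hg, map_add, trace_eq_zero_of_nil (hc.isNilpotent_mul_right hnn), add_zero]
  have hQ0 : aeval s (minpoly K s) = 0 := minpoly.aeval K s
  have hsq := hss.minpoly_squarefree
  have hmon : (minpoly K s).Monic := minpoly.monic (Algebra.IsIntegral.isIntegral s)
  refine ⟨minpoly K s, hmon, (PerfectField.separable_iff_squarefree).2 hsq, fun g => ?_, fun c hc hi => ?_, ?_, fun g hg => ?_⟩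
  · rw [htr, map_mul, hQ0, zero_mul, map_zero]
  · set Q := minpoly K s with hQdef
    have h1 : ∀ g : K[X], LinearMap.trace K V (aeval s (c * g)) = 0 := by
      intro g
      have h2 : ∀ g : K[X], (∀ i, g.coeff i ≠ 0 → i < Q.natDegree) → LinearMap.trace K V (aeval s (c * g)) = 0 := by
        intro g hg
        rw [g.as_sum_support_C_mul_X_pow, Finset.mul_sum, map_sum, map_sum]
        refine Finset.sum_eq_zero fun i hi' => ?_
        rw [← mul_assoc, mul_comm c, mul_assoc, map_mul, aeval_C, ← Algebra.smul_def, map_smul, ← htr,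
          hi i (hg i (Polynomial.mem_support_iff.1 hi')), smul_zero]
      have h3 := Polynomial.modByMonic_add_div g Q
      rw [← h3, mul_add, map_add, map_add]
      have e : c * (Q * (g /ₘ Q)) = Q * (c * (g /ₘ Q)) := by ring
      rw [e, map_mul (aeval s) Q, hQ0, zero_mul, map_zero, add_zero]
      refine h2 _ fun i hi' => ?_
      by_contra hle
      apply hi'
      apply Polynomial.coeff_eq_zero_of_degree_lt
      refine lt_of_lt_of_le (Polynomial.degree_modByMonic_lt g hmon) ?_
      exact Polynomial.degree_le_of_natDegree_le (not_lt.1 hle)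
    have h2 : IsNilpotent (aeval s c) := by
      refine nil_of_trace fun k hk => ?_
      obtain ⟨j, rfl⟩ : ∃ j, k = j + 1 := ⟨k - 1, by omega⟩
      rw [← map_pow, pow_succ']
      exact h1 _
    have h3 := Module.End.eq_zero_of_isNilpotent_isSemisimple h2 (hss.aeval c)
    rcases hc with hc | hc
    · exact Polynomial.eq_zero_of_dvd_of_natDegree_lt (minpoly.dvd K s h3) hc
    · exact hc
  · obtain ⟨c, hc, -, hg⟩ := hcmp (minpoly K s)
    rw [hg, hQ0, zero_add]
    exact hc.isNilpotent_mul_right hnn
  · obtain ⟨c, hc, hcc, hg'⟩ := hcmp g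
    have h1 : aeval s g = aeval f g - n * c := by rw [hg']; abel
    have h2 : IsNilpotent (aeval s g) := by
      rw [h1]
      refine Commute.isNilpotent_sub ?_ hg (hc.isNilpotent_mul_right hnn)
      rw [hg']
      exact hcc.add_left (Commute.refl _)
    exact minpoly.dvd K s (Module.End.eq_zero_of_isNilpotent_isSemisimple h2 (hss.aeval g))

/-- the matrix of the traces of the powers -/
noncomputable def hank (r : ℕ) (f : End K V) : Matrix (Fin r) (Fin r) K :=
  Matrix.of fun i j => LinearMap.trace K V (f ^ (i.1 + j.1))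

/-- the polynomial with given coefficients -/
noncomputable def toPoly {r : ℕ} (c : Fin r → K) : K[X] := ∑ j : Fin r, C (c j) * X ^ (j : ℕ)

theorem toPoly_coeff {r : ℕ} (c : Fin r → K) (j : Fin r) : (toPoly c).coeff j = c j := by
  unfold toPoly
  rw [Polynomial.finsetSum_coeff, Finset.sum_eq_single j]
  · rw [coeff_C_mul, coeff_X_pow, if_pos rfl, mul_one]
  · intro b _ hb
    rw [coeff_C_mul, coeff_X_pow, if_neg (fun h => hb (Fin.ext h.symm)), mul_zero]
  · intro h; exact absurd (Finset.mem_univ _) h

theorem toPoly_degree {r : ℕ} (c : Fin r → K) : (toPoly c).degree < r := Polynomial.degree_sum_fin_lt c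

theorem hank_mulVec {r : ℕ} (f : End K V) (c : Fin r → K) (i : Fin r) :
    (hank r f).mulVec c i = LinearMap.trace K V (aeval f (toPoly c * X ^ (i : ℕ))) := by
  unfold toPoly
  rw [Finset.sum_mul, map_sum, map_sum]
  show ∑ j, hank r f i j * c j = _
  refine Finset.sum_congr rfl fun j _ => ?_
  rw [mul_assoc, ← pow_add, map_mul, aeval_C, ← Algebra.smul_def, map_smul, map_pow, aeval_X, smul_eq_mul, mul_comm,
    add_comm (j : ℕ)]
  rfl

theorem toPoly_eq {r : ℕ} (P : K[X]) (h : P.degree < r) : toPoly (fun j : Fin r => P.coeff j) = P := by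
  ext k
  by_cases hk : k < r
  · exact toPoly_coeff (fun j : Fin r => P.coeff j) ⟨k, hk⟩
  · have hk' : (r : WithBot ℕ) ≤ k := by exact_mod_cast not_lt.1 hk
    rw [Polynomial.coeff_eq_zero_of_degree_lt ((toPoly_degree _).trans_le hk'),
      Polynomial.coeff_eq_zero_of_degree_lt (h.trans_le hk')]

theorem IsRad.det_ne {f : End K V} {Q : K[X]} (h : IsRad f Q) : (hank Q.natDegree f).det ≠ 0 := by
  intro h0
  obtain ⟨c, hc, hc0⟩ := Matrix.exists_mulVec_eq_zero_iff.2 h0
  apply hc
  have hdeg := toPoly_degree c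
  have h1 : toPoly c = 0 := by
    refine h.inj _ ?_ fun i hi => ?_
    · by_cases hz : toPoly c = 0
      · exact Or.inr hz
      · left
        exact (Polynomial.natDegree_lt_iff_degree_lt hz).2 hdeg
    · rw [← hank_mulVec f c ⟨i, hi⟩, hc0]
      rfl
  funext j
  rw [← toPoly_coeff c j, h1, coeff_zero]
  rfl

theorem IsRad.le_of_det_ne {f : End K V} {Q : K[X]} (h : IsRad f Q) {r : ℕ} (hr : (hank r f).det ≠ 0) :
    r ≤ Q.natDegree := by
  by_contra hlt
  apply hr
  have hlt' : Q.natDegree < r := not_le.1 hlt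
  set P : K[X] := Q with hP
  have hdeg : P.degree < r := by
    rw [Polynomial.degree_eq_natDegree h.monic.ne_zero]
    exact_mod_cast hlt'
  refine Matrix.exists_mulVec_eq_zero_iff.1 ⟨fun j : Fin r => P.coeff j, ?_, ?_⟩
  · intro h0
    have h1 := toPoly_eq P hdeg
    rw [h0] at h1
    have h2 : toPoly (0 : Fin r → K) = 0 := by
      unfold toPoly
      refine Finset.sum_eq_zero fun j _ => ?_
      rw [Pi.zero_apply, C_0, zero_mul]
    rw [h2] at h1
    exact h.monic.ne_zero h1.symm
  · funext i
    rw [hank_mulVec, toPoly_eq P hdeg, h.tr]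
    rfl

theorem IsRad.system {f : End K V} {Q : K[X]} (h : IsRad f Q) {r : ℕ} (hr : Q.natDegree = r) :
    (hank r f).mulVec (fun j : Fin r => Q.coeff j) = -fun i : Fin r => LinearMap.trace K V (f ^ (i.1 + r)) := by
  funext i
  rw [hank_mulVec, Pi.neg_apply]
  have e : toPoly (fun j : Fin r => Q.coeff j) = Q - X ^ r := by
    rw [← toPoly_eq (Q - X ^ r) (by
      have h1 : Q.degree = ((X : K[X]) ^ r).degree := by
        rw [Polynomial.degree_X_pow, Polynomial.degree_eq_natDegree h.monic.ne_zero, hr]
      have h2 := Polynomial.degree_sub_lt h1 h.monic.ne_zero (by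
        rw [h.monic.leadingCoeff, Polynomial.leadingCoeff_X_pow])
      rwa [Polynomial.degree_eq_natDegree h.monic.ne_zero, hr] at h2)]
    congr 1
    funext j
    rw [coeff_sub, coeff_X_pow, if_neg (by have := j.2; omega), sub_zero]
  rw [e, sub_mul, map_sub, map_sub, h.tr, zero_sub, ← pow_add, map_pow, aeval_X, add_comm]

end

end Pool.Agent.X320.FS
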